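import Mathlib

/-!
# Sparse relations on `Fin t` can be oriented with bounded out-degree
-/

namespace Pool.Agent.OrdRam

open Finset

open Classical in
/-- The pairs `i < j` of elements of `J` related by `H`. -/
noncomputable def relPairs {t : ℕ} (H : Fin t → Fin t → Prop) (J : Finset (Fin t)) :
    Finset (Fin t × Fin t) :=
  (J ×ˢ J).filter fun q => q.1 < q.2 ∧ H q.1 q.2

open Classical in
theorem exists_small_degree {t D : ℕ} (H : Fin t → Fin t → Prop) (hsymm : ∀ i j, H i j → H j i)
    (J : Finset (Fin t)) (hc : (relPairs H J).card < D * J.card) :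
    ∃ i ∈ J, (J.filter fun j => j ≠ i ∧ H i j).card < 2 * D := by
  by_contra hcon
  push Not at hcon
  have h1 : 2 * D * J.card ≤ ∑ i ∈ J, (J.filter fun j => j ≠ i ∧ H i j).card := by
    calc 2 * D * J.card = ∑ _i ∈ J, 2 * D := by rw [Finset.sum_const, smul_eq_mul, mul_comm]
      _ ≤ _ := Finset.sum_le_sum hcon
  have h2 : ∑ i ∈ J, (J.filter fun j => j ≠ i ∧ H i j).card
      = ((J ×ˢ J).filter fun q => q.2 ≠ q.1 ∧ H q.1 q.2).card := by
    rw [Finset.card_filter, Finset.sum_product]
    refine Finset.sum_congr rfl fun i _ => ?_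
    rw [Finset.card_filter]
  have h3 : ((J ×ˢ J).filter fun q => q.2 ≠ q.1 ∧ H q.1 q.2)
      = relPairs H J ∪ (relPairs H J).image Prod.swap := by
    ext ⟨a, b⟩
    simp only [relPairs, Finset.mem_filter, Finset.mem_product, Finset.mem_union,
      Finset.mem_image, Prod.exists, Prod.swap_prod_mk, Prod.mk.injEq]
    constructor
    · rintro ⟨⟨ha, hb⟩, hne, hH⟩
      rcases lt_trichotomy a b with h | h | h
      · left; exact ⟨⟨ha, hb⟩, h, hH⟩
      · exact absurd h.symm hne
      · right; exact ⟨b, a, ⟨⟨hb, ha⟩, h, hsymm _ _ hH⟩, rfl, rfl⟩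
    · rintro (⟨⟨ha, hb⟩, h, hH⟩ | ⟨x, y, ⟨⟨hx, hy⟩, h, hH⟩, rfl, rfl⟩)
      · exact ⟨⟨ha, hb⟩, h.ne', hH⟩
      · exact ⟨⟨hy, hx⟩, h.ne, hsymm _ _ hH⟩
  have h4 : ((J ×ˢ J).filter fun q => q.2 ≠ q.1 ∧ H q.1 q.2).card ≤ 2 * (relPairs H J).card := by
    rw [h3]
    calc (relPairs H J ∪ (relPairs H J).image Prod.swap).card
        ≤ (relPairs H J).card + ((relPairs H J).image Prod.swap).card := Finset.card_union_le _ _
      _ ≤ (relPairs H J).card + (relPairs H J).card := by
          exact Nat.add_le_add_left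
            (Finset.card_image_le (f := Prod.swap) (s := relPairs H J)) _
      _ = _ := by ring
  have h5 : 2 * D * J.card ≤ 2 * (relPairs H J).card := by
    calc _ ≤ _ := h1
      _ = _ := h2
      _ ≤ _ := h4
  have : 2 * (relPairs H J).card < 2 * (D * J.card) := by omega
  rw [mul_assoc] at h5
  omega

open Classical in
theorem exists_cover {t k : ℕ} (N : Finset (Fin t)) (i : Fin t) (h : N.card ≤ k) :
    ∃ o : Fin k → Fin t, ∀ j ∈ N, ∃ c, o c = j := by
  refine ⟨fun c => N.toList.getD c i, fun j hj => ?_⟩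
  have hj' : j ∈ N.toList := Finset.mem_toList.mpr hj
  obtain ⟨c, hc, hcj⟩ := List.getElem_of_mem hj'
  have hlen : N.toList.length = N.card := Finset.length_toList N
  refine ⟨⟨c, by omega⟩, ?_⟩
  simp only
  rw [List.getD_eq_getElem _ _ hc, hcj]

open Classical in
theorem exists_orient_aux {t D : ℕ} (H : Fin t → Fin t → Prop) (hsymm : ∀ i j, H i j → H j i)
    (hJ : ∀ J : Finset (Fin t), J.Nonempty → (relPairs H J).card < D * J.card)
    (J : Finset (Fin t)) :
    ∃ o : Fin t → Fin (2 * D) → Fin t, ∀ i ∈ J, ∀ j ∈ J, i ≠ j → H i j →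
      (∃ c, o i c = j) ∨ (∃ c, o j c = i) := by
  induction J using Finset.strongInduction with
  | H J ih =>
    rcases J.eq_empty_or_nonempty with rfl | hne
    · exact ⟨fun i _ => i, by simp⟩
    · obtain ⟨i, hi, hdeg⟩ := exists_small_degree H hsymm J (hJ J hne)
      obtain ⟨o, ho⟩ := ih (J.erase i) (Finset.erase_ssubset hi)
      obtain ⟨oi, hoi⟩ := exists_cover (J.filter fun j => j ≠ i ∧ H i j) i hdeg.le
      refine ⟨Function.update o i oi, ?_⟩
      intro a ha b hb hab hH
      by_cases hai : a = i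
      · subst hai
        left
        obtain ⟨c, hc⟩ := hoi b (by simp [hb, hab.symm, hH])
        exact ⟨c, by simpa using hc⟩
      · by_cases hbi : b = i
        · subst hbi
          right
          obtain ⟨c, hc⟩ := hoi a (by simp [ha, hai, hsymm _ _ hH])
          exact ⟨c, by simpa using hc⟩
        · rcases ho a (by simp [ha, hai]) b (by simp [hb, hbi]) hab hH with ⟨c, hc⟩ | ⟨c, hc⟩
          · left; exact ⟨c, by simp [Function.update_of_ne hai, hc]⟩
          · right; exact ⟨c, by simp [Function.update_of_ne hbi, hc]⟩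

/-- A relation on `Fin t` with fewer than `D * |J|` related pairs inside every nonempty `J` can be
oriented with out-degrees at most `2 * D`. -/
theorem exists_orient {t D : ℕ} (H : Fin t → Fin t → Prop) (hsymm : ∀ i j, H i j → H j i)
    (hJ : ∀ J : Finset (Fin t), J.Nonempty → (relPairs H J).card < D * J.card) :
    ∃ o : Fin t → Fin (2 * D) → Fin t, ∀ i j, i ≠ j → H i j →
      (∃ c, o i c = j) ∨ (∃ c, o j c = i) := by
  obtain ⟨o, ho⟩ := exists_orient_aux H hsymm hJ Finset.univ
  exact ⟨o, fun i j => ho i (Finset.mem_univ _) j (Finset.mem_univ _)⟩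

end Pool.Agent.OrdRam
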