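import Mathlib

/-!
# Sums over functions of products of factorials of fibre sizes
-/

namespace Pool.Agent.OrdRam

open Finset

open Classical in
/-- The number of `v` with `f v = j`. -/
noncomputable def fib {V : Type*} [Fintype V] {t : ℕ} (f : V → Fin t) (j : Fin t) : ℕ :=
  (Finset.univ.filter fun v => f v = j).card

theorem sum_fib {V : Type*} [Fintype V] {t : ℕ} (f : V → Fin t) :
    ∑ j, fib f j = Fintype.card V := by
  classical
  unfold fib
  rw [← Finset.card_univ (α := V)]
  exact (Finset.card_eq_sum_card_fiberwise (fun v _ => Finset.mem_coe.mpr (Finset.mem_univ (f v)))).symm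

theorem fib_cons {t n : ℕ} (a : Fin t) (g : Fin n → Fin t) (j : Fin t) :
    fib (Fin.cons a g : Fin (n + 1) → Fin t) j = fib g j + if a = j then 1 else 0 := by
  classical
  unfold fib
  rw [Fin.card_filter_univ_succ]
  simp only [Fin.cons_zero, Fin.cons_succ]
  split_ifs <;> rfl

theorem prod_factorial_cons {t n : ℕ} (a : Fin t) (g : Fin n → Fin t) :
    ∏ j, (fib (Fin.cons a g : Fin (n + 1) → Fin t) j).factorial
      = (fib g a + 1) * ∏ j, (fib g j).factorial := by
  classical
  have h : ∀ j, (fib (Fin.cons a g : Fin (n + 1) → Fin t) j).factorial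
      = (if a = j then fib g j + 1 else 1) * (fib g j).factorial := by
    intro j
    rw [fib_cons]
    split_ifs with h
    · rw [Nat.factorial_succ]
    · simp
  simp_rw [h]
  rw [Finset.prod_mul_distrib]
  congr 1
  rw [Finset.prod_ite_eq Finset.univ a (fun j => fib g j + 1)]
  simp

theorem sum_fin_cons (t n : ℕ) (F : (Fin (n + 1) → Fin t) → ℕ) :
    ∑ f : Fin (n + 1) → Fin t, F f = ∑ a : Fin t, ∑ g : Fin n → Fin t, F (Fin.cons a g) := by
  rw [← (Fin.consEquiv (fun _ : Fin (n + 1) => Fin t)).sum_comp]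
  rw [Fintype.sum_prod_type]
  rfl

theorem sum_prod_factorial_fin (t n : ℕ) :
    ∑ f : Fin n → Fin t, ∏ j, (fib f j).factorial ≤ (n + t) ^ n := by
  classical
  induction n with
  | zero => simp [fib]
  | succ n ih =>
    rw [sum_fin_cons]
    have h : ∀ a : Fin t, ∀ g : Fin n → Fin t,
        ∏ j, (fib (Fin.cons a g : Fin (n + 1) → Fin t) j).factorial
          = (fib g a + 1) * ∏ j, (fib g j).factorial := prod_factorial_cons
    calc ∑ a : Fin t, ∑ g : Fin n → Fin t,
          ∏ j, (fib (Fin.cons a g : Fin (n + 1) → Fin t) j).factorial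
        = ∑ a : Fin t, ∑ g : Fin n → Fin t, (fib g a + 1) * ∏ j, (fib g j).factorial := by
          simp_rw [h]
      _ = ∑ g : Fin n → Fin t, ∑ a : Fin t, (fib g a + 1) * ∏ j, (fib g j).factorial :=
          Finset.sum_comm
      _ = ∑ g : Fin n → Fin t, (n + t) * ∏ j, (fib g j).factorial := by
          refine Finset.sum_congr rfl fun g _ => ?_
          rw [← Finset.sum_mul, Finset.sum_add_distrib, sum_fib]
          simp
      _ = (n + t) * ∑ g : Fin n → Fin t, ∏ j, (fib g j).factorial := by
          rw [Finset.mul_sum]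
      _ ≤ (n + t) * (n + t) ^ n := Nat.mul_le_mul_left _ ih
      _ = (n + t) ^ (n + 1) := by ring
      _ ≤ (n + 1 + t) ^ (n + 1) := Nat.pow_le_pow_left (by omega) _

theorem sum_prod_factorial (V : Type*) [Fintype V] [DecidableEq V] (t : ℕ) :
    ∑ f : V → Fin t, ∏ j, (fib f j).factorial ≤ (Fintype.card V + t) ^ Fintype.card V := by
  classical
  let e := Fintype.equivFin V
  have h := sum_prod_factorial_fin t (Fintype.card V)
  have h2 : ∑ f : V → Fin t, ∏ j, (fib f j).factorial
      = ∑ f : Fin (Fintype.card V) → Fin t, ∏ j, (fib f j).factorial := by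
    refine Fintype.sum_equiv (Equiv.arrowCongr e (Equiv.refl _)) _ _ fun f => ?_
    refine Finset.prod_congr rfl fun j _ => ?_
    congr 1
    unfold fib
    refine Finset.card_bij (fun v _ => e v) ?_ ?_ ?_
    · intro v hv
      simp only [Finset.mem_filter, Finset.mem_univ, true_and] at hv ⊢
      simpa using hv
    · intro a _ b _ hab
      exact e.injective hab
    · intro b hb
      refine ⟨e.symm b, ?_, by simp⟩
      simp only [Finset.mem_filter, Finset.mem_univ, true_and] at hb ⊢
      simpa using hb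
  rw [h2]; exact h

theorem prod_fib_eq {V : Type*} [Fintype V] {t : ℕ} (f : V → Fin t) :
    ∏ v, (fib f (f v) : ℝ) = ∏ j, (fib f j : ℝ) ^ fib f j := by
  classical
  rw [← Finset.prod_fiberwise_of_maps_to (s := Finset.univ) (t := Finset.univ) (g := f)
    (fun v _ => Finset.mem_univ _)]
  refine Finset.prod_congr rfl fun j _ => ?_
  rw [Finset.prod_congr rfl (g := fun _ => (fib f j : ℝ))]
  · rw [Finset.prod_const]
    rfl
  · intro v hv
    rw [Finset.mem_filter] at hv
    rw [hv.2]

theorem prod_fib_le {V : Type*} [Fintype V] {t : ℕ} (f : V → Fin t) :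
    ∏ v, (fib f (f v) : ℝ) ≤ Real.exp (Fintype.card V) * ∏ j, ((fib f j).factorial : ℝ) := by
  rw [prod_fib_eq]
  have h1 : ∀ j, (fib f j : ℝ) ^ fib f j ≤ Real.exp (fib f j) * ((fib f j).factorial : ℝ) := by
    intro j
    have h := Real.pow_div_factorial_le_exp (fib f j : ℝ) (Nat.cast_nonneg _) (fib f j)
    rwa [div_le_iff₀ (by exact_mod_cast Nat.factorial_pos _)] at h
  calc ∏ j, (fib f j : ℝ) ^ fib f j
      ≤ ∏ j, (Real.exp (fib f j) * ((fib f j).factorial : ℝ)) :=
        Finset.prod_le_prod (fun j _ => by positivity) (fun j _ => h1 j)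
    _ = Real.exp (∑ j, (fib f j : ℝ)) * ∏ j, ((fib f j).factorial : ℝ) := by
        rw [Finset.prod_mul_distrib, Real.exp_sum]
    _ = _ := by
        rw [← Nat.cast_sum, sum_fib]

theorem sum_prod_fib_le (V : Type*) [Fintype V] [DecidableEq V] (t : ℕ) :
    ∑ f : V → Fin t, ∏ v, (fib f (f v) : ℝ)
      ≤ Real.exp (Fintype.card V) * ((Fintype.card V + t : ℕ) : ℝ) ^ Fintype.card V := by
  calc ∑ f : V → Fin t, ∏ v, (fib f (f v) : ℝ)
      ≤ ∑ f : V → Fin t, Real.exp (Fintype.card V) * ∏ j, ((fib f j).factorial : ℝ) :=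
        Finset.sum_le_sum fun f _ => prod_fib_le f
    _ = Real.exp (Fintype.card V) * ∑ f : V → Fin t, ∏ j, ((fib f j).factorial : ℝ) := by
        rw [Finset.mul_sum]
    _ ≤ _ := by
        refine mul_le_mul_of_nonneg_left ?_ (Real.exp_pos _).le
        exact_mod_cast sum_prod_factorial V t

end Pool.Agent.OrdRam
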