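import Mathlib
import Pool.Agent.Lib.MP_5b01b8_co.FiberSum

/-!
# Counting permutations whose edges follow a sparse orientation
-/

namespace Pool.Agent.OrdRam

open Finset

/-- The involution of `Fin m ⊕ Fin m` whose pairs are the edges of the matching given by `π`. -/
def sw {m : ℕ} (π : Equiv.Perm (Fin m)) : Fin m ⊕ Fin m → Fin m ⊕ Fin m :=
  Sum.elim (fun a => Sum.inr (π a)) (fun b => Sum.inl (π.symm b))

theorem sw_sw {m : ℕ} (π : Equiv.Perm (Fin m)) (v : Fin m ⊕ Fin m) : sw π (sw π v) = v := by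
  rcases v with a | b <;> simp [sw]

theorem sw_injective {m : ℕ} (π : Equiv.Perm (Fin m)) : Function.Injective (sw π) := by
  intro x y h
  rw [← sw_sw π x, h, sw_sw]

/-- `w` lies in the block of `u` or in one of the out-blocks of the block of `u`. -/
def Alw {V : Type*} {t k : ℕ} (f : V → Fin t) (o : Fin t → Fin k → Fin t) (u w : V) : Prop :=
  f w = f u ∨ ∃ c, o (f u) c = f w

open Classical in
theorem sum_alw_le {V : Type*} [Fintype V] {t k : ℕ} (f : V → Fin t) (o : Fin t → Fin k → Fin t)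
    (u : V) :
    ∑ w, (if Alw f o u w then (1 : ℝ) / fib f (f w) else 0) ≤ k + 1 := by
  set j : Option (Fin k) → Fin t := fun x => x.elim (f u) (o (f u)) with hj
  have h1 : ∀ w, (if Alw f o u w then (1 : ℝ) / fib f (f w) else 0)
      ≤ ∑ x : Option (Fin k), if f w = j x then (1 : ℝ) / fib f (f w) else 0 := by
    intro w
    have hnn : ∀ x ∈ (Finset.univ : Finset (Option (Fin k))),
        (0 : ℝ) ≤ if f w = j x then (1 : ℝ) / fib f (f w) else 0 := by
      intro x _
      split_ifs <;> positivity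
    split_ifs with hA
    · rcases hA with h | ⟨c, h⟩
      · calc (1 : ℝ) / fib f (f w) = if f w = j none then (1 : ℝ) / fib f (f w) else 0 := by
              rw [if_pos]; simpa [hj] using h
          _ ≤ _ := Finset.single_le_sum hnn (Finset.mem_univ _)
      · calc (1 : ℝ) / fib f (f w)
            = if f w = j (some c) then (1 : ℝ) / fib f (f w) else 0 := by
              rw [if_pos]; simpa [hj] using h.symm
          _ ≤ _ := Finset.single_le_sum hnn (Finset.mem_univ _)
    · exact Finset.sum_nonneg hnn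
  calc ∑ w, (if Alw f o u w then (1 : ℝ) / fib f (f w) else 0)
      ≤ ∑ w, ∑ x : Option (Fin k), (if f w = j x then (1 : ℝ) / fib f (f w) else 0) :=
        Finset.sum_le_sum fun w _ => h1 w
    _ = ∑ x : Option (Fin k), ∑ w, (if f w = j x then (1 : ℝ) / fib f (f w) else 0) :=
        Finset.sum_comm
    _ ≤ ∑ _x : Option (Fin k), (1 : ℝ) := by
        refine Finset.sum_le_sum fun x _ => ?_
        rw [← Finset.sum_filter]
        rw [Finset.sum_congr rfl (g := fun _ => (1 : ℝ) / fib f (j x))]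
        · rw [Finset.sum_const, nsmul_eq_mul]
          change (fib f (j x) : ℝ) * (1 / fib f (j x)) ≤ 1
          rcases Nat.eq_zero_or_pos (fib f (j x)) with h0 | h0
          · rw [h0]; simp
          · rw [mul_one_div_cancel (by exact_mod_cast h0.ne')]
        · intro w hw
          rw [(Finset.mem_filter.mp hw).2]
    _ = k + 1 := by simp

/-- `T` is a set of tails for the matching `π`. -/
def IsTails {m t k : ℕ} (f : Fin m ⊕ Fin m → Fin t) (o : Fin t → Fin k → Fin t)
    (T : Finset (Fin m ⊕ Fin m)) (π : Equiv.Perm (Fin m)) : Prop :=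
  (∀ v, v ∈ T ↔ sw π v ∉ T) ∧ ∀ v ∈ T, Alw f o v (sw π v)

open Classical in
theorem tails_prod {m t k : ℕ} (f : Fin m ⊕ Fin m → Fin t) (o : Fin t → Fin k → Fin t)
    (T : Finset (Fin m ⊕ Fin m)) (π : Equiv.Perm (Fin m)) (h : IsTails f o T π)
    (F : Fin m ⊕ Fin m → ℝ) :
    ∏ v ∈ T, F (sw π v) = ∏ w ∈ Tᶜ, F w := by
  refine Finset.prod_bij (fun v _ => sw π v) ?_ ?_ ?_ ?_
  · intro v hv
    rw [Finset.mem_compl]
    exact (h.1 v).mp hv
  · intro a _ b _ hab
    exact sw_injective π hab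
  · intro w hw
    refine ⟨sw π w, ?_, sw_sw π w⟩
    rw [h.1, sw_sw]
    exact Finset.mem_compl.mp hw
  · intro v _
    rfl

open Classical in
theorem tails_card {m t k : ℕ} (f : Fin m ⊕ Fin m → Fin t) (o : Fin t → Fin k → Fin t)
    (T : Finset (Fin m ⊕ Fin m)) (π : Equiv.Perm (Fin m)) (h : IsTails f o T π) :
    T.card = m ∧ Tᶜ.card = m := by
  have h1 : T.card = Tᶜ.card := by
    refine Finset.card_bij (fun v _ => sw π v) ?_ ?_ ?_
    · intro v hv
      rw [Finset.mem_compl]
      exact (h.1 v).mp hv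
    · intro a _ b _ hab
      exact sw_injective π hab
    · intro w hw
      refine ⟨sw π w, ?_, sw_sw π w⟩
      rw [h.1, sw_sw]
      exact Finset.mem_compl.mp hw
  have h2 : T.card + Tᶜ.card = Fintype.card (Fin m ⊕ Fin m) := Finset.card_add_card_compl T
  rw [Fintype.card_sum, Fintype.card_fin] at h2
  omega

theorem tails_inj {m t k : ℕ} (f : Fin m ⊕ Fin m → Fin t) (o : Fin t → Fin k → Fin t)
    (T : Finset (Fin m ⊕ Fin m)) (π π' : Equiv.Perm (Fin m)) (h : IsTails f o T π)
    (hr : ∀ v ∈ T, sw π v = sw π' v) : π = π' := by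
  ext a
  by_cases ha : (Sum.inl a : Fin m ⊕ Fin m) ∈ T
  · have := hr _ ha
    simp only [sw, Sum.elim_inl, Sum.inr.injEq] at this
    rw [this]
  · have hb : (Sum.inr (π a) : Fin m ⊕ Fin m) ∈ T := by
      by_contra hb
      apply ha
      rw [h.1]
      simpa [sw] using hb
    have h3 := hr _ hb
    simp only [sw, Sum.elim_inr, Equiv.symm_apply_apply, Sum.inl.injEq] at h3
    have h4 : π' a = π a := by
      have h5 := congrArg π' h3
      simpa using h5
    rw [h4]

open Classical in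
theorem card_tails_le {m t k : ℕ} (f : Fin m ⊕ Fin m → Fin t) (o : Fin t → Fin k → Fin t)
    (T : Finset (Fin m ⊕ Fin m)) :
    ((Finset.univ.filter fun π : Equiv.Perm (Fin m) => IsTails f o T π).card : ℝ)
      ≤ ((k : ℝ) + 1) ^ m * ∏ w ∈ Tᶜ, (fib f (f w) : ℝ) := by
  set Q := Finset.univ.filter fun π : Equiv.Perm (Fin m) => IsTails f o T π with hQ
  have hfib : ∀ w, (0 : ℝ) < fib f (f w) := by
    intro w
    have : 0 < fib f (f w) := by
      unfold fib
      exact Finset.card_pos.mpr ⟨w, by simp⟩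
    exact_mod_cast this
  rcases Q.eq_empty_or_nonempty with h0 | ⟨π0, hπ0⟩
  · rw [h0, Finset.card_empty, Nat.cast_zero]
    have : 0 ≤ ∏ w ∈ Tᶜ, (fib f (f w) : ℝ) := Finset.prod_nonneg fun w _ => (hfib w).le
    positivity
  · have hT := tails_card f o T π0 (Finset.mem_filter.mp hπ0).2
    set wt : (Fin m ⊕ Fin m) → (Fin m ⊕ Fin m) → ℝ :=
      fun v w => if Alw f o v w then (1 : ℝ) / fib f (f w) else 0 with hwt
    have hwt0 : ∀ v w, 0 ≤ wt v w := by
      intro v w
      simp only [hwt]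
      split_ifs
      · positivity
      · exact le_rfl
    have h1 : ∑ g : (T → Fin m ⊕ Fin m), ∏ v : T, wt v (g v) ≤ ((k : ℝ) + 1) ^ m := by
      rw [← Fintype.prod_sum (fun (v : T) (w : Fin m ⊕ Fin m) => wt v w)]
      calc ∏ v : T, ∑ w, wt v w ≤ ∏ _v : T, ((k : ℝ) + 1) :=
            Finset.prod_le_prod (fun v _ => Finset.sum_nonneg fun w _ => hwt0 _ _)
              (fun v _ => sum_alw_le f o v)
        _ = ((k : ℝ) + 1) ^ m := by
            rw [Finset.prod_const, Finset.card_univ, Fintype.card_coe, hT.1]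
    have h2 : ∑ π ∈ Q, ∏ v : T, wt v (sw π v)
        ≤ ∑ g : (T → Fin m ⊕ Fin m), ∏ v : T, wt v (g v) := by
      have himg : ∑ π ∈ Q, ∏ v : T, wt v (sw π v)
          = ∑ g ∈ Q.image (fun π => fun v : T => sw π v), ∏ v : T, wt v (g v) := by
        rw [Finset.sum_image]
        intro π hπ π' _ hππ
        apply tails_inj f o T π π' (Finset.mem_filter.mp hπ).2
        intro v hv
        exact congrFun hππ ⟨v, hv⟩
      rw [himg]
      exact Finset.sum_le_sum_of_subset_of_nonneg (Finset.subset_univ _)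
        (fun g _ _ => Finset.prod_nonneg fun v _ => hwt0 _ _)
    have h3 : ∀ π ∈ Q, ∏ v : T, wt v (sw π v) = ∏ w ∈ Tᶜ, ((1 : ℝ) / fib f (f w)) := by
      intro π hπ
      have hπ' := (Finset.mem_filter.mp hπ).2
      rw [← tails_prod f o T π hπ' (fun w => (1 : ℝ) / fib f (f w))]
      rw [← Finset.prod_coe_sort T (fun v => (1 : ℝ) / fib f (f (sw π v)))]
      refine Finset.prod_congr rfl fun v _ => ?_
      simp only [hwt]
      rw [if_pos (hπ'.2 v v.2)]
    rw [Finset.sum_congr rfl h3, Finset.sum_const, nsmul_eq_mul] at h2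
    have h4 : (Q.card : ℝ) * ∏ w ∈ Tᶜ, ((1 : ℝ) / fib f (f w)) ≤ ((k : ℝ) + 1) ^ m := h2.trans h1
    have hprod : 0 < ∏ w ∈ Tᶜ, (fib f (f w) : ℝ) := Finset.prod_pos fun w _ => hfib w
    have h5 : ∏ w ∈ Tᶜ, ((1 : ℝ) / fib f (f w)) = (∏ w ∈ Tᶜ, (fib f (f w) : ℝ))⁻¹ := by
      simp [Finset.prod_inv_distrib]
    rw [h5, ← div_eq_mul_inv, div_le_iff₀ hprod] at h4
    exact h4

/-- The matchings all of whose edges follow the orientation `o` of the blocks of `f`. -/
def Follows {m t k : ℕ} (f : Fin m ⊕ Fin m → Fin t) (o : Fin t → Fin k → Fin t)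
    (π : Equiv.Perm (Fin m)) : Prop :=
  ∀ a, Alw f o (Sum.inl a) (Sum.inr (π a)) ∨ Alw f o (Sum.inr (π a)) (Sum.inl a)

open Classical in
theorem exists_tails {m t k : ℕ} (f : Fin m ⊕ Fin m → Fin t) (o : Fin t → Fin k → Fin t)
    (π : Equiv.Perm (Fin m)) (h : Follows f o π) : ∃ T, IsTails f o T π := by
  refine ⟨Finset.univ.filter fun v => Sum.elim
    (fun a => Alw f o (Sum.inl a) (Sum.inr (π a)))
    (fun b => ¬ Alw f o (Sum.inl (π.symm b)) (Sum.inr b)) v, ?_, ?_⟩
  · rintro (a | b)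
    · simp [sw]
    · simp [sw]
  · rintro (a | b) hv
    · simpa [sw] using hv
    · simp only [Finset.mem_filter, Finset.mem_univ, true_and, Sum.elim_inr] at hv
      rcases h (π.symm b) with h1 | h1
      · rw [Equiv.apply_symm_apply] at h1
        exact absurd h1 hv
      · rw [Equiv.apply_symm_apply] at h1
        simpa [sw] using h1

open Classical in
theorem card_follows_pow_le {m t k d s : ℕ} (hd : 1 ≤ d) (hs : 1 ≤ s) (f : Fin m ⊕ Fin m → Fin t)
    (o : Fin t → Fin k → Fin t) (hfs : ∀ j, fib f j ≤ s) :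
    ((Finset.univ.filter fun π : Equiv.Perm (Fin m) => Follows f o π).card : ℝ) ^ d
      ≤ (4 * ((k : ℝ) + 1)) ^ (d * m) * (s : ℝ) ^ ((d - 1) * m) * ∏ v, (fib f (f v) : ℝ) := by
  set P := Finset.univ.filter fun π : Equiv.Perm (Fin m) => Follows f o π with hP
  set Q : Finset (Fin m ⊕ Fin m) → Finset (Equiv.Perm (Fin m)) :=
    fun T => Finset.univ.filter fun π : Equiv.Perm (Fin m) => IsTails f o T π with hQ
  have hsub : P ⊆ Finset.univ.biUnion Q := by
    intro π hπ
    obtain ⟨T, hT⟩ := exists_tails f o π (Finset.mem_filter.mp hπ).2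
    rw [Finset.mem_biUnion]
    exact ⟨T, Finset.mem_univ _, by simp [hQ, hT]⟩
  obtain ⟨T0, -, hT0⟩ := Finset.exists_max_image (Finset.univ : Finset (Finset (Fin m ⊕ Fin m)))
    (fun T => (Q T).card) ⟨∅, Finset.mem_univ _⟩
  have hcard : P.card ≤ 4 ^ m * (Q T0).card := by
    calc P.card ≤ (Finset.univ.biUnion Q).card := Finset.card_le_card hsub
      _ ≤ ∑ T, (Q T).card := Finset.card_biUnion_le
      _ ≤ ∑ _T : Finset (Fin m ⊕ Fin m), (Q T0).card :=
          Finset.sum_le_sum fun T _ => hT0 T (Finset.mem_univ _)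
      _ = 4 ^ m * (Q T0).card := by
          rw [Finset.sum_const, smul_eq_mul, Finset.card_univ, Fintype.card_finset,
            Fintype.card_sum, Fintype.card_fin, ← two_mul, pow_mul]
          norm_num
  have hfib : ∀ w, (1 : ℝ) ≤ fib f (f w) := by
    intro w
    have : 0 < fib f (f w) := by
      unfold fib
      exact Finset.card_pos.mpr ⟨w, by simp⟩
    exact_mod_cast this
  have hk0 : (0 : ℝ) ≤ 4 * ((k : ℝ) + 1) := by positivity
  have hW0 : (0 : ℝ) ≤ ∏ v, (fib f (f v) : ℝ) := Finset.prod_nonneg fun v _ => by positivity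
  rcases (Q T0).eq_empty_or_nonempty with h0 | ⟨π0, hπ0⟩
  · rw [h0, Finset.card_empty, mul_zero] at hcard
    have : P.card = 0 := Nat.le_zero.mp hcard
    rw [this, Nat.cast_zero, zero_pow (by omega)]
    positivity
  · have hT := tails_card f o T0 π0 (Finset.mem_filter.mp hπ0).2
    have h1 := card_tails_le f o T0
    have hprod : (∏ w ∈ T0ᶜ, (fib f (f w) : ℝ)) ^ d
        ≤ (s : ℝ) ^ ((d - 1) * m) * ∏ v, (fib f (f v) : ℝ) := by
      calc (∏ w ∈ T0ᶜ, (fib f (f w) : ℝ)) ^ d
          = (∏ w ∈ T0ᶜ, (fib f (f w) : ℝ)) ^ (d - 1) * ∏ w ∈ T0ᶜ, (fib f (f w) : ℝ) := by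
            rw [← pow_succ, Nat.sub_add_cancel hd]
        _ ≤ (∏ _w ∈ T0ᶜ, (s : ℝ)) ^ (d - 1) * ∏ w, (fib f (f w) : ℝ) := by
            refine mul_le_mul ?_ ?_ ?_ ?_
            · refine pow_le_pow_left₀ (Finset.prod_nonneg fun w _ => by positivity) ?_ _
              exact Finset.prod_le_prod (fun w _ => by positivity)
                (fun w _ => by exact_mod_cast hfs (f w))
            · rw [← Finset.prod_mul_prod_compl T0 (fun w => (fib f (f w) : ℝ))]
              have hone : (1 : ℝ) ≤ ∏ w ∈ T0, (fib f (f w) : ℝ) :=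
                Finset.one_le_prod fun w _ => hfib w
              have hnn : (0 : ℝ) ≤ ∏ w ∈ T0ᶜ, (fib f (f w) : ℝ) :=
                Finset.prod_nonneg fun w _ => by positivity
              nlinarith
            · exact Finset.prod_nonneg fun w _ => by positivity
            · positivity
        _ = _ := by
            rw [Finset.prod_const, hT.2, ← pow_mul, mul_comm m (d - 1)]
    calc ((P.card : ℕ) : ℝ) ^ d ≤ ((4 : ℝ) ^ m * (Q T0).card) ^ d := by
          refine pow_le_pow_left₀ (by positivity) ?_ _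
          exact_mod_cast hcard
      _ ≤ ((4 : ℝ) ^ m * (((k : ℝ) + 1) ^ m * ∏ w ∈ T0ᶜ, (fib f (f w) : ℝ))) ^ d := by
          refine pow_le_pow_left₀ (by positivity) ?_ _
          exact mul_le_mul_of_nonneg_left h1 (by positivity)
      _ = (4 * ((k : ℝ) + 1)) ^ (d * m) * (∏ w ∈ T0ᶜ, (fib f (f w) : ℝ)) ^ d := by
          rw [← mul_assoc, ← mul_pow, mul_pow _ _ d, ← pow_mul, mul_comm m d]
      _ ≤ (4 * ((k : ℝ) + 1)) ^ (d * m)
            * ((s : ℝ) ^ ((d - 1) * m) * ∏ v, (fib f (f v) : ℝ)) :=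
          mul_le_mul_of_nonneg_left hprod (by positivity)
      _ = _ := by ring

end Pool.Agent.OrdRam
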