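import Mathlib
import Pool.Agent.Lib.MP_5b01b8_co.Orient
import Pool.Agent.Lib.MP_5b01b8_co.PermCount

/-!
# Existence of unions of matchings all of whose block quotients are dense somewhere
-/

namespace Pool.Agent.OrdRam

open Finset

/-- Adjacency in the union of the matchings `pis i`. -/
def matchAdj {m d : ℕ} (pis : Fin d → Equiv.Perm (Fin m)) (u v : Fin m ⊕ Fin m) : Prop :=
  ∃ i, sw (pis i) u = v

theorem matchAdj_symm {m d : ℕ} (pis : Fin d → Equiv.Perm (Fin m)) {u v : Fin m ⊕ Fin m}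
    (h : matchAdj pis u v) : matchAdj pis v u := by
  obtain ⟨i, hi⟩ := h
  exact ⟨i, by rw [← hi, sw_sw]⟩

theorem not_matchAdj_self {m d : ℕ} (pis : Fin d → Equiv.Perm (Fin m)) (u : Fin m ⊕ Fin m) :
    ¬ matchAdj pis u u := by
  rintro ⟨i, hi⟩
  rcases u with a | b <;> simp [sw] at hi

/-- Two blocks of `f` are related if some edge joins them. -/
def quot {V : Type*} {t : ℕ} (Adj : V → V → Prop) (f : V → Fin t) (i j : Fin t) : Prop :=
  ∃ u v, Adj u v ∧ f u = i ∧ f v = j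

/-- Every partition into at most `t` blocks of size at most `s` has a nonempty family `J` of blocks
with at least `D * |J|` adjacent pairs. -/
def Good {V : Type*} [Fintype V] (Adj : V → V → Prop) (t s D : ℕ) : Prop :=
  ∀ f : V → Fin t, (∀ j, fib f j ≤ s) →
    ∃ J : Finset (Fin t), J.Nonempty ∧ D * J.card ≤ (relPairs (quot Adj f) J).card

theorem quot_symm {m d t : ℕ} (pis : Fin d → Equiv.Perm (Fin m)) (f : Fin m ⊕ Fin m → Fin t)
    (i j : Fin t) (h : quot (matchAdj pis) f i j) : quot (matchAdj pis) f j i := by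
  obtain ⟨u, v, huv, hu, hv⟩ := h
  exact ⟨v, u, matchAdj_symm pis huv, hv, hu⟩

theorem exists_follows_of_not_good {m d t s D : ℕ} (pis : Fin d → Equiv.Perm (Fin m))
    (h : ¬ Good (matchAdj pis) t s D) :
    ∃ f : Fin m ⊕ Fin m → Fin t, (∀ j, fib f j ≤ s) ∧
      ∃ o : Fin t → Fin (2 * D) → Fin t, ∀ i, Follows f o (pis i) := by
  unfold Good at h
  push Not at h
  obtain ⟨f, hf, hJ⟩ := h
  obtain ⟨o, ho⟩ := exists_orient (quot (matchAdj pis) f) (fun i j => quot_symm pis f i j) hJ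
  refine ⟨f, hf, o, ?_⟩
  intro i a
  by_cases hne : f (Sum.inl a) = f (Sum.inr (pis i a))
  · left; left; exact hne.symm
  · have hq : quot (matchAdj pis) f (f (Sum.inl a)) (f (Sum.inr (pis i a))) :=
      ⟨Sum.inl a, Sum.inr (pis i a), ⟨i, rfl⟩, rfl, rfl⟩
    rcases ho _ _ hne hq with ⟨c, hc⟩ | ⟨c, hc⟩
    · left; right; exact ⟨c, hc⟩
    · right; right; exact ⟨c, hc⟩

theorem exists_good {m d t s D : ℕ} (hd : 1 ≤ d) (hs : 1 ≤ s)
    (hnum : (((t : ℝ) ^ (2 * D)) ^ t) * ((4 * (((2 * D : ℕ) : ℝ) + 1)) ^ (d * m)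
      * (s : ℝ) ^ ((d - 1) * m) * (Real.exp (2 * m : ℕ) * ((2 * m + t : ℕ) : ℝ) ^ (2 * m)))
        < ((m.factorial : ℕ) : ℝ) ^ d) :
    ∃ pis : Fin d → Equiv.Perm (Fin m), Good (matchAdj pis) t s D := by
  classical
  by_contra hcon
  push Not at hcon
  set P : (Fin m ⊕ Fin m → Fin t) → (Fin t → Fin (2 * D) → Fin t) → Finset (Equiv.Perm (Fin m)) :=
    fun f o => Finset.univ.filter fun π : Equiv.Perm (Fin m) => Follows f o π with hP
  have hcover : (Finset.univ : Finset (Fin d → Equiv.Perm (Fin m))) ⊆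
      (Finset.univ.filter fun f : Fin m ⊕ Fin m → Fin t => ∀ j, fib f j ≤ s).biUnion
        fun f => Finset.univ.biUnion fun o => Fintype.piFinset fun _ : Fin d => P f o := by
    intro pis _
    obtain ⟨f, hf, o, ho⟩ := exists_follows_of_not_good pis (hcon pis)
    rw [Finset.mem_biUnion]
    refine ⟨f, by simp [hf], ?_⟩
    rw [Finset.mem_biUnion]
    refine ⟨o, Finset.mem_univ _, ?_⟩
    rw [Fintype.mem_piFinset]
    intro i
    simp [hP, ho i]
  have hcard : ((m.factorial : ℕ) : ℝ) ^ d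
      ≤ ∑ f ∈ (Finset.univ.filter fun f : Fin m ⊕ Fin m → Fin t => ∀ j, fib f j ≤ s),
          ∑ o : Fin t → Fin (2 * D) → Fin t, ((P f o).card : ℝ) ^ d := by
    have h1 : (Finset.univ : Finset (Fin d → Equiv.Perm (Fin m))).card = m.factorial ^ d := by
      rw [Finset.card_univ, Fintype.card_fun, Fintype.card_perm, Fintype.card_fin,
        Fintype.card_fin]
    have h2 := Finset.card_le_card hcover
    rw [h1] at h2
    have h3 : m.factorial ^ d
        ≤ ∑ f ∈ (Finset.univ.filter fun f : Fin m ⊕ Fin m → Fin t => ∀ j, fib f j ≤ s),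
          ∑ o : Fin t → Fin (2 * D) → Fin t, (P f o).card ^ d := by
      refine h2.trans (Finset.card_biUnion_le.trans (Finset.sum_le_sum fun f _ => ?_))
      refine Finset.card_biUnion_le.trans (Finset.sum_le_sum fun o _ => ?_)
      rw [Fintype.card_piFinset]
      simp
    exact_mod_cast h3
  have hbound : ∀ f ∈ (Finset.univ.filter fun f : Fin m ⊕ Fin m → Fin t => ∀ j, fib f j ≤ s),
      ∀ o : Fin t → Fin (2 * D) → Fin t, ((P f o).card : ℝ) ^ d
        ≤ (4 * (((2 * D : ℕ) : ℝ) + 1)) ^ (d * m) * (s : ℝ) ^ ((d - 1) * m)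
          * ∏ v, (fib f (f v) : ℝ) := by
    intro f hf o
    exact card_follows_pow_le hd hs f o (Finset.mem_filter.mp hf).2
  have hC0 : (0 : ℝ) ≤ (4 * (((2 * D : ℕ) : ℝ) + 1)) ^ (d * m) * (s : ℝ) ^ ((d - 1) * m) := by
    positivity
  have hfinal : ((m.factorial : ℕ) : ℝ) ^ d
      ≤ (((t : ℝ) ^ (2 * D)) ^ t) * ((4 * (((2 * D : ℕ) : ℝ) + 1)) ^ (d * m)
      * (s : ℝ) ^ ((d - 1) * m) * (Real.exp (2 * m : ℕ) * ((2 * m + t : ℕ) : ℝ) ^ (2 * m))) := by
    calc ((m.factorial : ℕ) : ℝ) ^ d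
        ≤ ∑ f ∈ (Finset.univ.filter fun f : Fin m ⊕ Fin m → Fin t => ∀ j, fib f j ≤ s),
          ∑ o : Fin t → Fin (2 * D) → Fin t, ((P f o).card : ℝ) ^ d := hcard
      _ ≤ ∑ f ∈ (Finset.univ.filter fun f : Fin m ⊕ Fin m → Fin t => ∀ j, fib f j ≤ s),
          ∑ _o : Fin t → Fin (2 * D) → Fin t,
          ((4 * (((2 * D : ℕ) : ℝ) + 1)) ^ (d * m) * (s : ℝ) ^ ((d - 1) * m)
          * ∏ v, (fib f (f v) : ℝ)) :=
          Finset.sum_le_sum fun f hf => Finset.sum_le_sum fun o _ => hbound f hf o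
      _ = ∑ f ∈ (Finset.univ.filter fun f : Fin m ⊕ Fin m → Fin t => ∀ j, fib f j ≤ s),
          (((t : ℝ) ^ (2 * D)) ^ t) *
          ((4 * (((2 * D : ℕ) : ℝ) + 1)) ^ (d * m) * (s : ℝ) ^ ((d - 1) * m)
          * ∏ v, (fib f (f v) : ℝ)) := by
          refine Finset.sum_congr rfl fun f _ => ?_
          rw [Finset.sum_const, nsmul_eq_mul, Finset.card_univ, Fintype.card_fun,
            Fintype.card_fun, Fintype.card_fin, Fintype.card_fin]
          push_cast
          ring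
      _ ≤ ∑ f : Fin m ⊕ Fin m → Fin t,
          (((t : ℝ) ^ (2 * D)) ^ t) *
          ((4 * (((2 * D : ℕ) : ℝ) + 1)) ^ (d * m) * (s : ℝ) ^ ((d - 1) * m)
          * ∏ v, (fib f (f v) : ℝ)) := by
          refine Finset.sum_le_sum_of_subset_of_nonneg (Finset.filter_subset _ _) ?_
          intro f _ _
          have : 0 ≤ ∏ v, (fib f (f v) : ℝ) := Finset.prod_nonneg fun v _ => by positivity
          positivity
      _ = (((t : ℝ) ^ (2 * D)) ^ t) *
          ((4 * (((2 * D : ℕ) : ℝ) + 1)) ^ (d * m) * (s : ℝ) ^ ((d - 1) * m)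
          * ∑ f : Fin m ⊕ Fin m → Fin t, ∏ v, (fib f (f v) : ℝ)) := by
          rw [Finset.mul_sum, Finset.mul_sum]
      _ ≤ _ := by
          refine mul_le_mul_of_nonneg_left ?_ (by positivity)
          refine mul_le_mul_of_nonneg_left ?_ hC0
          have h := sum_prod_fib_le (Fin m ⊕ Fin m) t
          have hV : Fintype.card (Fin m ⊕ Fin m) = 2 * m := by
            rw [Fintype.card_sum, Fintype.card_fin]; ring
          rw [hV] at h
          exact h
  exact absurd hfinal (not_le.mpr hnum)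

end Pool.Agent.OrdRam
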