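import Mathlib
import Pool.Agent.Lib.MP_5b01b8_co.Good

/-!
# A random colouring of the blocks has no monochromatic copy of a good graph
-/

namespace Pool.Agent.OrdRam

open Finset

theorem lt_card_iff {n t : ℕ} (h : Fin n → Fin t) (hm : Monotone h) (P : Fin t → Prop)
    (hP : ∀ i j, i ≤ j → P j → P i) (x : Fin n) (S : Finset (Fin n)) (hS : ∀ y, y ∈ S ↔ P (h y)) :
    (x : ℕ) < S.card ↔ P (h x) := by
  constructor
  · intro hx
    by_contra hn
    have hsub : S ⊆ Finset.Iio x := by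
      intro y hy
      rw [hS] at hy
      rw [Finset.mem_Iio]
      by_contra hyx
      exact hn (hP _ _ (hm (not_lt.mp hyx)) hy)
    have h1 := Finset.card_le_card hsub
    rw [Fin.card_Iio] at h1
    omega
  · intro hx
    have hsub : Finset.Iic x ⊆ S := by
      intro y hy
      rw [Finset.mem_Iic] at hy
      rw [hS]
      exact hP _ _ (hm hy) hx
    have h1 := Finset.card_le_card hsub
    rw [Fin.card_Iic] at h1
    omega

/-- The pairs of blocks of `J` that are joined by an edge, when block `i` consists of the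
positions in the interval given by `lr i`. -/
noncomputable def intPairs {V : Type*} (Adj : V → V → Prop) {n t : ℕ} (p : V → Fin n)
    (J : Finset (Fin t)) (lr : J → Fin (n + 1) × Fin (n + 1)) : Finset (Fin t × Fin t) := by
  classical
  exact Finset.univ.filter fun q => q.1 < q.2 ∧ ∃ (h1 : q.1 ∈ J) (h2 : q.2 ∈ J), ∃ u v, Adj u v ∧
    (((lr ⟨q.1, h1⟩).1 : ℕ) ≤ p u ∧ (p u : ℕ) < (lr ⟨q.1, h1⟩).2) ∧
    (((lr ⟨q.2, h2⟩).1 : ℕ) ≤ p v ∧ (p v : ℕ) < (lr ⟨q.2, h2⟩).2)

theorem mem_relPairs' {t : ℕ} (H : Fin t → Fin t → Prop) (J : Finset (Fin t))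
    (q : Fin t × Fin t) :
    q ∈ relPairs H J ↔ (q.1 ∈ J ∧ q.2 ∈ J) ∧ q.1 < q.2 ∧ H q.1 q.2 := by
  classical
  unfold relPairs
  rw [Finset.mem_filter, Finset.mem_product]

theorem mem_intPairs' {V : Type*} (Adj : V → V → Prop) {n t : ℕ} (p : V → Fin n)
    (J : Finset (Fin t)) (lr : J → Fin (n + 1) × Fin (n + 1)) (q : Fin t × Fin t) :
    q ∈ intPairs Adj p J lr ↔ q.1 < q.2 ∧ ∃ (h1 : q.1 ∈ J) (h2 : q.2 ∈ J), ∃ u v, Adj u v ∧
    (((lr ⟨q.1, h1⟩).1 : ℕ) ≤ p u ∧ (p u : ℕ) < (lr ⟨q.1, h1⟩).2) ∧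
    (((lr ⟨q.2, h2⟩).1 : ℕ) ≤ p v ∧ (p v : ℕ) < (lr ⟨q.2, h2⟩).2) := by
  classical
  unfold intPairs
  rw [Finset.mem_filter]
  simp only [Finset.mem_univ, true_and]

theorem exists_lr {V : Type*} (Adj : V → V → Prop) {n t : ℕ} (p : V → Fin n)
    (h : Fin n → Fin t) (hm : Monotone h) (J : Finset (Fin t)) :
    ∃ lr : J → Fin (n + 1) × Fin (n + 1),
      intPairs Adj p J lr = relPairs (quot Adj (h ∘ p)) J := by
  classical
  have hle : ∀ S : Finset (Fin n), S.card < n + 1 := by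
    intro S
    have := Finset.card_le_univ S
    rw [Fintype.card_fin] at this
    omega
  refine ⟨fun i => (⟨(Finset.univ.filter fun y => h y < i).card, hle _⟩,
    ⟨(Finset.univ.filter fun y => h y ≤ i).card, hle _⟩), ?_⟩
  have key : ∀ (i : Fin t) (x : Fin n),
      ((Finset.univ.filter fun y => h y < i).card ≤ (x : ℕ) ∧
        (x : ℕ) < (Finset.univ.filter fun y => h y ≤ i).card) ↔ h x = i := by
    intro i x
    have h1 := lt_card_iff h hm (fun j => j < i) (fun a b hab hb => lt_of_le_of_lt hab hb) x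
      (Finset.univ.filter fun y => h y < i) (fun y => by simp)
    have h2 := lt_card_iff h hm (fun j => j ≤ i) (fun a b hab hb => le_trans hab hb) x
      (Finset.univ.filter fun y => h y ≤ i) (fun y => by simp)
    rw [h2, ← not_lt, h1]
    constructor
    · rintro ⟨ha, hb⟩
      exact le_antisymm hb (not_lt.mp ha)
    · rintro rfl
      exact ⟨lt_irrefl _, le_rfl⟩
  ext ⟨a, b⟩
  rw [mem_intPairs', mem_relPairs']
  constructor
  · rintro ⟨hab, ha, hb, u, v, huv, hu, hv⟩
    refine ⟨⟨ha, hb⟩, hab, u, v, huv, ?_, ?_⟩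
    · exact (key a (p u)).mp hu
    · exact (key b (p v)).mp hv
  · rintro ⟨⟨ha, hb⟩, hab, u, v, huv, hu, hv⟩
    exact ⟨hab, ha, hb, u, v, huv, (key a (p u)).mpr hu, (key b (p v)).mpr hv⟩

open Classical in
theorem card_const_on {T : Type*} [Fintype T] [DecidableEq T] (E : Finset T) (κ : Fin 2) :
    (Finset.univ.filter fun R : T → Fin 2 => ∀ q ∈ E, R q = κ).card * 2 ^ E.card
      = 2 ^ Fintype.card T := by
  have h1 : (Finset.univ.filter fun R : T → Fin 2 => ∀ q ∈ E, R q = κ)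
      = Fintype.piFinset fun q => if q ∈ E then {κ} else Finset.univ := by
    ext R
    simp only [Finset.mem_filter, Finset.mem_univ, true_and, Fintype.mem_piFinset]
    constructor
    · intro h q
      split_ifs with hq
      · simp [h q hq]
      · simp
    · intro h q hq
      have := h q
      rw [if_pos hq] at this
      simpa using this
  rw [h1, Fintype.card_piFinset]
  have h2 : ∀ q : T, (if q ∈ E then ({κ} : Finset (Fin 2)) else Finset.univ).card
      = if q ∈ E then 1 else 2 := by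
    intro q
    split_ifs <;> simp
  simp_rw [h2]
  have h3 : 2 ^ E.card = ∏ q : T, if q ∈ E then 2 else 1 := by
    rw [Finset.prod_ite_mem Finset.univ E (fun _ => 2)]
    simp
  rw [h3, ← Finset.prod_mul_distrib]
  have h4 : ∀ q : T, ((if q ∈ E then 1 else 2) * if q ∈ E then 2 else 1) = 2 := by
    intro q
    split_ifs <;> rfl
  simp_rw [h4]
  rw [Finset.prod_const, Finset.card_univ]

theorem exp_quarter_lt : Real.exp (1 / 4) < 3 / 2 := by
  have h1 : Real.exp (1 / 4) ^ 4 = Real.exp 1 := by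
    rw [← Real.exp_nat_mul]; norm_num
  have h2 := Real.exp_one_lt_d9
  by_contra hn
  push Not at hn
  have h3 : ((3 : ℝ) / 2) ^ 4 ≤ Real.exp (1 / 4) ^ 4 := pow_le_pow_left₀ (by norm_num) hn 4
  rw [h1] at h3
  norm_num at h3
  linarith

theorem exists_colouring {V : Type*} [Fintype V] (Adj : V → V → Prop) {n t s D : ℕ}
    (p : V → Fin n) (hD : 4 * t * (n + 1) ^ 2 ≤ 2 ^ D) (hgood : Good Adj t s D) :
    ∃ R : Fin t × Fin t → Fin 2, ∀ h : Fin n → Fin t, Monotone h →
      (∀ j, fib (h ∘ p) j ≤ s) → ∀ κ : Fin 2,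
      ∃ u v, Adj u v ∧ h (p u) < h (p v) ∧ R (h (p u), h (p v)) ≠ κ := by
  classical
  -- it suffices to avoid all patterns
  suffices hR : ∃ R : Fin t × Fin t → Fin 2, ∀ κ : Fin 2, ∀ J : Finset (Fin t), J.Nonempty →
      ∀ lr : J → Fin (n + 1) × Fin (n + 1), D * J.card ≤ (intPairs Adj p J lr).card →
      ∃ q ∈ intPairs Adj p J lr, R q ≠ κ by
    obtain ⟨R, hR⟩ := hR
    refine ⟨R, fun h hm hf κ => ?_⟩
    obtain ⟨J, hJ, hcard⟩ := hgood (h ∘ p) hf
    obtain ⟨lr, hlr⟩ := exists_lr Adj p h hm J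
    obtain ⟨q, hq, hRq⟩ := hR κ J hJ lr (by rw [hlr]; exact hcard)
    rw [hlr] at hq
    rw [mem_relPairs'] at hq
    obtain ⟨-, hlt, u, v, huv, hu, hv⟩ := hq
    simp only [Function.comp] at hu hv
    refine ⟨u, v, huv, by rw [hu, hv]; exact hlt, ?_⟩
    rw [hu, hv]
    exact hRq
  by_contra hcon
  push Not at hcon
  set M := Fintype.card (Fin t × Fin t) with hM
  set B : Fin 2 → (J : Finset (Fin t)) → (J → Fin (n + 1) × Fin (n + 1)) →
      Finset (Fin t × Fin t → Fin 2) := fun κ J lr =>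
    if D * J.card ≤ (intPairs Adj p J lr).card then
      Finset.univ.filter fun R => ∀ q ∈ intPairs Adj p J lr, R q = κ else ∅ with hB
  have hBcard : ∀ κ J lr, ((B κ J lr).card : ℝ) ≤ (2 : ℝ) ^ M * ((1 / 2) ^ D) ^ J.card := by
    intro κ J lr
    simp only [hB]
    split_ifs with hc
    · have h1 := card_const_on (intPairs Adj p J lr) κ
      have h2 : ((Finset.univ.filter fun R : Fin t × Fin t → Fin 2 =>
          ∀ q ∈ intPairs Adj p J lr, R q = κ).card : ℝ) * 2 ^ (intPairs Adj p J lr).card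
          = 2 ^ M := by
        exact_mod_cast h1
      have h3 : (2 : ℝ) ^ (D * J.card) ≤ 2 ^ (intPairs Adj p J lr).card :=
        pow_le_pow_right₀ (by norm_num) hc
      have h4 : ((1 / 2 : ℝ) ^ D) ^ J.card = 1 / 2 ^ (D * J.card) := by
        rw [← pow_mul, one_div_pow]
      rw [h4, mul_one_div, le_div_iff₀ (by positivity), ← h2]
      exact mul_le_mul_of_nonneg_left h3 (Nat.cast_nonneg _)
    · rw [Finset.card_empty, Nat.cast_zero]
      positivity
  have hcover : (Finset.univ : Finset (Fin t × Fin t → Fin 2)) ⊆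
      (Finset.univ : Finset (Fin 2)).biUnion fun κ =>
        ((Finset.univ : Finset (Finset (Fin t))).erase ∅).biUnion fun J =>
          (Finset.univ : Finset (J → Fin (n + 1) × Fin (n + 1))).biUnion fun lr => B κ J lr := by
    intro R _
    obtain ⟨κ, J, hJ, lr, hc, hq⟩ := hcon R
    simp only [Finset.mem_biUnion, Finset.mem_univ, true_and, Finset.mem_erase, and_true]
    refine ⟨κ, J, hJ.ne_empty, lr, ?_⟩
    simp only [hB]
    rw [if_pos hc, Finset.mem_filter]
    exact ⟨Finset.mem_univ _, hq⟩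
  have hc1 : ((2 : ℝ) ^ M) ≤ ∑ κ : Fin 2, ∑ J ∈ (Finset.univ : Finset (Finset (Fin t))).erase ∅,
      ∑ lr : (J → Fin (n + 1) × Fin (n + 1)), ((B κ J lr).card : ℝ) := by
    have h1 : (Finset.univ : Finset (Fin t × Fin t → Fin 2)).card = 2 ^ M := by
      rw [Finset.card_univ, Fintype.card_fun, Fintype.card_fin]
    have h2 := Finset.card_le_card hcover
    rw [h1] at h2
    have h3 : 2 ^ M ≤ ∑ κ : Fin 2, ∑ J ∈ (Finset.univ : Finset (Finset (Fin t))).erase ∅,
      ∑ lr : (J → Fin (n + 1) × Fin (n + 1)), (B κ J lr).card := by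
      refine h2.trans (Finset.card_biUnion_le.trans (Finset.sum_le_sum fun κ _ => ?_))
      refine Finset.card_biUnion_le.trans (Finset.sum_le_sum fun J _ => ?_)
      exact Finset.card_biUnion_le
    exact_mod_cast h3
  set y : ℝ := ((n : ℝ) + 1) ^ 2 * (1 / 2) ^ D with hy
  have hy0 : 0 ≤ y := by positivity
  have hc2 : ∑ κ : Fin 2, ∑ J ∈ (Finset.univ : Finset (Finset (Fin t))).erase ∅,
      ∑ lr : (J → Fin (n + 1) × Fin (n + 1)), ((B κ J lr).card : ℝ)
      ≤ 2 * 2 ^ M * ((y + 1) ^ t - 1) := by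
    have h1 : ∀ κ : Fin 2, ∑ J ∈ (Finset.univ : Finset (Finset (Fin t))).erase ∅,
        ∑ lr : (J → Fin (n + 1) × Fin (n + 1)), ((B κ J lr).card : ℝ)
        ≤ 2 ^ M * ((y + 1) ^ t - 1) := by
      intro κ
      calc ∑ J ∈ (Finset.univ : Finset (Finset (Fin t))).erase ∅,
            ∑ lr : (J → Fin (n + 1) × Fin (n + 1)), ((B κ J lr).card : ℝ)
          ≤ ∑ J ∈ (Finset.univ : Finset (Finset (Fin t))).erase ∅,
            ∑ _lr : (J → Fin (n + 1) × Fin (n + 1)), (2 : ℝ) ^ M * ((1 / 2) ^ D) ^ J.card :=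
            Finset.sum_le_sum fun J _ => Finset.sum_le_sum fun lr _ => hBcard κ J lr
        _ = ∑ J ∈ (Finset.univ : Finset (Finset (Fin t))).erase ∅, (2 : ℝ) ^ M * y ^ J.card := by
            refine Finset.sum_congr rfl fun J _ => ?_
            rw [Finset.sum_const, nsmul_eq_mul, Finset.card_univ, Fintype.card_fun,
              Fintype.card_prod, Fintype.card_fin, Fintype.card_coe, hy, mul_pow]
            push_cast
            rw [mul_pow (((n : ℝ) + 1) ^ 2) ((1 / 2 : ℝ) ^ D) J.card, ← pow_mul ((n : ℝ) + 1) 2,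
              mul_comm 2 J.card, pow_mul ((n : ℝ) + 1) J.card 2]
            generalize ((n : ℝ) + 1) ^ J.card = A
            generalize ((1 / 2 : ℝ) ^ D) ^ J.card = C
            ring
        _ = (2 : ℝ) ^ M * (∑ J : Finset (Fin t), y ^ J.card - 1) := by
            rw [← Finset.mul_sum]
            congr 1
            rw [← Finset.add_sum_erase Finset.univ (fun J : Finset (Fin t) => y ^ J.card)
              (Finset.mem_univ ∅)]
            simp
        _ = 2 ^ M * ((y + 1) ^ t - 1) := by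
            have h := Fintype.sum_pow_mul_eq_add_pow (Fin t) y 1
            simp only [one_pow, mul_one, Fintype.card_fin] at h
            rw [h]
    calc _ ≤ ∑ _κ : Fin 2, (2 : ℝ) ^ M * ((y + 1) ^ t - 1) := Finset.sum_le_sum fun κ _ => h1 κ
      _ = _ := by
        rw [Finset.sum_const, nsmul_eq_mul, Finset.card_univ, Fintype.card_fin]
        push_cast
        ring
  have hty : (t : ℝ) * y ≤ 1 / 4 := by
    have h1 : (4 : ℝ) * t * ((n : ℝ) + 1) ^ 2 ≤ 2 ^ D := by exact_mod_cast hD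
    rw [hy, one_div_pow]
    rw [show (t : ℝ) * (((n : ℝ) + 1) ^ 2 * (1 / 2 ^ D)) = (4 * t * ((n : ℝ) + 1) ^ 2) / 2 ^ D / 4 by
      field_simp]
    have h2 : (4 * (t : ℝ) * ((n : ℝ) + 1) ^ 2) / 2 ^ D ≤ 1 := by
      rw [div_le_one (by positivity)]; exact h1
    linarith
  have hexp : (y + 1) ^ t < 3 / 2 := by
    calc (y + 1) ^ t ≤ Real.exp y ^ t := pow_le_pow_left₀ (by positivity) (Real.add_one_le_exp y) t
      _ = Real.exp (t * y) := by rw [← Real.exp_nat_mul]
      _ ≤ Real.exp (1 / 4) := Real.exp_le_exp.mpr hty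
      _ < 3 / 2 := exp_quarter_lt
  have h2M : (0 : ℝ) < 2 ^ M := by positivity
  have := hc1.trans hc2
  nlinarith

end Pool.Agent.OrdRam
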