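import Mathlib

/-!
# Choice of the parameters
-/

namespace Pool.Agent.OrdRam

open Filter

theorem pow_self_le_factorial_mul_exp (m : ℕ) :
    (m : ℝ) ^ m ≤ ((m.factorial : ℕ) : ℝ) * Real.exp m := by
  have h := Real.pow_div_factorial_le_exp (m : ℝ) (Nat.cast_nonneg m) m
  rw [div_le_iff₀ (by exact_mod_cast m.factorial_pos)] at h
  linarith

/-- The counting inequality, from bounds on its factors. -/
theorem count_ineq {m d t s D : ℕ} (hm : 1 ≤ m) (htm : t ≤ m)
    (ht : (((t : ℝ) ^ (2 * D)) ^ t) ≤ Real.exp m)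
    (hs : 9 * Real.exp (3 + d) * (4 * (((2 * D : ℕ) : ℝ) + 1)) ^ d * (s : ℝ) ^ (d - 1)
      < (m : ℝ) ^ (d - 2)) (hd : 3 ≤ d) :
    (((t : ℝ) ^ (2 * D)) ^ t) * ((4 * (((2 * D : ℕ) : ℝ) + 1)) ^ (d * m)
      * (s : ℝ) ^ ((d - 1) * m) * (Real.exp (2 * m : ℕ) * ((2 * m + t : ℕ) : ℝ) ^ (2 * m)))
        < ((m.factorial : ℕ) : ℝ) ^ d := by
  have hm0 : (0 : ℝ) < m := by exact_mod_cast hm
  have hQ0 : (0 : ℝ) ≤ 4 * (((2 * D : ℕ) : ℝ) + 1) := by positivity
  generalize 4 * (((2 * D : ℕ) : ℝ) + 1) = Q at hs hQ0 ⊢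
  have h1 : ((2 * m + t : ℕ) : ℝ) ^ (2 * m) ≤ (9 * (m : ℝ) ^ 2) ^ m := by
    have h : ((2 * m + t : ℕ) : ℝ) ≤ 3 * m := by
      have : 2 * m + t ≤ 3 * m := by omega
      exact_mod_cast this
    calc ((2 * m + t : ℕ) : ℝ) ^ (2 * m) ≤ (3 * (m : ℝ)) ^ (2 * m) :=
          pow_le_pow_left₀ (Nat.cast_nonneg _) h _
      _ = (9 * (m : ℝ) ^ 2) ^ m := by rw [pow_mul]; congr 1; ring
  have h2 : Real.exp (2 * m : ℕ) = (Real.exp 2) ^ m := by
    rw [← Real.exp_nat_mul]; congr 1; push_cast; ring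
  have h3 : Real.exp (m : ℝ) = (Real.exp 1) ^ m := by
    rw [← Real.exp_nat_mul]; congr 1; ring
  have h4 : ((m : ℝ) ^ d / Real.exp d) ^ m ≤ ((m.factorial : ℕ) : ℝ) ^ d := by
    have h := pow_self_le_factorial_mul_exp m
    have h' : (m : ℝ) ^ m / Real.exp m ≤ ((m.factorial : ℕ) : ℝ) := by
      rw [div_le_iff₀ (Real.exp_pos _)]; exact h
    calc ((m : ℝ) ^ d / Real.exp d) ^ m = ((m : ℝ) ^ m / Real.exp m) ^ d := by
          rw [div_pow, div_pow, ← pow_mul, ← pow_mul, ← Real.exp_nat_mul, ← Real.exp_nat_mul,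
            mul_comm d m, mul_comm (m : ℝ) (d : ℝ)]
      _ ≤ _ := pow_le_pow_left₀ (by positivity) h' d
  have h5 : (((t : ℝ) ^ (2 * D)) ^ t) * (Q ^ (d * m)
      * (s : ℝ) ^ ((d - 1) * m) * (Real.exp (2 * m : ℕ) * ((2 * m + t : ℕ) : ℝ) ^ (2 * m)))
      ≤ (Real.exp 1 * (Q ^ d * (s : ℝ) ^ (d - 1) * (Real.exp 2 * (9 * (m : ℝ) ^ 2)))) ^ m := by
    rw [mul_pow, mul_pow, mul_pow, mul_pow (Real.exp 2), ← pow_mul Q, ← pow_mul (s : ℝ), ← h3, h2]
    refine mul_le_mul ht ?_ (by positivity) (by positivity)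
    refine mul_le_mul_of_nonneg_left ?_ (by positivity)
    exact mul_le_mul_of_nonneg_left h1 (by positivity)
  refine lt_of_le_of_lt h5 (lt_of_lt_of_le ?_ h4)
  refine pow_lt_pow_left₀ ?_ (by positivity) (by omega)
  rw [lt_div_iff₀ (Real.exp_pos _)]
  have h6 : (m : ℝ) ^ d = (m : ℝ) ^ (d - 2) * (m : ℝ) ^ 2 := by
    rw [← pow_add]; congr 1; omega
  have h7 : Real.exp (3 + d) = Real.exp 1 * Real.exp 2 * Real.exp d := by
    rw [← Real.exp_add, ← Real.exp_add]; congr 1; ring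
  rw [h6]
  rw [h7] at hs
  calc Real.exp 1 * (Q ^ d * (s : ℝ) ^ (d - 1) * (Real.exp 2 * (9 * (m : ℝ) ^ 2))) * Real.exp d
      = (9 * (Real.exp 1 * Real.exp 2 * Real.exp d) * Q ^ d * (s : ℝ) ^ (d - 1)) * (m : ℝ) ^ 2 := by
        ring
    _ < (m : ℝ) ^ (d - 2) * (m : ℝ) ^ 2 := by
        exact mul_lt_mul_of_pos_right hs (by positivity)

theorem le_rpow_half {W L : ℝ} (hW : 0 ≤ W) (h : W ^ 2 ≤ L) : W ≤ L ^ (1 / 2 : ℝ) := by
  calc W = (W ^ 2) ^ (1 / 2 : ℝ) := by
        rw [← Real.rpow_natCast, ← Real.rpow_mul hW]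
        norm_num
    _ ≤ L ^ (1 / 2 : ℝ) := Real.rpow_le_rpow (by positivity) h (by norm_num)

theorem final_ineq {nx l m X A B L4 ts mx : ℝ} (hA0 : 0 < A) (hB0 : 0 < B)
    (hm0 : 0 < m) (hX0 : 0 < X) (h4 : nx ≤ 9 * mx) (h5 : mx = m * X)
    (h6 : m * X / (4 * (A * B)) ≤ ts) (h9 : 36 * (A * B) ≤ L4) (h10 : L4 ≤ l) :
    nx / l ≤ ts := by
  have hAB : 0 < A * B := mul_pos hA0 hB0
  have hmX : 0 < m * X := mul_pos hm0 hX0
  calc nx / l ≤ (9 * mx) / (36 * (A * B)) := by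
        refine div_le_div₀ ?_ h4 ?_ (h9.trans h10)
        · rw [h5]; linarith
        · linarith
    _ = m * X / (4 * (A * B)) := by
        rw [h5, div_eq_div_iff (by positivity) (by positivity)]
        ring
    _ ≤ _ := h6

set_option maxHeartbeats 1000000 in
theorem params (d : ℕ) (hd : 3 ≤ d) : ∀ᶠ m : ℕ in atTop, ∃ t s D : ℕ, 1 ≤ s ∧
    4 * t * ((2 * m + 1) + 1) ^ 2 ≤ 2 ^ D ∧
    (((t : ℝ) ^ (2 * D)) ^ t) * ((4 * (((2 * D : ℕ) : ℝ) + 1)) ^ (d * m)
      * (s : ℝ) ^ ((d - 1) * m) * (Real.exp (2 * m : ℕ) * ((2 * m + t : ℕ) : ℝ) ^ (2 * m)))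
        < ((m.factorial : ℕ) : ℝ) ^ d ∧
    ∀ n : ℕ, (n = 2 * m ∨ n = 2 * m + 1) →
      (n : ℝ) ^ (2 - 1 / ((d : ℝ) - 1)) / Real.log n ^ 4 ≤ (t : ℝ) * s := by
  -- the thresholds
  set e : ℝ := ((d : ℝ) - 2) / ((d : ℝ) - 1) with he
  have hd' : (3 : ℝ) ≤ d := by exact_mod_cast hd
  have he0 : 0 < e := by rw [he]; apply div_pos <;> linarith
  set K : ℝ := max (36 ^ 8) ((9 * Real.exp (3 + d) * 44 ^ d + 1) ^ 2) with hK
  have hL : Tendsto (fun m : ℕ => Real.log (m : ℝ)) atTop atTop :=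
    Real.tendsto_log_atTop.comp tendsto_natCast_atTop_atTop
  have e1 : ∀ᶠ m : ℕ in atTop, K ≤ Real.log m := hL.eventually_ge_atTop K
  have e2 : ∀ᶠ m : ℕ in atTop, 2 * Real.log (m : ℝ) ^ (17 / 8 : ℝ) ≤ (m : ℝ) ^ (1 : ℝ) := by
    have h := (isLittleO_log_rpow_rpow_atTop (s := 1) (17 / 8) (by norm_num)).bound
      (show (0 : ℝ) < 1 / 2 by norm_num)
    have h' := tendsto_natCast_atTop_atTop.eventually h
    filter_upwards [h', e1] with m hm h1
    have hK1 : (1 : ℝ) ≤ K := le_trans (by norm_num) (le_max_left _ _)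
    have hLm : (0 : ℝ) ≤ Real.log m := by linarith
    rw [Real.norm_of_nonneg (Real.rpow_nonneg hLm _),
      Real.norm_of_nonneg (Real.rpow_nonneg (Nat.cast_nonneg m) _)] at hm
    linarith
  have e3 : ∀ᶠ m : ℕ in atTop, 2 * Real.log (m : ℝ) ^ (7 / 4 : ℝ) ≤ (m : ℝ) ^ e := by
    have h := (isLittleO_log_rpow_rpow_atTop (s := e) (7 / 4) he0).bound
      (show (0 : ℝ) < 1 / 2 by norm_num)
    have h' := tendsto_natCast_atTop_atTop.eventually h
    filter_upwards [h', e1] with m hm h1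
    have hK1 : (1 : ℝ) ≤ K := le_trans (by norm_num) (le_max_left _ _)
    have hLm : (0 : ℝ) ≤ Real.log m := by linarith
    rw [Real.norm_of_nonneg (Real.rpow_nonneg hLm _),
      Real.norm_of_nonneg (Real.rpow_nonneg (Nat.cast_nonneg m) _)] at hm
    linarith
  filter_upwards [e1, e2, e3, eventually_ge_atTop 1] with m h1 h2 h3 hm1
  set L : ℝ := Real.log m with hLdef
  have hK36 : (36 : ℝ) ^ 8 ≤ L := le_trans (le_max_left _ _) h1
  have hKd : (9 * Real.exp (3 + d) * 44 ^ d + 1) ^ 2 ≤ L := le_trans (le_max_right _ _) h1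
  have hL1000 : (1000 : ℝ) ≤ L := le_trans (by norm_num) hK36
  have hL0 : 0 < L := by linarith
  have hm0 : (0 : ℝ) < m := by exact_mod_cast hm1
  rw [Real.rpow_one] at h2
  set A : ℝ := L ^ (17 / 8 : ℝ) with hA
  set B : ℝ := L ^ (7 / 4 : ℝ) with hB
  have hA0 : 0 < A := Real.rpow_pos_of_pos hL0 _
  have hB0 : 0 < B := Real.rpow_pos_of_pos hL0 _
  set X : ℝ := (m : ℝ) ^ e with hX
  have hX0 : 0 < X := Real.rpow_pos_of_pos hm0 _
  have hA1 : 1 ≤ A := Real.one_le_rpow (by linarith) (by norm_num)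
  set t : ℕ := ⌊(m : ℝ) / A⌋₊ with ht
  set s : ℕ := ⌊X / B⌋₊ with hs
  set D : ℕ := ⌈(9 / 2 : ℝ) * L⌉₊ with hD
  have ht1 : (t : ℝ) ≤ m / A := Nat.floor_le (by positivity)
  have hs1 : (s : ℝ) ≤ X / B := Nat.floor_le (by positivity)
  have ht2 : (m : ℝ) / A / 2 ≤ t := by
    have h := Nat.lt_floor_add_one ((m : ℝ) / A)
    rw [← ht] at h
    have h' : 2 ≤ (m : ℝ) / A := by rw [le_div_iff₀ hA0]; exact h2
    linarith
  have hs2 : X / B / 2 ≤ s := by
    have h := Nat.lt_floor_add_one (X / B)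
    rw [← hs] at h
    have h' : 2 ≤ X / B := by rw [le_div_iff₀ hB0]; exact h3
    linarith
  have ht3 : (1 : ℝ) ≤ t := by
    have h' : 2 ≤ (m : ℝ) / A := by rw [le_div_iff₀ hA0]; exact h2
    linarith
  have hs3 : (1 : ℝ) ≤ s := by
    have h' : 2 ≤ X / B := by rw [le_div_iff₀ hB0]; exact h3
    linarith
  have hD1 : (9 / 2 : ℝ) * L ≤ D := Nat.le_ceil _
  have hD2 : (D : ℝ) ≤ 5 * L := by
    have h := Nat.ceil_lt_add_one (show 0 ≤ (9 / 2 : ℝ) * L by positivity)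
    rw [← hD] at h
    linarith
  have htm : (t : ℝ) ≤ m := ht1.trans (div_le_self hm0.le hA1)
  have htm' : t ≤ m := by exact_mod_cast htm
  have hmexp : Real.exp L = m := Real.exp_log hm0
  refine ⟨t, s, D, by exact_mod_cast hs3, ?_, ?_, ?_⟩
  · -- the colouring inequality
    have h4 : (64 : ℝ) * (m : ℝ) ^ 3 ≤ 2 ^ D := by
      have h5 : (2 : ℝ) ^ D = Real.exp (D * Real.log 2) := by
        rw [Real.exp_nat_mul, Real.exp_log (by norm_num)]
      have h6 : 3 * L + (105 / 1000) * L ≤ D * Real.log 2 := by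
        have h7 := Real.log_two_gt_d9
        have h8 : (9 / 2 : ℝ) * L * Real.log 2 ≤ D * Real.log 2 :=
          mul_le_mul_of_nonneg_right hD1 (by linarith)
        nlinarith
      have h9 : (64 : ℝ) ≤ Real.exp ((105 / 1000) * L) := by
        have := Real.add_one_le_exp ((105 / 1000) * L)
        linarith
      have h10 : (m : ℝ) ^ 3 = Real.exp (3 * L) := by
        rw [← hmexp, ← Real.exp_nat_mul]
        norm_num
      rw [h5, h10]
      calc 64 * Real.exp (3 * L) ≤ Real.exp ((105 / 1000) * L) * Real.exp (3 * L) :=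
            mul_le_mul_of_nonneg_right h9 (Real.exp_pos _).le
        _ = Real.exp (3 * L + (105 / 1000) * L) := by rw [← Real.exp_add]; congr 1; ring
        _ ≤ _ := Real.exp_le_exp.mpr h6
    have h5 : (4 * t * ((2 * m + 1) + 1) ^ 2 : ℕ) ≤ 64 * m ^ 3 := by
      calc 4 * t * ((2 * m + 1) + 1) ^ 2 ≤ 4 * m * (4 * m) ^ 2 := by
            refine Nat.mul_le_mul (Nat.mul_le_mul_left 4 htm') (Nat.pow_le_pow_left ?_ 2)
            omega
        _ = 64 * m ^ 3 := by ring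
    have h6 : ((4 * t * ((2 * m + 1) + 1) ^ 2 : ℕ) : ℝ) ≤ ((2 ^ D : ℕ) : ℝ) := by
      calc ((4 * t * ((2 * m + 1) + 1) ^ 2 : ℕ) : ℝ) ≤ ((64 * m ^ 3 : ℕ) : ℝ) := by
            exact_mod_cast h5
        _ = 64 * (m : ℝ) ^ 3 := by push_cast; ring
        _ ≤ 2 ^ D := h4
        _ = _ := by push_cast; ring
    exact_mod_cast h6
  · -- the counting inequality
    refine count_ineq hm1 htm' ?_ ?_ hd
    · have h4 : (((t : ℝ) ^ (2 * D)) ^ t) = Real.exp (((2 * D * t : ℕ) : ℝ) * Real.log t) := by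
        rw [← pow_mul, Real.exp_nat_mul, Real.exp_log (by linarith)]
      rw [h4]
      apply Real.exp_le_exp.mpr
      have h5 : Real.log t ≤ L := Real.log_le_log (by linarith) htm
      have h5' : 0 ≤ Real.log t := Real.log_nonneg ht3
      have hA2 : A = L ^ 2 * L ^ (1 / 8 : ℝ) := by
        rw [hA, ← Real.rpow_natCast L 2, ← Real.rpow_add hL0]
        norm_num
      have h6 : (36 : ℝ) ≤ L ^ (1 / 8 : ℝ) := by
        calc (36 : ℝ) = ((36 : ℝ) ^ 8) ^ (1 / 8 : ℝ) := by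
              rw [← Real.rpow_natCast, ← Real.rpow_mul (by norm_num)]
              norm_num
          _ ≤ L ^ (1 / 8 : ℝ) := Real.rpow_le_rpow (by norm_num) hK36 (by norm_num)
      have h7 : 10 * L ^ 2 ≤ A := by
        rw [hA2]
        have : 0 < L ^ 2 := by positivity
        nlinarith
      have h8 : (t : ℝ) * A ≤ m := by
        rw [le_div_iff₀ hA0] at ht1
        exact ht1
      push_cast
      calc (2 : ℝ) * D * t * Real.log t ≤ 2 * (5 * L) * t * L := by
            refine mul_le_mul ?_ h5 h5' (by positivity)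
            refine mul_le_mul_of_nonneg_right ?_ (by positivity)
            linarith
        _ = t * (10 * L ^ 2) := by ring
        _ ≤ t * A := mul_le_mul_of_nonneg_left h7 (by positivity)
        _ ≤ m := h8
    · have h4 : (4 * (((2 * D : ℕ) : ℝ) + 1)) ≤ 44 * L := by
        push_cast
        linarith
      have h5 : (s : ℝ) ^ (d - 1) ≤ (m : ℝ) ^ (d - 2) / B ^ (d - 1) := by
        have h6 : (s : ℝ) ^ (d - 1) ≤ (X / B) ^ (d - 1) :=
          pow_le_pow_left₀ (by positivity) hs1 _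
        have h7 : X ^ (d - 1) = (m : ℝ) ^ (d - 2) := by
          rw [hX, ← Real.rpow_natCast, ← Real.rpow_mul hm0.le, ← Real.rpow_natCast]
          congr 1
          rw [Nat.cast_sub (by omega), Nat.cast_sub (by omega), he]
          push_cast
          have : (d : ℝ) - 1 ≠ 0 := by linarith
          field_simp
        rw [div_pow, h7] at h6
        exact h6
      have h6 : 9 * Real.exp (3 + d) * (44 * L) ^ d < B ^ (d - 1) := by
        have h7 : B ^ (d - 1) = L ^ d * L ^ ((3 * (d : ℝ) - 7) / 4) := by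
          rw [hB, ← Real.rpow_natCast, ← Real.rpow_mul hL0.le, ← Real.rpow_natCast L d,
            ← Real.rpow_add hL0]
          congr 1
          rw [Nat.cast_sub (by omega)]
          push_cast
          ring
        have h8 : L ^ (1 / 2 : ℝ) ≤ L ^ ((3 * (d : ℝ) - 7) / 4) :=
          Real.rpow_le_rpow_of_exponent_le (by linarith) (by linarith)
        have h9 : 9 * Real.exp (3 + d) * 44 ^ d + 1 ≤ L ^ (1 / 2 : ℝ) := by
          exact le_rpow_half (by positivity) hKd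
        rw [h7, mul_pow]
        have hLd : 0 < L ^ d := by positivity
        calc 9 * Real.exp (3 + d) * (44 ^ d * L ^ d)
            = L ^ d * (9 * Real.exp (3 + d) * 44 ^ d) := by ring
          _ < L ^ d * L ^ ((3 * (d : ℝ) - 7) / 4) := by
              refine mul_lt_mul_of_pos_left ?_ hLd
              linarith
      have hm2 : (0 : ℝ) < (m : ℝ) ^ (d - 2) := by positivity
      have hBd : 0 < B ^ (d - 1) := by positivity
      calc 9 * Real.exp (3 + d) * (4 * (((2 * D : ℕ) : ℝ) + 1)) ^ d * (s : ℝ) ^ (d - 1)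
          ≤ 9 * Real.exp (3 + d) * (44 * L) ^ d * ((m : ℝ) ^ (d - 2) / B ^ (d - 1)) := by
            refine mul_le_mul ?_ h5 (by positivity) (by positivity)
            refine mul_le_mul_of_nonneg_left ?_ (by positivity)
            exact pow_le_pow_left₀ (by positivity) h4 d
        _ < B ^ (d - 1) * ((m : ℝ) ^ (d - 2) / B ^ (d - 1)) :=
            mul_lt_mul_of_pos_right h6 (by positivity)
        _ = (m : ℝ) ^ (d - 2) := by field_simp
  · intro n hn
    have hn1 : (n : ℝ) ≤ 3 * m := by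
      have : n ≤ 3 * m := by omega
      exact_mod_cast this
    have hn2 : (m : ℝ) ≤ n := by
      have : m ≤ n := by omega
      exact_mod_cast this
    have hLn : L ≤ Real.log n := Real.log_le_log hm0 hn2
    set x : ℝ := 2 - 1 / ((d : ℝ) - 1) with hx
    have hx2 : x ≤ 2 := by
      rw [hx]
      have : 0 ≤ 1 / ((d : ℝ) - 1) := by apply div_nonneg <;> linarith
      linarith
    have hx0 : 0 ≤ x := by
      rw [hx]
      have : 1 / ((d : ℝ) - 1) ≤ 1 := by
        rw [div_le_one (by linarith)]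
        linarith
      linarith
    have h4 : (n : ℝ) ^ x ≤ 9 * (m : ℝ) ^ x := by
      calc (n : ℝ) ^ x ≤ (3 * (m : ℝ)) ^ x := Real.rpow_le_rpow (Nat.cast_nonneg _) hn1 hx0
        _ = 3 ^ x * (m : ℝ) ^ x := Real.mul_rpow (by norm_num) hm0.le
        _ ≤ 9 * (m : ℝ) ^ x := by
            refine mul_le_mul_of_nonneg_right ?_ (Real.rpow_nonneg hm0.le _)
            calc (3 : ℝ) ^ x ≤ 3 ^ (2 : ℝ) :=
                  Real.rpow_le_rpow_of_exponent_le (by norm_num) hx2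
              _ = 9 := by norm_num
    have h5 : (m : ℝ) ^ x = m * X := by
      rw [hX]
      nth_rewrite 2 [← Real.rpow_one (m : ℝ)]
      rw [← Real.rpow_add hm0]
      congr 1
      rw [hx, he]
      have : (d : ℝ) - 1 ≠ 0 := by linarith
      field_simp
      ring
    have h6 : (m : ℝ) * X / (4 * (A * B)) ≤ (t : ℝ) * s := by
      calc (m : ℝ) * X / (4 * (A * B)) = ((m : ℝ) / A / 2) * (X / B / 2) := by
            field_simp
            ring
        _ ≤ (t : ℝ) * s := mul_le_mul ht2 hs2 (by positivity) (by positivity)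
    have h7 : A * B * L ^ (1 / 8 : ℝ) = L ^ 4 := by
      rw [hA, hB, ← Real.rpow_add hL0, ← Real.rpow_add hL0, ← Real.rpow_natCast]
      norm_num
    have h8 : (36 : ℝ) ≤ L ^ (1 / 8 : ℝ) := by
      calc (36 : ℝ) = ((36 : ℝ) ^ 8) ^ (1 / 8 : ℝ) := by
            rw [← Real.rpow_natCast, ← Real.rpow_mul (by norm_num)]
            norm_num
        _ ≤ L ^ (1 / 8 : ℝ) := Real.rpow_le_rpow (by norm_num) hK36 (by norm_num)
    have h9 : 36 * (A * B) ≤ L ^ 4 := by
      rw [← h7]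
      have hAB := mul_le_mul_of_nonneg_left h8 (mul_pos hA0 hB0).le
      linarith
    have h10 : L ^ 4 ≤ Real.log n ^ 4 := pow_le_pow_left₀ hL0.le hLn 4
    exact final_ineq hA0 hB0 hm0 hX0 h4 h5 h6 h9 h10

end Pool.Agent.OrdRam
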