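import Mathlib
import Pool.Agent.Lib.MP_5b01b8_co.Colour
import Pool.Agent.Lib.MP_5b01b8_co.Params

/-!
# The lower bound
-/

namespace Pool.Agent.OrdRam

open Finset Filter

/-- The union of the matchings, placed on the vertex set `Fin n`. -/
def placed {m d n : ℕ} (pis : Fin d → Equiv.Perm (Fin m)) (e : Fin m ⊕ Fin m ↪ Fin n) :
    SimpleGraph (Fin n) where
  Adj a b := ∃ u v, matchAdj pis u v ∧ e u = a ∧ e v = b
  symm := ⟨by
    rintro a b ⟨u, v, huv, ha, hb⟩
    exact ⟨v, u, matchAdj_symm pis huv, hb, ha⟩⟩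
  loopless := ⟨by
    rintro a ⟨u, v, huv, ha, hb⟩
    have : u = v := e.injective (ha.trans hb.symm)
    subst this
    exact not_matchAdj_self pis u huv⟩

theorem placed_degree {m d n : ℕ} (pis : Fin d → Equiv.Perm (Fin m)) (e : Fin m ⊕ Fin m ↪ Fin n)
    (a : Fin n) : ((placed pis e).neighborSet a).ncard ≤ d := by
  by_cases ha : ∃ u, e u = a
  · obtain ⟨u, rfl⟩ := ha
    have hsub : (placed pis e).neighborSet (e u) ⊆
        Set.range fun i : Fin d => e (sw (pis i) u) := by
      intro b hb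
      obtain ⟨u', v, ⟨i, hi⟩, hu', hv⟩ := hb
      have : u' = u := e.injective hu'
      subst this
      exact ⟨i, by simp only [hi, hv]⟩
    calc ((placed pis e).neighborSet (e u)).ncard
        ≤ (Set.range fun i : Fin d => e (sw (pis i) u)).ncard :=
          Set.ncard_le_ncard hsub (Set.finite_range _)
      _ ≤ d := by
          rw [← Set.image_univ]
          refine (Set.ncard_image_le (Set.finite_univ)).trans ?_
          rw [Set.ncard_univ, Nat.card_eq_fintype_card, Fintype.card_fin]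
  · have : (placed pis e).neighborSet a = ∅ := by
      rw [Set.eq_empty_iff_forall_notMem]
      rintro b ⟨u, v, -, hu, -⟩
      exact ha ⟨u, hu⟩
    rw [this, Set.ncard_empty]
    exact Nat.zero_le _

theorem exists_block_colouring {m d n t s D N : ℕ} (pis : Fin d → Equiv.Perm (Fin m))
    (e : Fin m ⊕ Fin m ↪ Fin n) (hs : 1 ≤ s) (hD : 4 * t * (n + 1) ^ 2 ≤ 2 ^ D)
    (hgood : Good (matchAdj pis) t s D) (hN : N ≤ t * s) (σ : Fin n ≃ Fin n) :
    ∃ c : Fin N → Fin N → Fin 2, ∀ (g : Fin n ↪o Fin N) (b : Fin 2),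
      ¬ ∀ v w : Fin n, (placed pis e).Adj v w → σ v < σ w → c (g (σ v)) (g (σ w)) = b := by
  classical
  obtain ⟨R, hR⟩ := exists_colouring (matchAdj pis) (fun v => σ (e v)) hD hgood
  have hlt : ∀ x : Fin N, (x : ℕ) / s < t := fun x =>
    Nat.div_lt_of_lt_mul (lt_of_lt_of_le x.2 (by rw [mul_comm]; exact hN))
  refine ⟨fun x y => R (⟨x / s, hlt x⟩, ⟨y / s, hlt y⟩), fun g b hall => ?_⟩
  set h : Fin n → Fin t := fun i => ⟨(g i : ℕ) / s, hlt (g i)⟩ with hh
  have hmono : Monotone h := by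
    intro i j hij
    rw [Fin.le_def]
    exact Nat.div_le_div_right (g.monotone hij)
  have hfib : ∀ j, fib (h ∘ fun v => σ (e v)) j ≤ s := by
    intro j
    unfold fib
    have hmaps : ∀ v ∈ (Finset.univ.filter fun v => (h ∘ fun v => σ (e v)) v = j),
        ((g (σ (e v)) : Fin N) : ℕ) % s ∈ Finset.range s := by
      intro v _
      rw [Finset.mem_range]
      exact Nat.mod_lt _ hs
    have hinj : Set.InjOn (fun v => ((g (σ (e v)) : Fin N) : ℕ) % s)
        ((Finset.univ.filter fun v => (h ∘ fun v => σ (e v)) v = j : Finset _) : Set _) := by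
      intro v hv w hw hvw
      rw [Finset.mem_coe, Finset.mem_filter] at hv hw
      have h1 : ((g (σ (e v)) : Fin N) : ℕ) / s = ((g (σ (e w)) : Fin N) : ℕ) / s := by
        have := hv.2.trans hw.2.symm
        simp only [hh, Function.comp, Fin.mk.injEq] at this
        exact this
      have h2 : ((g (σ (e v)) : Fin N) : ℕ) = ((g (σ (e w)) : Fin N) : ℕ) := by
        rw [← Nat.div_add_mod ((g (σ (e v)) : Fin N) : ℕ) s,
          ← Nat.div_add_mod ((g (σ (e w)) : Fin N) : ℕ) s, h1]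
        simp only at hvw
        rw [hvw]
      exact e.injective (σ.injective (g.injective (Fin.ext h2)))
    have := Finset.card_le_card_of_injOn _ hmaps hinj
    rw [Finset.card_range] at this
    convert this
  obtain ⟨u, v, huv, hlt', hne⟩ := hR h hmono hfib b
  apply hne
  refine hall (e u) (e v) ⟨u, v, huv, rfl, rfl⟩ ?_
  by_contra hcon
  exact absurd (hmono (not_lt.mp hcon)) (not_le.mpr hlt')

theorem main_bound (d : ℕ) (hd : 3 ≤ d) : ∃ n₀ : ℕ, ∀ n : ℕ, n₀ ≤ n →
    ∃ G : SimpleGraph (Fin n), (∀ v, (G.neighborSet v).ncard ≤ d) ∧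
      ∀ (σ : Fin n ≃ Fin n) (N : ℕ),
        (N : ℝ) ≤ (n : ℝ) ^ (2 - 1 / ((d : ℝ) - 1)) / Real.log n ^ 4 →
        ∃ c : Fin N → Fin N → Fin 2, ∀ (g : Fin n ↪o Fin N) (b : Fin 2),
          ¬ ∀ v w : Fin n, G.Adj v w → σ v < σ w → c (g (σ v)) (g (σ w)) = b := by
  obtain ⟨m₀, hm₀⟩ := eventually_atTop.mp (params d hd)
  refine ⟨2 * m₀ + 2, fun n hn => ?_⟩
  set m := n / 2 with hm
  have hmm : m₀ ≤ m := by omega
  obtain ⟨t, s, D, hs, hcol, hcount, hN⟩ := hm₀ m hmm
  have hn2 : n = 2 * m ∨ n = 2 * m + 1 := by omega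
  obtain ⟨pis, hgood⟩ := exists_good (m := m) (d := d) (t := t) (s := s) (D := D)
    (by omega) hs hcount
  have hcard : Fintype.card (Fin m ⊕ Fin m) ≤ Fintype.card (Fin n) := by
    rw [Fintype.card_sum, Fintype.card_fin, Fintype.card_fin]
    omega
  obtain ⟨e⟩ := Function.Embedding.nonempty_of_card_le hcard
  refine ⟨placed pis e, placed_degree pis e, fun σ N hNn => ?_⟩
  have hNts : N ≤ t * s := by
    have := hNn.trans (hN n hn2)
    exact_mod_cast this
  have hD : 4 * t * (n + 1) ^ 2 ≤ 2 ^ D := by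
    refine le_trans ?_ hcol
    refine Nat.mul_le_mul_left _ (Nat.pow_le_pow_left ?_ 2)
    omega
  exact exists_block_colouring pis e hs hD hgood hNts σ

end Pool.Agent.OrdRam
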