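import Mathlib
import Pool.Agent.Lib.MP_5b01b8_co.Colour

/-!
# A sparse random relation on the blocks of one level
-/

namespace Pool.Agent.OrdRam

open Finset

/-- The exponential moment of the number of zero labels in `A`. -/
theorem moment {Q : Type*} [Fintype Q] [DecidableEq Q] (A : Finset Q) (M : ℕ) (hM : 0 < M)
    [NeZero M] (z : ℝ) (hz : 0 ≤ z) :
    ∑ R : Q → Fin M, z ^ (A.filter fun q => R q = 0).card
      ≤ (M : ℝ) ^ Fintype.card Q * Real.exp ((z - 1) / M) ^ A.card := by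
  have hM' : (0 : ℝ) < M := by exact_mod_cast hM
  have h1 : ∀ R : Q → Fin M, z ^ (A.filter fun q => R q = 0).card
      = ∏ q, if q ∈ A ∧ R q = 0 then z else 1 := by
    intro R
    rw [Finset.prod_ite, Finset.prod_const, Finset.prod_const_one, mul_one]
    congr 2
    ext q
    simp
  simp_rw [h1]
  have h2 : ∑ R : Q → Fin M, ∏ q, (if q ∈ A ∧ R q = 0 then z else 1)
      = ∏ q : Q, ∑ l : Fin M, if q ∈ A ∧ l = 0 then z else 1 := by
    rw [Finset.prod_univ_sum, Fintype.piFinset_univ]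
  rw [h2]
  have h3 : ∀ q : Q, (∑ l : Fin M, if q ∈ A ∧ l = 0 then z else (1 : ℝ))
      ≤ (M : ℝ) * if q ∈ A then Real.exp ((z - 1) / M) else 1 := by
    intro q
    by_cases hq : q ∈ A
    · simp only [hq, true_and, if_true]
      have h4 : (∑ l : Fin M, if l = 0 then z else (1 : ℝ)) = M + (z - 1) := by
        have h5 : (∑ l : Fin M, if l = 0 then z else (1 : ℝ))
            = ∑ l : Fin M, (1 + if l = 0 then z - 1 else 0) := by
          refine Finset.sum_congr rfl fun l _ => ?_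
          split_ifs <;> ring
        rw [h5, Finset.sum_add_distrib, Finset.sum_ite_eq' Finset.univ (0 : Fin M)]
        simp
      rw [h4]
      have h6 := Real.add_one_le_exp ((z - 1) / M)
      have h7 : (M : ℝ) + (z - 1) = M * ((z - 1) / M + 1) := by field_simp; ring
      rw [h7]
      exact mul_le_mul_of_nonneg_left h6 hM'.le
    · simp [hq]
  calc ∏ q : Q, ∑ l : Fin M, (if q ∈ A ∧ l = 0 then z else (1 : ℝ))
      ≤ ∏ q : Q, ((M : ℝ) * if q ∈ A then Real.exp ((z - 1) / M) else 1) := by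
        refine Finset.prod_le_prod (fun q _ => ?_) fun q _ => h3 q
        refine Finset.sum_nonneg fun l _ => ?_
        split_ifs
        · exact hz
        · exact zero_le_one
    _ = _ := by
        rw [Finset.prod_mul_distrib, Finset.prod_const, Finset.card_univ,
          Finset.prod_ite_mem Finset.univ A (fun _ => Real.exp ((z - 1) / M)),
          Finset.univ_inter, Finset.prod_const]

theorem count_none {Q : Type*} [Fintype Q] [DecidableEq Q] (A : Finset Q) (ρ M j : ℕ)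
    (hρ : 3 ≤ ρ) (hM : M = ρ ^ 4) [NeZero M] (hc : ρ ^ 5 * j ≤ A.card) :
    ((Finset.univ.filter fun R : Q → Fin M => ∀ q ∈ A, R q ≠ 0).card : ℝ)
      ≤ (M : ℝ) ^ Fintype.card Q * Real.exp (-ρ) ^ j := by
  have hρ0 : (0 : ℝ) < ρ := by exact_mod_cast (show 0 < ρ by omega)
  have hMr : (M : ℝ) = (ρ : ℝ) ^ 4 := by rw [hM]; push_cast; ring
  have hM0 : 0 < M := Nat.pos_of_ne_zero (NeZero.ne M)
  have h1 := moment A M hM0 0 le_rfl
  have h2 : ((Finset.univ.filter fun R : Q → Fin M => ∀ q ∈ A, R q ≠ 0).card : ℝ)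
      ≤ ∑ R : Q → Fin M, (0 : ℝ) ^ (A.filter fun q => R q = 0).card := by
    rw [Finset.card_filter]
    push_cast
    refine Finset.sum_le_sum fun R _ => ?_
    split_ifs with hR
    · have : (A.filter fun q => R q = 0) = ∅ := by
        rw [Finset.filter_eq_empty_iff]
        exact fun q hq => hR q hq
      rw [this, Finset.card_empty, pow_zero]
    · exact pow_nonneg le_rfl _
  refine h2.trans (h1.trans ?_)
  refine mul_le_mul_of_nonneg_left ?_ (by positivity)
  rw [← Real.exp_nat_mul, ← Real.exp_nat_mul]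
  apply Real.exp_le_exp.mpr
  have h3 : (ρ : ℝ) ^ 5 * j ≤ A.card := by exact_mod_cast hc
  rw [hMr]
  have h4 : (j : ℝ) * ρ ≤ A.card / (ρ : ℝ) ^ 4 := by
    rw [le_div_iff₀ (by positivity)]
    calc (j : ℝ) * ρ * ρ ^ 4 = ρ ^ 5 * j := by ring
      _ ≤ _ := h3
  have h5 : (A.card : ℝ) * ((0 - 1) / (ρ : ℝ) ^ 4) = -(A.card / (ρ : ℝ) ^ 4) := by ring
  rw [h5]
  linarith

theorem count_many {Q : Type*} [Fintype Q] [DecidableEq Q] (A : Finset Q) (ρ M b j : ℕ)
    (hρ : 3 ≤ ρ) (hM : M = ρ ^ 4) [NeZero M] :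
    ((Finset.univ.filter fun R : Q → Fin M =>
        ρ ^ 3 * b * j + A.card < ρ ^ 3 * (A.filter fun q => R q = 0).card).card : ℝ)
      ≤ (M : ℝ) ^ Fintype.card Q * (1 / (ρ : ℝ) ^ b) ^ j := by
  have hρ0 : (0 : ℝ) < ρ := by exact_mod_cast (show 0 < ρ by omega)
  have hρ3 : (3 : ℝ) ≤ ρ := by exact_mod_cast hρ
  have hMr : (M : ℝ) = (ρ : ℝ) ^ 4 := by rw [hM]; push_cast; ring
  have hM0 : 0 < M := Nat.pos_of_ne_zero (NeZero.ne M)
  have h1 := moment A M hM0 (ρ : ℝ) hρ0.le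
  have h2 : ((Finset.univ.filter fun R : Q → Fin M =>
        ρ ^ 3 * b * j + A.card < ρ ^ 3 * (A.filter fun q => R q = 0).card).card : ℝ)
        * ((ρ : ℝ) ^ (b * j) * Real.exp (A.card / (ρ : ℝ) ^ 3))
        ≤ ∑ R : Q → Fin M, (ρ : ℝ) ^ (A.filter fun q => R q = 0).card := by
    rw [Finset.card_filter]
    push_cast
    rw [Finset.sum_mul]
    refine Finset.sum_le_sum fun R _ => ?_
    split_ifs with hR
    · rw [one_mul]
      generalize (A.filter fun q => R q = 0).card = e at hR ⊢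
      have h3 : (ρ : ℝ) ^ 3 * b * j + A.card ≤ ρ ^ 3 * e := by
        have : ρ ^ 3 * b * j + A.card ≤ ρ ^ 3 * e := hR.le
        exact_mod_cast this
      have h4 : b * j ≤ e := by
        have : ρ ^ 3 * (b * j) ≤ ρ ^ 3 * e := by
          calc ρ ^ 3 * (b * j) = ρ ^ 3 * b * j := by ring
            _ ≤ ρ ^ 3 * b * j + A.card := Nat.le_add_right _ _
            _ ≤ _ := hR.le
        exact Nat.le_of_mul_le_mul_left this (by positivity)
      have h5 : (ρ : ℝ) ^ e = ρ ^ (b * j) * ρ ^ (e - b * j) := by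
        rw [← pow_add]; congr 1; omega
      rw [h5]
      refine mul_le_mul_of_nonneg_left ?_ (by positivity)
      have h6 : Real.exp 1 ≤ ρ := by
        have := Real.exp_one_lt_d9
        linarith
      calc Real.exp (A.card / (ρ : ℝ) ^ 3) ≤ Real.exp ((e - b * j : ℕ) : ℝ) := by
            apply Real.exp_le_exp.mpr
            rw [div_le_iff₀ (by positivity), Nat.cast_sub h4]
            push_cast
            linarith
        _ = Real.exp 1 ^ (e - b * j) := by rw [← Real.exp_nat_mul, mul_one]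
        _ ≤ _ := pow_le_pow_left₀ (Real.exp_pos _).le h6 _
    · rw [zero_mul]
      positivity
  have h7 : Real.exp (((ρ : ℝ) - 1) / M) ^ A.card ≤ Real.exp (A.card / (ρ : ℝ) ^ 3) := by
    rw [← Real.exp_nat_mul]
    apply Real.exp_le_exp.mpr
    rw [hMr, mul_div_assoc', div_le_div_iff₀ (by positivity) (by positivity)]
    have h3 : (0 : ℝ) ≤ (ρ : ℝ) ^ 3 := by positivity
    have h8 : (0 : ℝ) ≤ A.card * (ρ : ℝ) ^ 3 := by positivity
    calc (A.card : ℝ) * ((ρ : ℝ) - 1) * (ρ : ℝ) ^ 3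
        = (A.card : ℝ) * (ρ : ℝ) ^ 4 - (A.card : ℝ) * (ρ : ℝ) ^ 3 := by ring
      _ ≤ (A.card : ℝ) * (ρ : ℝ) ^ 4 := by linarith
  have h8 : ((Finset.univ.filter fun R : Q → Fin M =>
        ρ ^ 3 * b * j + A.card < ρ ^ 3 * (A.filter fun q => R q = 0).card).card : ℝ)
        * ((ρ : ℝ) ^ (b * j) * Real.exp (A.card / (ρ : ℝ) ^ 3))
        ≤ (M : ℝ) ^ Fintype.card Q * Real.exp (A.card / (ρ : ℝ) ^ 3) :=
    h2.trans (h1.trans (mul_le_mul_of_nonneg_left h7 (by positivity)))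
  rw [← mul_assoc] at h8
  have h9 := le_of_mul_le_mul_right h8 (Real.exp_pos _)
  rw [one_div, inv_pow, ← pow_mul, ← div_eq_mul_inv, le_div_iff₀ (by positivity)]
  exact h9

theorem sum_patterns {T n : ℕ} (x : ℝ) :
    ∑ J ∈ (Finset.univ : Finset (Finset (Fin T))).erase ∅,
      ∑ _lr : (J → Fin (n + 1) × Fin (n + 1)), x ^ J.card
      = (((n : ℝ) + 1) ^ 2 * x + 1) ^ T - 1 := by
  calc ∑ J ∈ (Finset.univ : Finset (Finset (Fin T))).erase ∅,
        ∑ _lr : (J → Fin (n + 1) × Fin (n + 1)), x ^ J.card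
      = ∑ J ∈ (Finset.univ : Finset (Finset (Fin T))).erase ∅,
          (((n : ℝ) + 1) ^ 2 * x) ^ J.card := by
        refine Finset.sum_congr rfl fun J _ => ?_
        rw [Finset.sum_const, nsmul_eq_mul, Finset.card_univ, Fintype.card_fun,
          Fintype.card_prod, Fintype.card_fin, Fintype.card_coe]
        push_cast
        rw [mul_pow ((n : ℝ) + 1) ((n : ℝ) + 1) J.card, mul_pow (((n : ℝ) + 1) ^ 2) x J.card,
          ← pow_mul ((n : ℝ) + 1) 2, mul_comm 2 J.card, pow_mul ((n : ℝ) + 1) J.card 2]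
        generalize ((n : ℝ) + 1) ^ J.card = A
        ring
    _ = ∑ J : Finset (Fin T), (((n : ℝ) + 1) ^ 2 * x) ^ J.card - 1 := by
        rw [← Finset.add_sum_erase Finset.univ
          (fun J : Finset (Fin T) => (((n : ℝ) + 1) ^ 2 * x) ^ J.card) (Finset.mem_univ ∅)]
        simp
    _ = (((n : ℝ) + 1) ^ 2 * x + 1) ^ T - 1 := by
        have h := Fintype.sum_pow_mul_eq_add_pow (Fin T) (((n : ℝ) + 1) ^ 2 * x) 1
        simp only [one_pow, mul_one, Fintype.card_fin] at h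
        rw [h]

theorem exists_label {V : Type*} (Adj : V → V → Prop) {n T : ℕ} (p : V → Fin n) (ρ b M : ℕ)
    (hρ : 3 ≤ ρ) (hM : M = ρ ^ 4) [NeZero M]
    (hnum : (T : ℝ) * (((n : ℝ) + 1) ^ 2 * (Real.exp (-ρ) + (1 / (ρ : ℝ) ^ b))) ≤ 1 / 4) :
    ∃ R : Fin T × Fin T → Fin M, ∀ (J : Finset (Fin T)) (lr : J → Fin (n + 1) × Fin (n + 1)),
      J.Nonempty →
      (ρ ^ 5 * J.card ≤ (intPairs Adj p J lr).card → ∃ q ∈ intPairs Adj p J lr, R q = 0) ∧
      ρ ^ 3 * ((intPairs Adj p J lr).filter fun q => R q = 0).card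
        ≤ ρ ^ 3 * b * J.card + (intPairs Adj p J lr).card := by
  have hM0 : 0 < M := Nat.pos_of_ne_zero (NeZero.ne M)
  set Qc := Fintype.card (Fin T × Fin T) with hQc
  by_contra hcon
  push Not at hcon
  set B1 : (J : Finset (Fin T)) → (J → Fin (n + 1) × Fin (n + 1)) →
      Finset (Fin T × Fin T → Fin M) := fun J lr =>
    if ρ ^ 5 * J.card ≤ (intPairs Adj p J lr).card then
      Finset.univ.filter fun R => ∀ q ∈ intPairs Adj p J lr, R q ≠ 0 else ∅ with hB1
  set B2 : (J : Finset (Fin T)) → (J → Fin (n + 1) × Fin (n + 1)) →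
      Finset (Fin T × Fin T → Fin M) := fun J lr =>
      Finset.univ.filter fun R => ρ ^ 3 * b * J.card + (intPairs Adj p J lr).card
        < ρ ^ 3 * ((intPairs Adj p J lr).filter fun q => R q = 0).card with hB2
  have hB1card : ∀ J lr, ((B1 J lr).card : ℝ) ≤ (M : ℝ) ^ Qc * Real.exp (-ρ) ^ J.card := by
    intro J lr
    simp only [hB1]
    split_ifs with hc
    · exact count_none (intPairs Adj p J lr) ρ M J.card hρ hM hc
    · rw [Finset.card_empty, Nat.cast_zero]
      positivity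
  have hB2card : ∀ J lr, ((B2 J lr).card : ℝ) ≤ (M : ℝ) ^ Qc * (1 / (ρ : ℝ) ^ b) ^ J.card :=
    fun J lr => count_many (intPairs Adj p J lr) ρ M b J.card hρ hM
  have hcover : (Finset.univ : Finset (Fin T × Fin T → Fin M)) ⊆
        ((Finset.univ : Finset (Finset (Fin T))).erase ∅).biUnion fun J =>
          (Finset.univ : Finset (J → Fin (n + 1) × Fin (n + 1))).biUnion fun lr =>
            B1 J lr ∪ B2 J lr := by
    intro R _
    obtain ⟨J, lr, hJ, hc⟩ := hcon R
    simp only [Finset.mem_biUnion, Finset.mem_univ, true_and, Finset.mem_erase, and_true,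
      Finset.mem_union]
    refine ⟨J, hJ.ne_empty, lr, ?_⟩
    by_cases h : ρ ^ 5 * J.card ≤ (intPairs Adj p J lr).card →
        ∃ q ∈ intPairs Adj p J lr, R q = 0
    · right
      simp only [hB2]
      rw [Finset.mem_filter]
      exact ⟨Finset.mem_univ _, hc h⟩
    · left
      push Not at h
      simp only [hB1]
      rw [if_pos h.1, Finset.mem_filter]
      exact ⟨Finset.mem_univ _, h.2⟩
  have hc1 : ((M : ℝ) ^ Qc) ≤ ∑ J ∈ (Finset.univ : Finset (Finset (Fin T))).erase ∅,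
      ∑ lr : (J → Fin (n + 1) × Fin (n + 1)), (((B1 J lr).card : ℝ) + ((B2 J lr).card : ℝ)) := by
    have h1 : (Finset.univ : Finset (Fin T × Fin T → Fin M)).card = M ^ Qc := by
      rw [Finset.card_univ, Fintype.card_fun, Fintype.card_fin]
    have h2 := Finset.card_le_card hcover
    rw [h1] at h2
    have h3 : M ^ Qc ≤ ∑ J ∈ (Finset.univ : Finset (Finset (Fin T))).erase ∅,
      ∑ lr : (J → Fin (n + 1) × Fin (n + 1)), ((B1 J lr).card + (B2 J lr).card) := by
      refine h2.trans (Finset.card_biUnion_le.trans (Finset.sum_le_sum fun J _ => ?_))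
      refine Finset.card_biUnion_le.trans (Finset.sum_le_sum fun lr _ => ?_)
      exact Finset.card_union_le _ _
    exact_mod_cast h3
  clear_value B1 B2
  have hx0 : 0 ≤ Real.exp (-ρ) + 1 / (ρ : ℝ) ^ b := by positivity
  generalize hx : Real.exp (-ρ) + 1 / (ρ : ℝ) ^ b = x at hx0 hnum
  have hc2 : ∑ J ∈ (Finset.univ : Finset (Finset (Fin T))).erase ∅,
      ∑ lr : (J → Fin (n + 1) × Fin (n + 1)), (((B1 J lr).card : ℝ) + ((B2 J lr).card : ℝ))
      ≤ (M : ℝ) ^ Qc * ((((n : ℝ) + 1) ^ 2 * x + 1) ^ T - 1) := by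
    rw [← sum_patterns, Finset.mul_sum]
    refine Finset.sum_le_sum fun J hJ => ?_
    rw [Finset.mul_sum]
    refine Finset.sum_le_sum fun lr _ => ?_
    have hJ' : J.card ≠ 0 := by
      rw [Finset.card_ne_zero]
      exact Finset.nonempty_iff_ne_empty.mpr (Finset.ne_of_mem_erase hJ)
    calc ((B1 J lr).card : ℝ) + ((B2 J lr).card : ℝ)
        ≤ (M : ℝ) ^ Qc * Real.exp (-ρ) ^ J.card + (M : ℝ) ^ Qc * (1 / (ρ : ℝ) ^ b) ^ J.card :=
          add_le_add (hB1card J lr) (hB2card J lr)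
      _ = (M : ℝ) ^ Qc * (Real.exp (-ρ) ^ J.card + (1 / (ρ : ℝ) ^ b) ^ J.card) := by ring
      _ ≤ (M : ℝ) ^ Qc * x ^ J.card := by
          refine mul_le_mul_of_nonneg_left ?_ (by positivity)
          rw [← hx]
          exact pow_add_pow_le (by positivity) (by positivity) hJ'
  have hy0 : 0 ≤ ((n : ℝ) + 1) ^ 2 * x := by positivity
  generalize ((n : ℝ) + 1) ^ 2 * x = y at hy0 hnum hc2
  have hexp : (y + 1) ^ T < 3 / 2 := by
    calc (y + 1) ^ T ≤ Real.exp y ^ T := pow_le_pow_left₀ (by positivity) (Real.add_one_le_exp y) T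
      _ = Real.exp (T * y) := by rw [← Real.exp_nat_mul]
      _ ≤ Real.exp (1 / 4) := Real.exp_le_exp.mpr hnum
      _ < 3 / 2 := exp_quarter_lt
  have h2M : (0 : ℝ) < (M : ℝ) ^ Qc := by positivity
  have h3 := hc1.trans hc2
  have h4 : (M : ℝ) ^ Qc * ((y + 1) ^ T - 1) < (M : ℝ) ^ Qc * 1 :=
    mul_lt_mul_of_pos_left (by linarith) h2M
  linarith

open Classical in
theorem exists_level {V : Type*} (Adj : V → V → Prop) {n T : ℕ} (p : V → Fin n) (ρ b : ℕ)
    (hρ : 3 ≤ ρ)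
    (hnum : (T : ℝ) * (((n : ℝ) + 1) ^ 2 * (Real.exp (-ρ) + (1 / (ρ : ℝ) ^ b))) ≤ 1 / 4) :
    ∃ D : Fin T × Fin T → Prop, ∀ (J : Finset (Fin T)) (lr : J → Fin (n + 1) × Fin (n + 1)),
      J.Nonempty →
      (ρ ^ 5 * J.card ≤ (intPairs Adj p J lr).card → ∃ q ∈ intPairs Adj p J lr, D q) ∧
      ρ ^ 3 * ((intPairs Adj p J lr).filter D).card
        ≤ ρ ^ 3 * b * J.card + (intPairs Adj p J lr).card := by
  have hM0 : ρ ^ 4 ≠ 0 := by positivity
  have : NeZero (ρ ^ 4) := ⟨hM0⟩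
  obtain ⟨R, hR⟩ := exists_label Adj p ρ b (ρ ^ 4) hρ rfl hnum
  refine ⟨fun q => R q = 0, fun J lr hJ => ?_⟩
  obtain ⟨h1, h2⟩ := hR J lr hJ
  refine ⟨h1, ?_⟩
  convert h2

end Pool.Agent.OrdRam
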