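import Mathlib

/-!
# Counting permutations mapping given pairs into a sparse relation
-/

namespace Pool.Agent.OrdRam

open Finset

/-- The number of permutations `τ` with `τ (y c) ∈ S (τ (x c))` for all `c ∈ C`. -/
theorem perm_count {V : Type*} [Fintype V] [DecidableEq V] {ι : Type*} (C : Finset ι)
    (x y : ι → V) (hy : Set.InjOn y C) (hxy : ∀ c ∈ C, ∀ c' ∈ C, x c ≠ y c')
    (S : V → Finset V) (s : ℕ) (hS : ∀ v, (S v).card ≤ s)
    (good : Finset (Equiv.Perm V)) (hgood : ∀ τ ∈ good, ∀ c ∈ C, τ (y c) ∈ S (τ (x c))) :
    good.card * C.card.factorial ≤ (Fintype.card V).factorial * s ^ C.card := by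
  classical
  let yE : C ↪ V := ⟨fun c => y c, fun a b hab => Subtype.ext (hy a.2 b.2 hab)⟩
  let ext : Equiv.Perm C → Equiv.Perm V := fun κ => κ.viaEmbedding yE
  have hexty : ∀ (κ : Equiv.Perm C) (c : C), ext κ (y c) = y (κ c) := fun κ c =>
    κ.viaEmbedding_apply yE c
  have hextx : ∀ (κ : Equiv.Perm C) (c : C), ext κ (x c) = x c := fun κ c => by
    refine κ.viaEmbedding_apply_of_notMem yE (x c) ?_
    rintro ⟨c', hc'⟩
    exact hxy c c.2 c' c'.2 hc'.symm
  have h1 : ∑ κ : Equiv.Perm C, (Finset.univ.filter fun τ : Equiv.Perm V => τ * ext κ ∈ good).card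
      = C.card.factorial * good.card := by
    have : ∀ κ : Equiv.Perm C,
        (Finset.univ.filter fun τ : Equiv.Perm V => τ * ext κ ∈ good).card = good.card := by
      intro κ
      refine Finset.card_bij (fun τ _ => τ * ext κ) ?_ ?_ ?_
      · intro τ hτ
        exact (Finset.mem_filter.mp hτ).2
      · intro a _ b _ hab
        exact mul_right_cancel hab
      · intro b hb
        refine ⟨b * (ext κ)⁻¹, ?_, by simp⟩
        rw [Finset.mem_filter]
        refine ⟨Finset.mem_univ _, ?_⟩
        simpa using hb
    rw [Finset.sum_congr rfl fun κ _ => this κ, Finset.sum_const, smul_eq_mul, Finset.card_univ,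
      Fintype.card_perm, Fintype.card_coe]
  have h2 : ∑ κ : Equiv.Perm C, (Finset.univ.filter fun τ : Equiv.Perm V => τ * ext κ ∈ good).card
      = ∑ τ : Equiv.Perm V, (Finset.univ.filter fun κ : Equiv.Perm C => τ * ext κ ∈ good).card := by
    simp only [Finset.card_filter]
    exact Finset.sum_comm
  have h3 : ∀ τ : Equiv.Perm V,
      (Finset.univ.filter fun κ : Equiv.Perm C => τ * ext κ ∈ good).card ≤ s ^ C.card := by
    intro τ
    calc (Finset.univ.filter fun κ : Equiv.Perm C => τ * ext κ ∈ good).card
        ≤ (Fintype.piFinset fun c : C => S (τ (x c))).card := by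
          refine Finset.card_le_card_of_injOn (fun κ c => τ (y (κ c))) ?_ ?_
          · intro κ hκ
            rw [Finset.mem_coe, Fintype.mem_piFinset]
            intro c
            rw [Finset.mem_coe, Finset.mem_filter] at hκ
            have h := hgood _ hκ.2 c c.2
            rw [Equiv.Perm.mul_apply, Equiv.Perm.mul_apply, hexty, hextx] at h
            exact h
          · intro κ _ κ' _ hkk
            ext c
            have h := congrFun hkk c
            have h' := hy (κ c).2 (κ' c).2 (τ.injective h)
            exact h'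
      _ = ∏ c : C, (S (τ (x c))).card := Fintype.card_piFinset _
      _ ≤ ∏ _c : C, s := Finset.prod_le_prod' fun c _ => hS _
      _ = s ^ C.card := by rw [Finset.prod_const, Finset.card_univ, Fintype.card_coe]
  calc good.card * C.card.factorial = C.card.factorial * good.card := mul_comm _ _
    _ = ∑ τ : Equiv.Perm V, (Finset.univ.filter fun κ : Equiv.Perm C => τ * ext κ ∈ good).card := by
        rw [← h1, h2]
    _ ≤ ∑ _τ : Equiv.Perm V, s ^ C.card := Finset.sum_le_sum fun τ _ => h3 τ
    _ = (Fintype.card V).factorial * s ^ C.card := by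
        rw [Finset.sum_const, smul_eq_mul, Finset.card_univ, Fintype.card_perm]

end Pool.Agent.OrdRam
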