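import Mathlib
import Pool.Agent.Lib.MP_5b01b8_co.UCount

/-!
# Unions of random clique factors have edges outside every sparse encodable relation
-/

namespace Pool.Agent.OrdRam

open Finset

/-- Union of the images of the clique factor with cliques `{c} × Fin g`. -/
def cliqueAdj {m g k : ℕ} (τs : Fin k → Equiv.Perm (Fin m × Fin g)) (u v : Fin m × Fin g) : Prop :=
  ∃ (i : Fin k) (c : Fin m) (a a' : Fin g), a ≠ a' ∧ τs i (c, a) = u ∧ τs i (c, a') = v

/-- The relation encoded by the block map `F` and the list `E` of ordered pairs of blocks. -/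
def rel {V : Type*} {M : ℕ} (F : V → V) (E : Fin M → Option (V × V)) (u v : V) : Prop :=
  ∃ i, E i = some (F u, F v)

open Classical in
/-- Every large set `W` contains an edge outside the union of `L` sparse encoded relations. -/
def GoodU {V : Type*} [Fintype V] (Adj : V → V → Prop) (L M Λ s : ℕ) : Prop :=
  ∀ (W : Finset V) (F : Fin L → V → V) (E : Fin L → Fin M → Option (V × V)),
    Fintype.card V ≤ Λ * W.card →
    (∀ l, ∀ u ∈ W, (W.filter fun v => rel (F l) (E l) u v).card ≤ s) →
    ∃ u ∈ W, ∃ v ∈ W, Adj u v ∧ ∀ l, ¬ rel (F l) (E l) u v ∧ ¬ rel (F l) (E l) v u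

open Classical in
/-- The permutations sending no pair in a clique and over `W` outside of `S`. -/
noncomputable def Bad {m g : ℕ} (W : Finset (Fin m × Fin g))
    (S : Fin m × Fin g → Finset (Fin m × Fin g)) : Finset (Equiv.Perm (Fin m × Fin g)) :=
  Finset.univ.filter fun τ => ∀ c a a', a ≠ a' → τ (c, a) ∈ W → τ (c, a') ∈ W →
    τ (c, a') ∈ S (τ (c, a)) ∨ τ (c, a) ∈ S (τ (c, a'))

theorem bad_select {m g μ Λ : ℕ} (hΛ : 0 < Λ) (hg : g = 2 * Λ) (hμ : μ * g ≤ m)
    (W : Finset (Fin m × Fin g)) (hW : m * g ≤ Λ * W.card)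
    (S : Fin m × Fin g → Finset (Fin m × Fin g)) (τ : Equiv.Perm (Fin m × Fin g))
    (hτ : τ ∈ Bad W S) :
    ∃ C : Finset (Fin m), C.card = μ ∧ ∃ α β : Fin m → Fin g, (∀ c ∈ C, α c ≠ β c) ∧
      ∀ c ∈ C, τ (c, α c) ∈ S (τ (c, β c)) := by
  classical
  have hg0 : 0 < g := by omega
  set A : Fin m → Finset (Fin g) := fun c => Finset.univ.filter fun a => τ (c, a) ∈ W with hA
  have hsum : ∑ c, (A c).card = W.card := by
    have h1 : W.card = (Finset.univ.filter fun p : Fin m × Fin g => τ p ∈ W).card := by
      refine (Finset.card_bij (fun p _ => τ p) ?_ ?_ ?_).symm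
      · intro p hp; exact (Finset.mem_filter.mp hp).2
      · intro a _ b _ hab; exact τ.injective hab
      · intro b hb
        exact ⟨τ.symm b, by simp [hb], by simp⟩
    rw [h1, Finset.card_filter, Fintype.sum_prod_type]
    refine Finset.sum_congr rfl fun c _ => ?_
    rw [hA, Finset.card_filter]
  set C' : Finset (Fin m) := Finset.univ.filter fun c => 2 ≤ (A c).card with hC'
  have hup : ∑ c, (A c).card ≤ m + g * C'.card := by
    calc ∑ c, (A c).card ≤ ∑ c : Fin m, (1 + if 2 ≤ (A c).card then g else 0) := by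
          refine Finset.sum_le_sum fun c _ => ?_
          split_ifs with h
          · have := Finset.card_le_univ (A c)
            rw [Fintype.card_fin] at this
            omega
          · omega
      _ = m + g * C'.card := by
          rw [Finset.sum_add_distrib, Finset.sum_const, Finset.card_univ, Fintype.card_fin,
            smul_eq_mul, mul_one, ← Finset.sum_filter, Finset.sum_const, smul_eq_mul, mul_comm g]
  have h2m : 2 * m ≤ W.card := by
    have : Λ * (2 * m) ≤ Λ * W.card := by
      calc Λ * (2 * m) = m * g := by rw [hg]; ring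
        _ ≤ _ := hW
    exact Nat.le_of_mul_le_mul_left this hΛ
  have hC'card : μ ≤ C'.card := by
    have h3 : m ≤ g * C'.card := by omega
    have h4 : g * μ ≤ g * C'.card := by
      calc g * μ = μ * g := mul_comm _ _
        _ ≤ m := hμ
        _ ≤ _ := h3
    exact Nat.le_of_mul_le_mul_left h4 hg0
  obtain ⟨C, hCC', hCcard⟩ := Finset.exists_subset_card_eq hC'card
  have hch : ∀ c ∈ C, ∃ q : Fin g × Fin g, q.1 ≠ q.2 ∧ τ (c, q.1) ∈ S (τ (c, q.2)) := by
    intro c hc
    have h5 : 2 ≤ (A c).card := (Finset.mem_filter.mp (hCC' hc)).2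
    obtain ⟨a, ha, a', ha', hne⟩ := Finset.one_lt_card.mp (show 1 < (A c).card by omega)
    have ha2 : τ (c, a) ∈ W := (Finset.mem_filter.mp ha).2
    have ha2' : τ (c, a') ∈ W := (Finset.mem_filter.mp ha').2
    unfold Bad at hτ
    rcases (Finset.mem_filter.mp hτ).2 c a a' hne ha2 ha2' with h | h
    · exact ⟨(a', a), hne.symm, h⟩
    · exact ⟨(a, a'), hne, h⟩
  have : Nonempty (Fin g × Fin g) := ⟨(⟨0, hg0⟩, ⟨0, hg0⟩)⟩
  choose! q hq using hch
  exact ⟨C, hCcard, fun c => (q c).1, fun c => (q c).2, fun c hc => (hq c hc).1,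
    fun c hc => (hq c hc).2⟩

theorem card_bad {m g μ Λ : ℕ} (hΛ : 0 < Λ) (hg : g = 2 * Λ) (hμ : μ * g ≤ m)
    (W : Finset (Fin m × Fin g)) (hW : m * g ≤ Λ * W.card)
    (S : Fin m × Fin g → Finset (Fin m × Fin g)) (s : ℕ) (hS : ∀ v, (S v).card ≤ s) :
    (Bad W S).card * μ.factorial ≤ 2 ^ m * (g ^ m * g ^ m) * ((m * g).factorial * s ^ μ) := by
  classical
  set T : Finset (Fin m) → (Fin m → Fin g) → (Fin m → Fin g) →
      Finset (Equiv.Perm (Fin m × Fin g)) := fun C α β =>
    Finset.univ.filter fun τ => (∀ c ∈ C, α c ≠ β c) ∧ ∀ c ∈ C, τ (c, α c) ∈ S (τ (c, β c)) with hT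
  have hcover : Bad W S ⊆ (Finset.powersetCard μ (Finset.univ : Finset (Fin m))).biUnion fun C =>
      (Finset.univ : Finset (Fin m → Fin g)).biUnion fun α =>
        (Finset.univ : Finset (Fin m → Fin g)).biUnion fun β => T C α β := by
    intro τ hτ
    obtain ⟨C, hC, α, β, h1, h2⟩ := bad_select hΛ hg hμ W hW S τ hτ
    simp only [Finset.mem_biUnion, Finset.mem_univ, true_and, Finset.mem_powersetCard]
    refine ⟨C, ⟨Finset.subset_univ _, hC⟩, α, β, ?_⟩
    rw [hT, Finset.mem_filter]
    exact ⟨Finset.mem_univ _, h1, h2⟩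
  have hTcard : ∀ C ∈ Finset.powersetCard μ (Finset.univ : Finset (Fin m)), ∀ α β,
      (T C α β).card * μ.factorial ≤ (m * g).factorial * s ^ μ := by
    intro C hC α β
    rw [Finset.mem_powersetCard] at hC
    by_cases hne : ∀ c ∈ C, α c ≠ β c
    · have h := perm_count C (fun c => (c, β c)) (fun c => (c, α c))
        (fun a _ b _ hab => (Prod.mk.inj hab).1)
        (fun c hc c' hc' hcc => hne c hc (by
          obtain ⟨h1, h2⟩ := Prod.mk.inj hcc
          subst h1
          exact h2.symm)) S s hS (T C α β) (fun τ hτ => by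
            rw [hT, Finset.mem_filter] at hτ
            exact hτ.2.2)
      rw [hC.2, Fintype.card_prod, Fintype.card_fin, Fintype.card_fin] at h
      exact h
    · have : T C α β = ∅ := by
        rw [Finset.eq_empty_iff_forall_notMem]
        intro τ hτ
        rw [hT, Finset.mem_filter] at hτ
        exact hne hτ.2.1
      rw [this, Finset.card_empty, zero_mul]
      exact Nat.zero_le _
  calc (Bad W S).card * μ.factorial
      ≤ (∑ C ∈ Finset.powersetCard μ (Finset.univ : Finset (Fin m)), ∑ α : Fin m → Fin g,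
          ∑ β : Fin m → Fin g, (T C α β).card) * μ.factorial := by
        refine Nat.mul_le_mul_right _ ?_
        refine (Finset.card_le_card hcover).trans (Finset.card_biUnion_le.trans
          (Finset.sum_le_sum fun C _ => ?_))
        refine Finset.card_biUnion_le.trans (Finset.sum_le_sum fun α _ => ?_)
        exact Finset.card_biUnion_le
    _ = ∑ C ∈ Finset.powersetCard μ (Finset.univ : Finset (Fin m)), ∑ α : Fin m → Fin g,
          ∑ β : Fin m → Fin g, (T C α β).card * μ.factorial := by
        simp only [Finset.sum_mul]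
    _ ≤ ∑ _C ∈ Finset.powersetCard μ (Finset.univ : Finset (Fin m)), ∑ _α : Fin m → Fin g,
          ∑ _β : Fin m → Fin g, (m * g).factorial * s ^ μ :=
        Finset.sum_le_sum fun C hC => Finset.sum_le_sum fun α _ => Finset.sum_le_sum fun β _ =>
          hTcard C hC α β
    _ = (Finset.powersetCard μ (Finset.univ : Finset (Fin m))).card
          * (g ^ m * (g ^ m * ((m * g).factorial * s ^ μ))) := by
        simp only [Finset.sum_const, smul_eq_mul, Finset.card_univ, Fintype.card_fun,
          Fintype.card_fin]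
    _ ≤ 2 ^ m * (g ^ m * (g ^ m * ((m * g).factorial * s ^ μ))) := by
        refine Nat.mul_le_mul_right _ ?_
        rw [Finset.card_powersetCard, Finset.card_univ, Fintype.card_fin]
        exact Nat.choose_le_two_pow _ _
    _ = _ := by ring

theorem exists_goodU {m g μ Λ L M s k : ℕ} (hΛ : 0 < Λ) (hg : g = 2 * Λ) (hμ : μ * g ≤ m)
    (hnum : 2 ^ (m * g) * (((m * g) ^ (m * g)) ^ L * (((m * g) ^ 2 + 1) ^ M) ^ L) *
      (2 ^ m * (g ^ m * g ^ m) * ((m * g).factorial * (L * s) ^ μ)) ^ k
        < ((m * g).factorial) ^ k * (μ.factorial) ^ k) :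
    ∃ τs : Fin k → Equiv.Perm (Fin m × Fin g), GoodU (cliqueAdj τs) L M Λ s := by
  classical
  by_contra hcon
  push Not at hcon
  set S : Finset (Fin m × Fin g) → (Fin L → Fin m × Fin g → Fin m × Fin g) →
      (Fin L → Fin M → Option ((Fin m × Fin g) × (Fin m × Fin g))) → Fin m × Fin g →
      Finset (Fin m × Fin g) := fun W F E u =>
    if u ∈ W then W.filter fun v => ∃ l, rel (F l) (E l) u v else ∅ with hS
  set valid : Finset (Fin m × Fin g) → (Fin L → Fin m × Fin g → Fin m × Fin g) →
      (Fin L → Fin M → Option ((Fin m × Fin g) × (Fin m × Fin g))) → Prop := fun W F E =>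
    m * g ≤ Λ * W.card ∧ (∀ l, ∀ u ∈ W, (W.filter fun v => rel (F l) (E l) u v).card ≤ s)
      with hvalid
  have hScard : ∀ W F E, valid W F E → ∀ u, (S W F E u).card ≤ L * s := by
    intro W F E hv u
    simp only [hS]
    split_ifs with hu
    · calc (W.filter fun v => ∃ l, rel (F l) (E l) u v).card
          ≤ ((Finset.univ : Finset (Fin L)).biUnion fun l =>
              W.filter fun v => rel (F l) (E l) u v).card := by
            refine Finset.card_le_card ?_
            intro v hv'
            rw [Finset.mem_filter] at hv'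
            obtain ⟨hvW, l, hl⟩ := hv'
            rw [Finset.mem_biUnion]
            exact ⟨l, Finset.mem_univ _, Finset.mem_filter.mpr ⟨hvW, hl⟩⟩
        _ ≤ ∑ l : Fin L, (W.filter fun v => rel (F l) (E l) u v).card := Finset.card_biUnion_le
        _ ≤ ∑ _l : Fin L, s := Finset.sum_le_sum fun l _ => hv.2 l u hu
        _ = L * s := by rw [Finset.sum_const, Finset.card_univ, Fintype.card_fin, smul_eq_mul]
    · rw [Finset.card_empty]
      exact Nat.zero_le _
  have hcover : (Finset.univ : Finset (Fin k → Equiv.Perm (Fin m × Fin g))) ⊆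
      (Finset.univ : Finset (Finset (Fin m × Fin g))).biUnion fun W =>
        (Finset.univ : Finset (Fin L → Fin m × Fin g → Fin m × Fin g)).biUnion fun F =>
          (Finset.univ.filter fun E => valid W F E).biUnion fun E =>
            Fintype.piFinset fun _ : Fin k => Bad W (S W F E) := by
    intro τs _
    have hbad := hcon τs
    unfold GoodU at hbad
    push Not at hbad
    obtain ⟨W, F, E, hW, hE, hall⟩ := hbad
    rw [Fintype.card_prod, Fintype.card_fin, Fintype.card_fin] at hW
    simp only [Finset.mem_biUnion, Finset.mem_univ, true_and]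
    refine ⟨W, F, E, ?_, ?_⟩
    · rw [Finset.mem_filter]
      refine ⟨Finset.mem_univ _, hW, ?_⟩
      intro l u hu
      have := hE l u hu
      convert this
    · rw [Fintype.mem_piFinset]
      intro i
      unfold Bad
      rw [Finset.mem_filter]
      refine ⟨Finset.mem_univ _, ?_⟩
      intro c a a' hne ha ha'
      obtain ⟨l, hl⟩ := hall _ ha _ ha' ⟨i, c, a, a', hne, rfl, rfl⟩
      simp only [hS, if_pos ha, if_pos ha', Finset.mem_filter]
      by_cases hr : rel (F l) (E l) (τs i (c, a)) (τs i (c, a'))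
      · exact Or.inl ⟨ha', l, hr⟩
      · exact Or.inr ⟨ha, l, hl hr⟩
  set Z : ℕ := 2 ^ m * (g ^ m * g ^ m) * ((m * g).factorial * (L * s) ^ μ) with hZ
  have hfin : ((m * g).factorial) ^ k * (μ.factorial) ^ k
      ≤ 2 ^ (m * g) * (((m * g) ^ (m * g)) ^ L * (((m * g) ^ 2 + 1) ^ M) ^ L) * Z ^ k := by
    have h1 : (Finset.univ : Finset (Fin k → Equiv.Perm (Fin m × Fin g))).card
        = ((m * g).factorial) ^ k := by
      rw [Finset.card_univ, Fintype.card_fun, Fintype.card_perm, Fintype.card_prod,
        Fintype.card_fin, Fintype.card_fin, Fintype.card_fin]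
    rw [← h1]
    calc (Finset.univ : Finset (Fin k → Equiv.Perm (Fin m × Fin g))).card * (μ.factorial) ^ k
        ≤ (∑ W : Finset (Fin m × Fin g), ∑ F : Fin L → Fin m × Fin g → Fin m × Fin g,
            ∑ E ∈ (Finset.univ.filter fun E => valid W F E), (Bad W (S W F E)).card ^ k)
              * (μ.factorial) ^ k := by
          refine Nat.mul_le_mul_right _ ?_
          refine (Finset.card_le_card hcover).trans (Finset.card_biUnion_le.trans
            (Finset.sum_le_sum fun W _ => ?_))
          refine Finset.card_biUnion_le.trans (Finset.sum_le_sum fun F _ => ?_)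
          refine Finset.card_biUnion_le.trans (Finset.sum_le_sum fun E _ => ?_)
          rw [Fintype.card_piFinset, Finset.prod_const, Finset.card_univ, Fintype.card_fin]
      _ = ∑ W : Finset (Fin m × Fin g), ∑ F : Fin L → Fin m × Fin g → Fin m × Fin g,
            ∑ E ∈ (Finset.univ.filter fun E => valid W F E),
              ((Bad W (S W F E)).card * μ.factorial) ^ k := by
          simp only [Finset.sum_mul, mul_pow]
      _ ≤ ∑ W : Finset (Fin m × Fin g), ∑ F : Fin L → Fin m × Fin g → Fin m × Fin g,
            ∑ E ∈ (Finset.univ.filter fun E => valid W F E), Z ^ k := by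
          refine Finset.sum_le_sum fun W _ => Finset.sum_le_sum fun F _ =>
            Finset.sum_le_sum fun E hE => ?_
          have hv := (Finset.mem_filter.mp hE).2
          exact Nat.pow_le_pow_left
            (card_bad hΛ hg hμ W hv.1 (S W F E) (L * s) (hScard W F E hv)) k
      _ ≤ ∑ W : Finset (Fin m × Fin g), ∑ F : Fin L → Fin m × Fin g → Fin m × Fin g,
            ∑ E : (Fin L → Fin M → Option ((Fin m × Fin g) × (Fin m × Fin g))), Z ^ k := by
          refine Finset.sum_le_sum fun W _ => Finset.sum_le_sum fun F _ => ?_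
          exact Finset.sum_le_sum_of_subset (Finset.filter_subset _ _)
      _ = _ := by
          simp only [Finset.sum_const, smul_eq_mul, Finset.card_univ, Fintype.card_fun,
            Fintype.card_fin, Fintype.card_finset, Fintype.card_prod, Fintype.card_option]
          rw [← sq (m * g)]
          ring
  exact absurd hfin (not_le.mpr hnum)

end Pool.Agent.OrdRam
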