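import Mathlib
import Pool.Agent.Lib.MP_5b01b8_co.UGood
import Pool.Agent.Lib.MP_5b01b8_co.Colour

/-!
# Encoding and colouring sparse relations on blocks
-/

namespace Pool.Agent.OrdRam

open Finset

/-- The symmetric relation on `Js` generated by the values `H i j` with `i < j`. -/
def symRestr {T : ℕ} (H : Fin T → Fin T → Prop) (Js : Finset (Fin T)) (i j : Fin T) : Prop :=
  i ∈ Js ∧ j ∈ Js ∧ ((i < j ∧ H i j) ∨ (j < i ∧ H j i))

theorem symRestr_symm {T : ℕ} (H : Fin T → Fin T → Prop) (Js : Finset (Fin T)) (i j : Fin T)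
    (h : symRestr H Js i j) : symRestr H Js j i :=
  ⟨h.2.1, h.1, h.2.2.symm⟩

theorem symRestr_of {T : ℕ} {H : Fin T → Fin T → Prop} {Js : Finset (Fin T)} {i j : Fin T}
    (hi : i ∈ Js) (hj : j ∈ Js) (hij : i < j) (h : H i j) : symRestr H Js i j :=
  ⟨hi, hj, Or.inl ⟨hij, h⟩⟩

theorem symRestr_deg {T D : ℕ} (hD : 0 < D) (H : Fin T → Fin T → Prop) (Js : Finset (Fin T))
    (hdeg : ∀ J ⊆ Js, J.Nonempty → (relPairs H J).card < D * J.card)
    (J : Finset (Fin T)) (hJ : J.Nonempty) : (relPairs (symRestr H Js) J).card < D * J.card := by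
  have hsub : relPairs (symRestr H Js) J ⊆ relPairs H (J ∩ Js) := by
    intro q hq
    rw [mem_relPairs'] at hq ⊢
    obtain ⟨⟨h1, h2⟩, hlt, h3, h4, h5⟩ := hq
    refine ⟨⟨Finset.mem_inter.mpr ⟨h1, h3⟩, Finset.mem_inter.mpr ⟨h2, h4⟩⟩, hlt, ?_⟩
    rcases h5 with h | h
    · exact h.2
    · exact absurd h.1 (not_lt.mpr hlt.le)
  have h1 := Finset.card_le_card hsub
  rcases (J ∩ Js).eq_empty_or_nonempty with he | hne
  · rw [he] at h1
    have : relPairs H ∅ = ∅ := by
      rw [Finset.eq_empty_iff_forall_notMem]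
      intro q hq
      rw [mem_relPairs'] at hq
      exact absurd hq.1.1 (Finset.notMem_empty _)
    rw [this, Finset.card_empty] at h1
    have : 0 < D * J.card := Nat.mul_pos hD hJ.card_pos
    omega
  · have h2 := hdeg (J ∩ Js) Finset.inter_subset_right hne
    have h3 : D * (J ∩ Js).card ≤ D * J.card :=
      Nat.mul_le_mul_left _ (Finset.card_le_card Finset.inter_subset_left)
    omega

theorem exists_orient_on {T D : ℕ} (hD : 0 < D) (H : Fin T → Fin T → Prop) (Js : Finset (Fin T))
    (hdeg : ∀ J ⊆ Js, J.Nonempty → (relPairs H J).card < D * J.card) :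
    ∃ o : Fin T → Fin (2 * D) → Fin T, ∀ i ∈ Js, ∀ j ∈ Js, i < j → H i j →
      (∃ c, o i c = j) ∨ (∃ c, o j c = i) := by
  obtain ⟨o, ho⟩ := exists_orient (symRestr H Js) (symRestr_symm H Js) (symRestr_deg hD H Js hdeg)
  exact ⟨o, fun i hi j hj hij hH => ho i j hij.ne (symRestr_of hi hj hij hH)⟩

open Classical in
theorem exists_colour_aux {T D : ℕ} (hD : 0 < D) (H : Fin T → Fin T → Prop)
    (hsymm : ∀ i j, H i j → H j i)
    (hJ : ∀ J : Finset (Fin T), J.Nonempty → (relPairs H J).card < D * J.card)
    (J : Finset (Fin T)) :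
    ∃ col : Fin T → Fin (2 * D), ∀ i ∈ J, ∀ j ∈ J, i ≠ j → H i j → col i ≠ col j := by
  induction J using Finset.strongInduction with
  | H J ih =>
    rcases J.eq_empty_or_nonempty with rfl | hne
    · exact ⟨fun _ => ⟨0, by omega⟩, by simp⟩
    · obtain ⟨i, hi, hdeg⟩ := exists_small_degree H hsymm J (hJ J hne)
      obtain ⟨col, hcol⟩ := ih (J.erase i) (Finset.erase_ssubset hi)
      have hfree : ∃ x : Fin (2 * D), x ∉ (J.filter fun j => j ≠ i ∧ H i j).image col := by
        by_contra hcon
        push Not at hcon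
        have h1 : (Finset.univ : Finset (Fin (2 * D))) ⊆
            (J.filter fun j => j ≠ i ∧ H i j).image col := fun x _ => hcon x
        have h2 := (Finset.card_le_card h1).trans Finset.card_image_le
        rw [Finset.card_univ, Fintype.card_fin] at h2
        omega
      obtain ⟨x, hx⟩ := hfree
      refine ⟨Function.update col i x, ?_⟩
      intro a ha b hb hab hH
      by_cases hai : a = i
      · subst hai
        rw [Function.update_self, Function.update_of_ne hab.symm]
        intro h
        exact hx (Finset.mem_image.mpr ⟨b, by simp [hb, hab.symm, hH], h.symm⟩)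
      · by_cases hbi : b = i
        · subst hbi
          rw [Function.update_self, Function.update_of_ne hai]
          intro h
          exact hx (Finset.mem_image.mpr ⟨a, by simp [ha, hai, hsymm _ _ hH], h⟩)
        · rw [Function.update_of_ne hai, Function.update_of_ne hbi]
          exact hcol a (by simp [ha, hai]) b (by simp [hb, hbi]) hab hH

theorem exists_colour_on {T D : ℕ} (hD : 0 < D) (H : Fin T → Fin T → Prop) (Js : Finset (Fin T))
    (hdeg : ∀ J ⊆ Js, J.Nonempty → (relPairs H J).card < D * J.card) :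
    ∃ col : Fin T → Fin (2 * D), ∀ i ∈ Js, ∀ j ∈ Js, i < j → H i j → col i ≠ col j := by
  obtain ⟨col, hcol⟩ := exists_colour_aux hD (symRestr H Js) (symRestr_symm H Js)
    (symRestr_deg hD H Js hdeg) Finset.univ
  exact ⟨col, fun i hi j hj hij hH => hcol i (Finset.mem_univ _) j (Finset.mem_univ _) hij.ne
    (symRestr_of hi hj hij hH)⟩

theorem exists_list_code {X : Type*} [DecidableEq X] (Q : Finset X) (M : ℕ) (h : Q.card ≤ M) :
    ∃ E : Fin M → Option X, ∀ x, (∃ i, E i = some x) ↔ x ∈ Q := by
  refine ⟨fun i => Q.toList[(i : ℕ)]?, fun x => ?_⟩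
  constructor
  · rintro ⟨i, hi⟩
    simp only at hi
    have := List.mem_of_getElem? hi
    exact Finset.mem_toList.mp this
  · intro hx
    obtain ⟨c, hc, hcx⟩ := List.getElem_of_mem (Finset.mem_toList.mpr hx)
    have hlen : Q.toList.length = Q.card := Finset.length_toList Q
    refine ⟨⟨c, by omega⟩, ?_⟩
    simp only
    rw [List.getElem?_eq_getElem hc, hcx]

open Classical in
theorem exists_code {V : Type*} [Fintype V] {T : ℕ} (f : V → Fin T) (W : Finset V)
    (H : Fin T → Fin T → Prop) (Dg a s M : ℕ) (hD : 0 < Dg)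
    (hdeg : ∀ J ⊆ W.image f, J.Nonempty → (relPairs H J).card < Dg * J.card)
    (hM : (relPairs H (W.image f)).card + (W.image f).card ≤ M)
    (ha : ∀ v ∈ W, fib f (f v) ≤ a) (hs : (2 * Dg + 1) * a ≤ s) :
    ∃ (F : V → V) (E : Fin M → Option (V × V)),
      (∀ u ∈ W, (W.filter fun v => rel F E u v).card ≤ s) ∧
      ∀ u ∈ W, ∀ v ∈ W, (f u = f v ∨ (f u < f v ∧ H (f u) (f v))) →
        rel F E u v ∨ rel F E v u := by
  rcases W.eq_empty_or_nonempty with rfl | ⟨w₀, hw₀⟩
  · exact ⟨id, fun _ => none, by simp, by simp⟩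
  have : Nonempty V := ⟨w₀⟩
  obtain ⟨o, ho⟩ := exists_orient_on hD H (W.image f) hdeg
  have hrep : ∀ i ∈ W.image f, ∃ w, w ∈ W ∧ f w = i := fun i hi => Finset.mem_image.mp hi
  choose! rep hrepW hrepf using hrep
  set P : Finset (Fin T × Fin T) := (W.image f).image (fun i => (i, i)) ∪
    (relPairs H (W.image f)).image (fun q => if (∃ c, o q.1 c = q.2) then q else q.swap) with hP
  have hPcard : P.card ≤ M := by
    calc P.card ≤ ((W.image f).image (fun i => (i, i))).card + ((relPairs H (W.image f)).image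
          (fun q => if (∃ c, o q.1 c = q.2) then q else q.swap)).card := Finset.card_union_le _ _
      _ ≤ (W.image f).card + (relPairs H (W.image f)).card :=
          add_le_add Finset.card_image_le Finset.card_image_le
      _ ≤ M := by rw [add_comm]; exact hM
  have hPmem : ∀ q ∈ P, q.1 ∈ W.image f ∧ q.2 ∈ W.image f ∧ (q.2 = q.1 ∨ ∃ c, o q.1 c = q.2) := by
    intro q hq
    rw [hP, Finset.mem_union] at hq
    rcases hq with hq | hq
    · obtain ⟨i, hi, rfl⟩ := Finset.mem_image.mp hq
      exact ⟨hi, hi, Or.inl rfl⟩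
    · obtain ⟨q', hq', rfl⟩ := Finset.mem_image.mp hq
      rw [mem_relPairs'] at hq'
      obtain ⟨⟨h1, h2⟩, hlt, hH⟩ := hq'
      split_ifs with hc
      · exact ⟨h1, h2, Or.inr hc⟩
      · refine ⟨h2, h1, Or.inr ?_⟩
        rcases ho _ h1 _ h2 hlt hH with h | h
        · exact absurd h hc
        · exact h
  set Q : Finset (V × V) := P.image fun q => (rep q.1, rep q.2) with hQ
  obtain ⟨E, hE⟩ := exists_list_code Q M (Finset.card_image_le.trans hPcard)
  have hiff : ∀ u ∈ W, ∀ v ∈ W, rel (fun v => rep (f v)) E u v ↔ (f u, f v) ∈ P := by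
    intro u hu v hv
    unfold rel
    rw [hE, hQ, Finset.mem_image]
    constructor
    · rintro ⟨q, hq, hqq⟩
      obtain ⟨h1, h2, -⟩ := hPmem q hq
      have e1 : q.1 = f u := by
        rw [← hrepf q.1 h1, (Prod.mk.inj hqq).1]
        exact hrepf _ (Finset.mem_image_of_mem f hu)
      have e2 : q.2 = f v := by
        rw [← hrepf q.2 h2, (Prod.mk.inj hqq).2]
        exact hrepf _ (Finset.mem_image_of_mem f hv)
      rw [← e1, ← e2]
      exact hq
    · intro h
      exact ⟨(f u, f v), h, rfl⟩
  refine ⟨fun v => rep (f v), E, ?_, ?_⟩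
  · intro u hu
    have hsub : (W.filter fun v => rel (fun v => rep (f v)) E u v) ⊆
        (insert (f u) ((Finset.univ : Finset (Fin (2 * Dg))).image (o (f u)))).biUnion
          fun j => W.filter fun v => f v = j := by
      intro v hv
      rw [Finset.mem_filter] at hv
      obtain ⟨hvW, hr⟩ := hv
      rw [hiff u hu v hvW] at hr
      obtain ⟨-, -, h⟩ := hPmem _ hr
      rw [Finset.mem_biUnion]
      refine ⟨f v, ?_, Finset.mem_filter.mpr ⟨hvW, rfl⟩⟩
      rw [Finset.mem_insert]
      rcases h with h | ⟨c, hc⟩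
      · left; exact h
      · right; exact Finset.mem_image.mpr ⟨c, Finset.mem_univ _, hc⟩
    calc (W.filter fun v => rel (fun v => rep (f v)) E u v).card
        ≤ _ := Finset.card_le_card hsub
      _ ≤ ∑ j ∈ insert (f u) ((Finset.univ : Finset (Fin (2 * Dg))).image (o (f u))),
            (W.filter fun v => f v = j).card := Finset.card_biUnion_le
      _ ≤ ∑ _j ∈ insert (f u) ((Finset.univ : Finset (Fin (2 * Dg))).image (o (f u))), a := by
          refine Finset.sum_le_sum fun j _ => ?_
          rcases (W.filter fun v => f v = j).eq_empty_or_nonempty with he | ⟨w, hw⟩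
          · rw [he, Finset.card_empty]; exact Nat.zero_le _
          · rw [Finset.mem_filter] at hw
            refine le_trans ?_ (ha w hw.1)
            unfold fib
            refine Finset.card_le_card ?_
            intro x hx
            rw [Finset.mem_filter] at hx ⊢
            exact ⟨Finset.mem_univ _, hx.2.trans hw.2.symm⟩
      _ = (insert (f u) ((Finset.univ : Finset (Fin (2 * Dg))).image (o (f u)))).card * a := by
          rw [Finset.sum_const, smul_eq_mul]
      _ ≤ (2 * Dg + 1) * a := by
          refine Nat.mul_le_mul_right _ ?_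
          refine (Finset.card_insert_le _ _).trans ?_
          have : ((Finset.univ : Finset (Fin (2 * Dg))).image (o (f u))).card ≤ 2 * Dg :=
            Finset.card_image_le.trans (by rw [Finset.card_univ, Fintype.card_fin])
          omega
      _ ≤ s := hs
  · intro u hu v hv h
    rw [hiff u hu v hv, hiff v hv u hu]
    have hu' := Finset.mem_image_of_mem f hu
    have hv' := Finset.mem_image_of_mem f hv
    rcases h with h | ⟨hlt, hH⟩
    · left
      rw [hP, Finset.mem_union]
      left
      rw [← h]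
      exact Finset.mem_image.mpr ⟨f u, hu', rfl⟩
    · by_cases hc : ∃ c, o (f u) c = f v
      · left
        rw [hP, Finset.mem_union]
        right
        refine Finset.mem_image.mpr ⟨(f u, f v), ?_, if_pos hc⟩
        rw [mem_relPairs']
        exact ⟨⟨hu', hv'⟩, hlt, hH⟩
      · right
        rw [hP, Finset.mem_union]
        right
        refine Finset.mem_image.mpr ⟨(f u, f v), ?_, if_neg hc⟩
        rw [mem_relPairs']
        exact ⟨⟨hu', hv'⟩, hlt, hH⟩

end Pool.Agent.OrdRam
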