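import Mathlib
import Pool.Agent.Lib.MP_5b01b8_co.UStruct
import Pool.Agent.Lib.MP_5b01b8_co.ULevel

/-!
# The deterministic part: neither colour contains a copy
-/

namespace Pool.Agent.OrdRam

open Finset

theorem exists_type {V ι : Type*} [Fintype V] [Fintype ι] [DecidableEq ι] (ty : V → ι) (Λ : ℕ)
    (hΛ : Fintype.card ι ≤ Λ) :
    ∃ W : Finset V, Fintype.card V ≤ Λ * W.card ∧ ∀ u ∈ W, ∀ v ∈ W, ty u = ty v := by
  classical
  by_contra hcon
  push Not at hcon
  have h1 : ∀ y : ι, Λ * (Finset.univ.filter fun v => ty v = y).card < Fintype.card V := by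
    intro y
    by_contra hn
    push Not at hn
    obtain ⟨u, hu, v, hv, hne⟩ := hcon _ hn
    rw [Finset.mem_filter] at hu hv
    exact hne (hu.2.trans hv.2.symm)
  have h2 : ∑ y : ι, (Finset.univ.filter fun v => ty v = y).card = Fintype.card V := by
    rw [← Finset.card_univ]
    exact (Finset.card_eq_sum_card_fiberwise (f := ty) (t := Finset.univ)
      (fun x _ => Finset.mem_coe.mpr (Finset.mem_univ _))).symm
  rcases Nat.eq_zero_or_pos (Fintype.card V) with h0 | h0
  · obtain ⟨u, hu, -⟩ := hcon ∅ (by rw [h0]; exact Nat.zero_le _)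
    exact absurd hu (Finset.notMem_empty _)
  · have hne : Nonempty ι := by
      obtain ⟨v⟩ := Fintype.card_pos_iff.mp h0
      exact ⟨ty v⟩
    have h3 : ∑ y : ι, Λ * (Finset.univ.filter fun v => ty v = y).card
        < ∑ _y : ι, Fintype.card V :=
      Finset.sum_lt_sum_of_nonempty Finset.univ_nonempty fun y _ => h1 y
    rw [← Finset.mul_sum, h2, Finset.sum_const, smul_eq_mul, Finset.card_univ] at h3
    have h4 := Nat.lt_of_mul_lt_mul_right h3
    omega

/-- The size class of the block of `v`. -/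
noncomputable def cls {V : Type*} [Fintype V] {T : ℕ} (ρ : ℕ) (f : V → Fin T) (v : V) : ℕ :=
  Nat.log ρ (Fintype.card V / fib f (f v))

theorem fib_pos {V : Type*} [Fintype V] {T : ℕ} (f : V → Fin T) (v : V) : 0 < fib f (f v) := by
  classical
  unfold fib
  rw [Finset.card_pos]
  exact ⟨v, by simp⟩

theorem fib_le_card {V : Type*} [Fintype V] {T : ℕ} (f : V → Fin T) (j : Fin T) :
    fib f j ≤ Fintype.card V := by
  classical
  unfold fib
  exact Finset.card_le_univ _

theorem cls_le {V : Type*} [Fintype V] {T : ℕ} {ρ : ℕ} (f : V → Fin T) (v : V) {j : ℕ}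
    (hj : cls ρ f v = j) : fib f (f v) * ρ ^ j ≤ Fintype.card V := by
  have h0 := fib_pos f v
  have h1 : Fintype.card V / fib f (f v) ≠ 0 :=
    (Nat.div_pos (fib_le_card f _) h0).ne'
  have h2 := Nat.pow_log_le_self ρ h1
  unfold cls at hj
  rw [hj] at h2
  have h3 := (Nat.le_div_iff_mul_le h0).mp h2
  rw [mul_comm]
  exact h3

theorem lt_cls {V : Type*} [Fintype V] {T : ℕ} {ρ : ℕ} (hρ : 1 < ρ) (f : V → Fin T) (v : V) {j : ℕ}
    (hj : cls ρ f v = j) : Fintype.card V < fib f (f v) * ρ ^ (j + 1) := by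
  have h0 := fib_pos f v
  have h2 := Nat.lt_pow_succ_log_self hρ (Fintype.card V / fib f (f v))
  unfold cls at hj
  rw [hj] at h2
  rw [Nat.div_lt_iff_lt_mul h0] at h2
  rw [mul_comm]
  exact h2

open Classical in
/-- Few blocks are large. -/
theorem card_large_blocks {V : Type*} [Fintype V] {T : ℕ} (f : V → Fin T) (Js : Finset (Fin T))
    (K : ℕ) (hV : 0 < Fintype.card V) (h : ∀ i ∈ Js, Fintype.card V ≤ fib f i * K) :
    Js.card ≤ K := by
  have h1 : Js.card * Fintype.card V ≤ K * Fintype.card V := by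
    calc Js.card * Fintype.card V = ∑ _i ∈ Js, Fintype.card V := by
          rw [Finset.sum_const, smul_eq_mul]
      _ ≤ ∑ i ∈ Js, fib f i * K := Finset.sum_le_sum h
      _ = (∑ i ∈ Js, fib f i) * K := by rw [Finset.sum_mul]
      _ ≤ (∑ i, fib f i) * K := by
          refine Nat.mul_le_mul_right _ ?_
          exact Finset.sum_le_sum_of_subset (Finset.subset_univ _)
      _ = K * Fintype.card V := by rw [sum_fib, mul_comm]
  exact Nat.le_of_mul_le_mul_right h1 hV

open Classical in
theorem card_image_le_of_cls {V : Type*} [Fintype V] {T : ℕ} {ρ : ℕ} (hρ : 1 < ρ) (f : V → Fin T)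
    (W : Finset V) (hV : 0 < Fintype.card V) {j : ℕ} (hj : ∀ v ∈ W, cls ρ f v = j) :
    (W.image f).card ≤ ρ ^ (j + 1) := by
  refine card_large_blocks f (W.image f) (ρ ^ (j + 1)) hV ?_
  intro i hi
  obtain ⟨v, hv, rfl⟩ := Finset.mem_image.mp hi
  exact (lt_cls hρ f v (hj v hv)).le

theorem card_relPairs_le_sq {T : ℕ} (H : Fin T → Fin T → Prop) (J : Finset (Fin T)) :
    (relPairs H J).card ≤ J.card * J.card := by
  classical
  unfold relPairs
  refine (Finset.card_filter_le _ _).trans ?_
  rw [Finset.card_product]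

open Classical in
theorem card_relPairs_quot_le {V : Type*} [Fintype V] {T : ℕ} (Adj : V → V → Prop)
    (f : V → Fin T) (J : Finset (Fin T)) (d : ℕ)
    (hd : (Finset.univ.filter fun q : V × V => Adj q.1 q.2).card ≤ d * Fintype.card V) :
    (relPairs (quot Adj f) J).card ≤ d * Fintype.card V := by
  refine le_trans ?_ hd
  have hsub : relPairs (quot Adj f) J ⊆
      (Finset.univ.filter fun q : V × V => Adj q.1 q.2).image fun q => (f q.1, f q.2) := by
    intro q hq
    rw [mem_relPairs'] at hq
    obtain ⟨-, -, u, v, huv, hu, hv⟩ := hq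
    refine Finset.mem_image.mpr ⟨(u, v), ?_, by rw [hu, hv]⟩
    rw [Finset.mem_filter]
    exact ⟨Finset.mem_univ _, huv⟩
  exact (Finset.card_le_card hsub).trans Finset.card_image_le

theorem relPairs_empty {T : ℕ} (H : Fin T → Fin T → Prop) : relPairs H ∅ = ∅ := by
  rw [Finset.eq_empty_iff_forall_notMem]
  intro q hq
  rw [mem_relPairs'] at hq
  exact absurd hq.1.1 (Finset.notMem_empty _)

open Classical in
/-- No red copy. -/
theorem red_core {V : Type*} [Fintype V] (Adj : V → V → Prop) (hsymm : ∀ u v, Adj u v → Adj v u)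
    {L M Λ s ρ : ℕ} {T : Fin (L + 1) → ℕ} (hρ : 1 < ρ)
    (f : (l : Fin (L + 1)) → V → Fin (T l))
    (hgood : GoodU Adj (L + 1) M Λ s) (hΛ : 25 ^ (L + 1) ≤ Λ)
    (hV : Λ * ρ ^ 18 < Fintype.card V) (hV' : Fintype.card V < ρ ^ 25)
    (hfirst : T 0 ≤ ρ ^ 12)
    (hnext : ∀ l : Fin L, ∀ W : Finset V,
      (W.image (f l.succ)).card ≤ ρ ^ 12 * (W.image (f l.castSucc)).card)
    (hlast : ∀ i, fib (f (Fin.last L)) i ≤ ρ ^ 12)
    (hred : ∀ l, ∀ J : Finset (Fin (T l)), J.Nonempty →
      (relPairs (quot Adj (f l)) J).card < ρ ^ 5 * J.card)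
    (hM : (ρ ^ 5 + 1) * ρ ^ 18 ≤ M)
    (hs : (2 * ρ ^ 5 + 1) * (Fintype.card V / ρ ^ 6) ≤ s) : False := by
  have hρ0 : 0 < ρ := by omega
  have hV0 : 0 < Fintype.card V := by omega
  have hcls : ∀ l v, cls ρ (f l) v < 25 := by
    intro l v
    unfold cls
    refine Nat.log_lt_of_lt_pow (Nat.div_pos (fib_le_card _ _) (fib_pos _ _)).ne' ?_
    exact lt_of_le_of_lt (Nat.div_le_self _ _) hV'
  obtain ⟨W, hW, hty⟩ := exists_type (fun (v : V) (l : Fin (L + 1)) =>
    (⟨cls ρ (f l) v, hcls l v⟩ : Fin 25)) Λ (by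
      rw [Fintype.card_fun, Fintype.card_fin, Fintype.card_fin]; exact hΛ)
  have hWne : W.Nonempty := by
    rw [Finset.nonempty_iff_ne_empty]
    rintro rfl
    rw [Finset.card_empty, mul_zero] at hW
    omega
  obtain ⟨w, hw⟩ := hWne
  have hclW : ∀ l, ∀ v ∈ W, cls ρ (f l) v = cls ρ (f l) w := by
    intro l v hv
    have := congrFun (hty v hv w hw) l
    exact Fin.mk.inj_iff.mp this
  have himg : ∀ l, (W.image (f l)).card ≤ ρ ^ (cls ρ (f l) w + 1) := fun l =>
    card_image_le_of_cls hρ (f l) W hV0 (hclW l)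
  -- there is a level of class at least 6
  have hex : ∃ l, 6 ≤ cls ρ (f l) w := by
    by_contra hcon
    push Not at hcon
    have h1 : (W.image (f (Fin.last L))).card ≤ ρ ^ 6 :=
      (himg _).trans (Nat.pow_le_pow_right hρ0 (by have := hcon (Fin.last L); omega))
    have h2 : W.card ≤ (W.image (f (Fin.last L))).card * ρ ^ 12 := by
      rw [Finset.card_eq_sum_card_image (f (Fin.last L)) W]
      calc ∑ i ∈ W.image (f (Fin.last L)), (W.filter fun v => f (Fin.last L) v = i).card
          ≤ ∑ _i ∈ W.image (f (Fin.last L)), ρ ^ 12 := by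
            refine Finset.sum_le_sum fun i _ => ?_
            refine le_trans ?_ (hlast i)
            unfold fib
            exact Finset.card_le_card (Finset.filter_subset_filter _ (Finset.subset_univ _))
        _ = _ := by rw [Finset.sum_const, smul_eq_mul]
    have h3 : W.card ≤ ρ ^ 18 := by
      calc W.card ≤ ρ ^ 6 * ρ ^ 12 := h2.trans (Nat.mul_le_mul_right _ h1)
        _ = ρ ^ 18 := by ring
    have h4 : Λ * W.card ≤ Λ * ρ ^ 18 := Nat.mul_le_mul_left _ h3
    omega
  -- the first such level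
  obtain ⟨l, hl6, hlmin⟩ : ∃ l, 6 ≤ cls ρ (f l) w ∧ ∀ l' < l, cls ρ (f l') w < 6 := by
    classical
    obtain ⟨l, hl⟩ := hex
    induction l using Fin.induction with
    | zero =>
      exact ⟨0, hl, fun l' hl' => absurd hl' (Fin.not_lt_zero l')⟩
    | succ i ih =>
      by_cases hi : ∃ l' < i.succ, 6 ≤ cls ρ (f l') w
      · set A : Finset (Fin (L + 1)) := Finset.univ.filter fun l => 6 ≤ cls ρ (f l) w with hA
        have hAne : A.Nonempty := ⟨i.succ, by simp [hA, hl]⟩
        refine ⟨A.min' hAne, (Finset.mem_filter.mp (A.min'_mem hAne)).2, ?_⟩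
        intro l' hl'
        by_contra hcon
        push Not at hcon
        exact absurd (A.min'_le l' (by simp [hA, hcon])) (not_le.mpr hl')
      · push Not at hi
        exact ⟨i.succ, hl, hi⟩
  have hcount : (W.image (f l)).card ≤ ρ ^ 18 := by
    rcases Fin.eq_zero_or_eq_succ l with h0 | ⟨i, hi⟩
    · subst h0
      calc (W.image (f 0)).card ≤ Fintype.card (Fin (T 0)) := Finset.card_le_univ _
        _ = T 0 := Fintype.card_fin _
        _ ≤ ρ ^ 12 := hfirst
        _ ≤ ρ ^ 18 := Nat.pow_le_pow_right hρ0 (by norm_num)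
    · subst hi
      have h1 := hlmin i.castSucc (Fin.castSucc_lt_succ)
      calc (W.image (f i.succ)).card ≤ ρ ^ 12 * (W.image (f i.castSucc)).card := hnext i W
        _ ≤ ρ ^ 12 * ρ ^ 6 := by
            refine Nat.mul_le_mul_left _ ((himg _).trans ?_)
            exact Nat.pow_le_pow_right hρ0 (by omega)
        _ = ρ ^ 18 := by ring
  obtain ⟨F, E, hFE, hrel⟩ := exists_code (f l) W (quot Adj (f l)) (ρ ^ 5)
    (Fintype.card V / ρ ^ 6) s M (by positivity) (fun J _ hJ => hred l J hJ)
    (by
      rcases (W.image (f l)).eq_empty_or_nonempty with he | hne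
      · rw [he, relPairs_empty, Finset.card_empty, Finset.card_empty]
        exact Nat.zero_le _
      · have h1 := hred l _ hne
        calc (relPairs (quot Adj (f l)) (W.image (f l))).card + (W.image (f l)).card
            ≤ ρ ^ 5 * (W.image (f l)).card + (W.image (f l)).card := by omega
          _ = (ρ ^ 5 + 1) * (W.image (f l)).card := by ring
          _ ≤ (ρ ^ 5 + 1) * ρ ^ 18 := Nat.mul_le_mul_left _ hcount
          _ ≤ M := hM)
    (by
      intro v hv
      rw [Nat.le_div_iff_mul_le (by positivity)]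
      have h1 := cls_le (f l) v (hclW l v hv)
      refine le_trans (Nat.mul_le_mul_left _ ?_) h1
      exact Nat.pow_le_pow_right hρ0 hl6)
    hs
  obtain ⟨u, hu, v, hv, huv, hno⟩ := hgood W (fun _ => F) (fun _ => E) hW
    (fun _ u hu => hFE u hu)
  have hno0 := hno 0
  rcases lt_trichotomy (f l u) (f l v) with h | h | h
  · rcases hrel u hu v hv (Or.inr ⟨h, u, v, huv, rfl, rfl⟩) with hr | hr
    · exact hno0.1 hr
    · exact hno0.2 hr
  · rcases hrel u hu v hv (Or.inl h) with hr | hr
    · exact hno0.1 hr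
    · exact hno0.2 hr
  · rcases hrel v hv u hu (Or.inr ⟨h, v, u, hsymm u v huv, rfl, rfl⟩) with hr | hr
    · exact hno0.2 hr
    · exact hno0.1 hr

open Classical in
/-- No blue copy. -/
theorem blue_core {V : Type*} [Fintype V] (Adj : V → V → Prop) (hsymm : ∀ u v, Adj u v → Adj v u)
    {L M Λ s ρ b d : ℕ} {T : Fin L → ℕ} (hρ : 1 < ρ)
    (f : (l : Fin L) → V → Fin (T l)) (D : (l : Fin L) → Fin (T l) × Fin (T l) → Prop)
    (hgood : GoodU Adj L M Λ s) (hΛ : (25 * (2 * (b + 2))) ^ L ≤ Λ)
    (hV0 : 0 < Fintype.card V) (hV' : Fintype.card V < ρ ^ 25)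
    (hdeg : (Finset.univ.filter fun q : V × V => Adj q.1 q.2).card ≤ d * Fintype.card V)
    (hdρ : d ≤ ρ ^ 3)
    (hblue : ∀ l, ∀ J : Finset (Fin (T l)), J.Nonempty →
      ρ ^ 3 * (relPairs (fun i j => quot Adj (f l) i j ∧ D l (i, j)) J).card
        ≤ ρ ^ 3 * b * J.card + (relPairs (quot Adj (f l)) J).card)
    (hall : ∀ u v, Adj u v → ∃ l, (f l u < f l v ∧ D l (f l u, f l v)) ∨
      (f l v < f l u ∧ D l (f l v, f l u)))
    (hM : (b + 2) * Fintype.card V ≤ M)
    (hs : ∀ j, 3 ≤ j → (2 * (b + ρ ^ (j - 2) + 1) + 1) * (Fintype.card V / ρ ^ j) ≤ s) :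
    False := by
  have hρ0 : 0 < ρ := by omega
  set H : (l : Fin L) → Fin (T l) → Fin (T l) → Prop := fun l i j =>
    quot Adj (f l) i j ∧ D l (i, j) with hH
  have hblue' : ∀ l, ∀ J : Finset (Fin (T l)), J.Nonempty →
      ρ ^ 3 * (relPairs (H l) J).card
        ≤ ρ ^ 3 * b * J.card + (relPairs (quot Adj (f l)) J).card := hblue
  have hcls : ∀ l v, cls ρ (f l) v < 25 := by
    intro l v
    unfold cls
    refine Nat.log_lt_of_lt_pow (Nat.div_pos (fib_le_card _ _) (fib_pos _ _)).ne' ?_
    exact lt_of_le_of_lt (Nat.div_le_self _ _) hV'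
  -- colour the huge blocks
  set Js : (l : Fin L) → Finset (Fin (T l)) := fun l =>
    Finset.univ.filter fun i => Fintype.card V ≤ fib (f l) i * ρ ^ 3 with hJs
  have hJscard : ∀ l, (Js l).card ≤ ρ ^ 3 := by
    intro l
    refine card_large_blocks (f l) (Js l) (ρ ^ 3) hV0 ?_
    intro i hi
    exact (Finset.mem_filter.mp hi).2
  have hcol : ∀ l, ∃ col : Fin (T l) → Fin (2 * (b + 2)), ∀ i ∈ Js l, ∀ j ∈ Js l,
      i < j → H l i j → col i ≠ col j := by
    intro l
    refine exists_colour_on (by omega) (H l) (Js l) ?_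
    intro J hJs' hJ
    have h1 := hblue' l J hJ
    have h2 := card_relPairs_le_sq (quot Adj (f l)) J
    have h3 : J.card ≤ ρ ^ 3 := (Finset.card_le_card hJs').trans (hJscard l)
    have h4 : J.card * J.card ≤ ρ ^ 3 * J.card := Nat.mul_le_mul_right _ h3
    have h5 : ρ ^ 3 * (relPairs (H l) J).card ≤ ρ ^ 3 * ((b + 1) * J.card) := by
      calc ρ ^ 3 * (relPairs (H l) J).card ≤ ρ ^ 3 * b * J.card + ρ ^ 3 * J.card := by omega
        _ = ρ ^ 3 * ((b + 1) * J.card) := by ring
    have h6 := Nat.le_of_mul_le_mul_left h5 (by positivity)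
    have h7 : 0 < J.card := hJ.card_pos
    calc (relPairs (H l) J).card ≤ (b + 1) * J.card := h6
      _ < (b + 2) * J.card := Nat.mul_lt_mul_of_pos_right (by omega) h7
  choose col hcol using hcol
  obtain ⟨W, hW, hty⟩ := exists_type (fun (v : V) (l : Fin L) =>
    ((⟨cls ρ (f l) v, hcls l v⟩ : Fin 25), col l (f l v))) Λ (by
      rw [Fintype.card_fun, Fintype.card_prod, Fintype.card_fin, Fintype.card_fin,
        Fintype.card_fin]
      exact hΛ)
  have hWne : W.Nonempty := by
    rw [Finset.nonempty_iff_ne_empty]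
    rintro rfl
    rw [Finset.card_empty, mul_zero] at hW
    omega
  obtain ⟨w, hw⟩ := hWne
  have hclW : ∀ l, ∀ v ∈ W, cls ρ (f l) v = cls ρ (f l) w := by
    intro l v hv
    have := congrFun (hty v hv w hw) l
    exact Fin.mk.inj_iff.mp (Prod.mk.inj this).1
  have hcoW : ∀ l, ∀ u ∈ W, ∀ v ∈ W, col l (f l u) = col l (f l v) := by
    intro l u hu v hv
    have := congrFun (hty u hu v hv) l
    exact (Prod.mk.inj this).2
  have himg : ∀ l, (W.image (f l)).card ≤ ρ ^ (cls ρ (f l) w + 1) := fun l =>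
    card_image_le_of_cls hρ (f l) W hV0 (hclW l)
  have hcode : ∀ l, ∃ (F : V → V) (E : Fin M → Option (V × V)),
      (∀ u ∈ W, (W.filter fun v => rel F E u v).card ≤ s) ∧
      ∀ u ∈ W, ∀ v ∈ W, (f l u < f l v ∧ H l (f l u) (f l v)) → rel F E u v ∨ rel F E v u := by
    intro l
    by_cases hj : 3 ≤ cls ρ (f l) w
    · set j := cls ρ (f l) w with hjdef
      obtain ⟨F, E, h1, h2⟩ := exists_code (f l) W (H l) (b + ρ ^ (j - 2) + 1)
        (Fintype.card V / ρ ^ j) s M (by omega)
        (by
          intro J hJW hJ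
          have h1 := hblue' l J hJ
          have h2 := card_relPairs_le_sq (quot Adj (f l)) J
          have h3 : J.card ≤ ρ ^ (j + 1) := (Finset.card_le_card hJW).trans (himg l)
          have h4 : J.card * J.card ≤ ρ ^ (j + 1) * J.card := Nat.mul_le_mul_right _ h3
          have h4' : ρ ^ (j + 1) = ρ ^ 3 * ρ ^ (j - 2) := by
            rw [← pow_add]; congr 1; omega
          have h5 : ρ ^ 3 * (relPairs (H l) J).card
              ≤ ρ ^ 3 * ((b + ρ ^ (j - 2)) * J.card) := by
            calc ρ ^ 3 * (relPairs (H l) J).card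
                ≤ ρ ^ 3 * b * J.card + ρ ^ (j + 1) * J.card := by omega
              _ = ρ ^ 3 * ((b + ρ ^ (j - 2)) * J.card) := by rw [h4']; ring
          have h6 := Nat.le_of_mul_le_mul_left h5 (by positivity)
          have h7 : 0 < J.card := hJ.card_pos
          calc (relPairs (H l) J).card ≤ (b + ρ ^ (j - 2)) * J.card := h6
            _ < (b + ρ ^ (j - 2) + 1) * J.card := Nat.mul_lt_mul_of_pos_right (by omega) h7)
        (by
          rcases (W.image (f l)).eq_empty_or_nonempty with he | hne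
          · rw [he, relPairs_empty, Finset.card_empty, Finset.card_empty]
            exact Nat.zero_le _
          · have h1 := hblue' l _ hne
            have h2 := card_relPairs_quot_le Adj (f l) (W.image (f l)) d hdeg
            have h3 : (W.image (f l)).card ≤ Fintype.card V :=
              Finset.card_image_le.trans (Finset.card_le_univ _)
            have h4 : ρ ^ 3 * (relPairs (H l) (W.image (f l))).card
                ≤ ρ ^ 3 * ((b + 1) * Fintype.card V) := by
              calc ρ ^ 3 * (relPairs (H l) (W.image (f l))).card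
                  ≤ ρ ^ 3 * b * (W.image (f l)).card
                    + (relPairs (quot Adj (f l)) (W.image (f l))).card := h1
                _ ≤ ρ ^ 3 * b * Fintype.card V + ρ ^ 3 * Fintype.card V :=
                    add_le_add (Nat.mul_le_mul_left _ h3)
                      (h2.trans (Nat.mul_le_mul_right _ hdρ))
                _ = ρ ^ 3 * ((b + 1) * Fintype.card V) := by ring
            have h5 := Nat.le_of_mul_le_mul_left h4 (by positivity)
            calc (relPairs (H l) (W.image (f l))).card + (W.image (f l)).card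
                ≤ (b + 1) * Fintype.card V + Fintype.card V := add_le_add h5 h3
              _ = (b + 2) * Fintype.card V := by ring
              _ ≤ M := hM)
        (by
          intro v hv
          rw [Nat.le_div_iff_mul_le (by positivity)]
          exact cls_le (f l) v (hclW l v hv))
        (hs j hj)
      exact ⟨F, E, h1, fun u hu v hv h => h2 u hu v hv (Or.inr h)⟩
    · refine ⟨id, fun _ => none, ?_, ?_⟩
      · intro u _
        have : (W.filter fun v => rel id (fun _ : Fin M => none) u v) = ∅ := by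
          rw [Finset.filter_eq_empty_iff]
          rintro v _ ⟨i, hi⟩
          exact absurd hi (by simp)
        rw [this, Finset.card_empty]
        exact Nat.zero_le _
      · intro u hu v hv h
        exfalso
        have hmem : ∀ x ∈ W, f l x ∈ Js l := by
          intro x hx
          rw [hJs]
          simp only [Finset.mem_filter, Finset.mem_univ, true_and]
          have h1 := (lt_cls hρ (f l) x (hclW l x hx)).le
          refine h1.trans (Nat.mul_le_mul_left _ ?_)
          exact Nat.pow_le_pow_right hρ0 (by omega)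
        exact hcol l (f l u) (hmem u hu) (f l v) (hmem v hv) h.1 h.2 (hcoW l u hu v hv)
  choose F E hFE hrel using hcode
  obtain ⟨u, hu, v, hv, huv, hno⟩ := hgood W F E hW hFE
  obtain ⟨l, h | h⟩ := hall u v huv
  · rcases hrel l u hu v hv ⟨h.1, ⟨u, v, huv, rfl, rfl⟩, h.2⟩ with hr | hr
    · exact (hno l).1 hr
    · exact (hno l).2 hr
  · rcases hrel l v hv u hu ⟨h.1, ⟨v, u, hsymm u v huv, rfl, rfl⟩, h.2⟩ with hr | hr
    · exact (hno l).2 hr
    · exact (hno l).1 hr

end Pool.Agent.OrdRam
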