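import Mathlib
import Pool.Agent.Lib.MP_5b01b8_co.UCore

/-!
# The multi-level colouring
-/

namespace Pool.Agent.OrdRam

open Finset

theorem cliqueAdj_symm {m g k : ℕ} (τs : Fin k → Equiv.Perm (Fin m × Fin g))
    (u v : Fin m × Fin g) (h : cliqueAdj τs u v) : cliqueAdj τs v u := by
  obtain ⟨i, c, a, a', hne, hu, hv⟩ := h
  exact ⟨i, c, a', a, hne.symm, hv, hu⟩

theorem not_cliqueAdj_self {m g k : ℕ} (τs : Fin k → Equiv.Perm (Fin m × Fin g))
    (u : Fin m × Fin g) : ¬ cliqueAdj τs u u := by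
  rintro ⟨i, c, a, a', hne, hu, hv⟩
  have := (τs i).injective (hu.trans hv.symm)
  exact hne (Prod.mk.inj this).2

open Classical in
theorem cliqueAdj_nbr {m g k : ℕ} (τs : Fin k → Equiv.Perm (Fin m × Fin g))
    (u : Fin m × Fin g) :
    ∃ S : Finset (Fin m × Fin g), S.card ≤ k * g ∧ ∀ v, cliqueAdj τs u v → v ∈ S := by
  refine ⟨(Finset.univ : Finset (Fin k × Fin g)).image
    fun q => τs q.1 (((τs q.1).symm u).1, q.2), ?_, ?_⟩
  · refine Finset.card_image_le.trans ?_
    rw [Finset.card_univ, Fintype.card_prod, Fintype.card_fin, Fintype.card_fin]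
  · rintro v ⟨i, c, a, a', hne, hu, hv⟩
    refine Finset.mem_image.mpr ⟨(i, a'), Finset.mem_univ _, ?_⟩
    have : (τs i).symm u = (c, a) := by rw [← hu, Equiv.symm_apply_apply]
    simp only [this, hv]

open Classical in
theorem cliqueAdj_pairs {m g k : ℕ} (τs : Fin k → Equiv.Perm (Fin m × Fin g)) :
    (Finset.univ.filter fun q : (Fin m × Fin g) × (Fin m × Fin g) => cliqueAdj τs q.1 q.2).card
      ≤ (k * g) * Fintype.card (Fin m × Fin g) := by
  choose S hS hSmem using cliqueAdj_nbr τs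
  have hsub : (Finset.univ.filter fun q : (Fin m × Fin g) × (Fin m × Fin g) =>
      cliqueAdj τs q.1 q.2) ⊆
      (Finset.univ : Finset (Fin m × Fin g)).biUnion fun u => (S u).image fun v => (u, v) := by
    rintro ⟨u, v⟩ hq
    rw [Finset.mem_filter] at hq
    rw [Finset.mem_biUnion]
    exact ⟨u, Finset.mem_univ _, Finset.mem_image.mpr ⟨v, hSmem u v hq.2, rfl⟩⟩
  calc _ ≤ _ := Finset.card_le_card hsub
    _ ≤ ∑ u : Fin m × Fin g, ((S u).image fun v => (u, v)).card := Finset.card_biUnion_le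
    _ ≤ ∑ _u : Fin m × Fin g, k * g :=
        Finset.sum_le_sum fun u _ => Finset.card_image_le.trans (hS u)
    _ = _ := by rw [Finset.sum_const, smul_eq_mul, Finset.card_univ, mul_comm]

/-- The image of the union of clique factors under an embedding into `Fin n`. -/
def placedU {m g k n : ℕ} (τs : Fin k → Equiv.Perm (Fin m × Fin g)) (e : Fin m × Fin g ↪ Fin n) :
    SimpleGraph (Fin n) where
  Adj a b := ∃ u v, cliqueAdj τs u v ∧ e u = a ∧ e v = b
  symm := ⟨by
    rintro a b ⟨u, v, huv, ha, hb⟩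
    exact ⟨v, u, cliqueAdj_symm τs u v huv, hb, ha⟩⟩
  loopless := ⟨by
    rintro a ⟨u, v, huv, ha, hb⟩
    have : u = v := e.injective (ha.trans hb.symm)
    subst this
    exact not_cliqueAdj_self τs u huv⟩

theorem placedU_degree {m g k n : ℕ} (τs : Fin k → Equiv.Perm (Fin m × Fin g))
    (e : Fin m × Fin g ↪ Fin n) (a : Fin n) : ((placedU τs e).neighborSet a).ncard ≤ k * g := by
  classical
  by_cases ha : ∃ u, e u = a
  · obtain ⟨u, rfl⟩ := ha
    obtain ⟨S, hS, hSmem⟩ := cliqueAdj_nbr τs u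
    have hsub : (placedU τs e).neighborSet (e u) ⊆ ((S.image e : Finset (Fin n)) : Set (Fin n)) := by
      intro b hb
      obtain ⟨u', v, huv, hu', hv⟩ := hb
      have : u' = u := e.injective hu'
      subst this
      rw [Finset.mem_coe]
      exact Finset.mem_image.mpr ⟨v, hSmem v huv, hv⟩
    calc ((placedU τs e).neighborSet (e u)).ncard
        ≤ ((S.image e : Finset (Fin n)) : Set (Fin n)).ncard :=
          Set.ncard_le_ncard hsub (Finset.finite_toSet _)
      _ = (S.image e).card := Set.ncard_coe_finset _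
      _ ≤ k * g := Finset.card_image_le.trans hS
  · have : (placedU τs e).neighborSet a = ∅ := by
      rw [Set.eq_empty_iff_forall_notMem]
      rintro b ⟨u, v, -, hu, -⟩
      exact ha ⟨u, hu⟩
    rw [this, Set.ncard_empty]
    exact Nat.zero_le _

/-- Level-`l` block of a position `x < N ≤ t ^ (L + 2)`. -/
def lev {t L N : ℕ} (hN : N ≤ t ^ (L + 2)) (l : Fin (L + 1)) (x : Fin N) :
    Fin (t ^ ((l : ℕ) + 1)) :=
  ⟨(x : ℕ) / t ^ (L + 1 - (l : ℕ)), Nat.div_lt_of_lt_mul (by
    have h1 : t ^ (L + 1 - (l : ℕ)) * t ^ ((l : ℕ) + 1) = t ^ (L + 2) := by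
      rw [← pow_add]; congr 1; have := l.2; omega
    rw [h1]
    exact lt_of_lt_of_le x.2 hN)⟩

theorem lev_mono {t L N : ℕ} (hN : N ≤ t ^ (L + 2)) (l : Fin (L + 1)) : Monotone (lev hN l) := by
  intro x y hxy
  rw [Fin.le_def]
  exact Nat.div_le_div_right hxy

theorem lev_succ {t L N : ℕ} (hN : N ≤ t ^ (L + 2)) (l : Fin L) (x : Fin N) :
    ((lev hN l.castSucc x : Fin _) : ℕ) = (lev hN l.succ x : Fin _) / t := by
  simp only [lev, Fin.val_castSucc, Fin.val_succ]
  rw [Nat.div_div_eq_div_mul, ← pow_succ]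
  congr 2
  have := l.2
  omega

open Classical in
theorem card_image_div {α : Type*} {T₁ T₂ t : ℕ} (ht : 0 < t) (W : Finset α) (F : α → Fin T₁)
    (G : α → Fin T₂) (h : ∀ v, (G v : ℕ) = (F v : ℕ) / t) :
    (W.image F).card ≤ t * (W.image G).card := by
  have h1 : (W.image F).card ≤ t *
      ((W.image F).image fun q : Fin T₁ => (q : ℕ) / t).card := by
    refine Finset.card_le_mul_card_image _ _ ?_
    intro i _
    calc ((W.image F).filter fun q : Fin T₁ => (q : ℕ) / t = i).card
        ≤ (Finset.range t).card := by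
          refine Finset.card_le_card_of_injOn (fun q => (q : ℕ) % t) ?_ ?_
          · intro q _
            rw [Finset.mem_coe, Finset.mem_range]
            exact Nat.mod_lt _ ht
          · intro q hq q' hq' hqq
            rw [Finset.mem_coe, Finset.mem_filter] at hq hq'
            apply Fin.ext
            rw [← Nat.div_add_mod (q : ℕ) t, ← Nat.div_add_mod (q' : ℕ) t, hq.2, hq'.2]
            simp only at hqq
            rw [hqq]
      _ = t := Finset.card_range _
  refine h1.trans (Nat.mul_le_mul_left _ ?_)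
  have h2 : ((W.image F).image fun q : Fin T₁ => (q : ℕ) / t)
      = (W.image G).image fun q : Fin T₂ => (q : ℕ) := by
    rw [Finset.image_image, Finset.image_image]
    refine Finset.image_congr ?_
    intro v _
    exact (h v).symm
  rw [h2]
  exact Finset.card_image_le

open Classical in
theorem exists_multi_colouring {m g k n L M Λ s ρ b N : ℕ}
    (τs : Fin k → Equiv.Perm (Fin m × Fin g)) (e : Fin m × Fin g ↪ Fin n)
    (hρ : 3 ≤ ρ) (hgood : GoodU (cliqueAdj τs) (L + 1) M Λ s)
    (hnum : ∀ T : ℕ, T ≤ (ρ ^ 12) ^ (L + 1) →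
      (T : ℝ) * (((n : ℝ) + 1) ^ 2 * (Real.exp (-ρ) + (1 / (ρ : ℝ) ^ b))) ≤ 1 / 4)
    (hΛ : (25 * (2 * (b + 2))) ^ (L + 1) ≤ Λ)
    (hV : Λ * ρ ^ 18 < m * g) (hV' : m * g < ρ ^ 25) (hdρ : k * g ≤ ρ ^ 3)
    (hM : (ρ ^ 5 + 1) * ρ ^ 18 ≤ M) (hM' : (b + 2) * (m * g) ≤ M)
    (hs : (2 * ρ ^ 5 + 1) * (m * g / ρ ^ 6) ≤ s)
    (hs' : ∀ j, 3 ≤ j → (2 * (b + ρ ^ (j - 2) + 1) + 1) * (m * g / ρ ^ j) ≤ s)
    (hN : N ≤ (ρ ^ 12) ^ (L + 2)) (σ : Fin n ≃ Fin n) :
    ∃ c : Fin N → Fin N → Fin 2, ∀ (γ : Fin n ↪o Fin N) (κ : Fin 2),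
      ¬ ∀ v w : Fin n, (placedU τs e).Adj v w → σ v < σ w → c (γ (σ v)) (γ (σ w)) = κ := by
  have hρ1 : 1 < ρ := by omega
  have hρ0 : 0 < ρ := by omega
  have hcardV : Fintype.card (Fin m × Fin g) = m * g := by
    rw [Fintype.card_prod, Fintype.card_fin, Fintype.card_fin]
  set p : Fin m × Fin g → Fin n := fun v => σ (e v) with hp
  have hpinj : Function.Injective p := fun a b' hab => e.injective (σ.injective hab)
  -- the level relations
  have hlevel : ∀ l : Fin (L + 1), ∃ D : Fin ((ρ ^ 12) ^ ((l : ℕ) + 1)) ×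
      Fin ((ρ ^ 12) ^ ((l : ℕ) + 1)) → Prop,
      ∀ (J : Finset (Fin ((ρ ^ 12) ^ ((l : ℕ) + 1)))) (lr : J → Fin (n + 1) × Fin (n + 1)),
      J.Nonempty →
      (ρ ^ 5 * J.card ≤ (intPairs (cliqueAdj τs) p J lr).card →
        ∃ q ∈ intPairs (cliqueAdj τs) p J lr, D q) ∧
      ρ ^ 3 * ((intPairs (cliqueAdj τs) p J lr).filter D).card
        ≤ ρ ^ 3 * b * J.card + (intPairs (cliqueAdj τs) p J lr).card := by
    intro l
    refine exists_level (cliqueAdj τs) p ρ b hρ (hnum _ ?_)
    exact Nat.pow_le_pow_right (by positivity) (by have := l.2; omega)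
  choose D hD using hlevel
  refine ⟨fun x y => if ∃ l, lev hN l x < lev hN l y ∧ D l (lev hN l x, lev hN l y) then 1 else 0,
    fun γ κ hall => ?_⟩
  set f : (l : Fin (L + 1)) → Fin m × Fin g → Fin ((ρ ^ 12) ^ ((l : ℕ) + 1)) :=
    fun l v => lev hN l (γ (p v)) with hf
  have hmono : ∀ l : Fin (L + 1), Monotone fun i : Fin n => lev hN l (γ i) := fun l =>
    (lev_mono hN l).comp γ.monotone
  have hfcomp : ∀ l, f l = (fun i : Fin n => lev hN l (γ i)) ∘ p := fun l => rfl
  have hflt : ∀ l u v, f l u < f l v → p u < p v := by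
    intro l u v h
    by_contra hcon
    exact absurd (hmono l (not_lt.mp hcon)) (not_le.mpr h)
  -- properties of the levels
  have hprop : ∀ l : Fin (L + 1), ∀ J : Finset (Fin ((ρ ^ 12) ^ ((l : ℕ) + 1))), J.Nonempty →
      (ρ ^ 5 * J.card ≤ (relPairs (quot (cliqueAdj τs) (f l)) J).card →
        ∃ q ∈ relPairs (quot (cliqueAdj τs) (f l)) J, D l q) ∧
      ρ ^ 3 * (relPairs (fun i j => quot (cliqueAdj τs) (f l) i j ∧ D l (i, j)) J).card
        ≤ ρ ^ 3 * b * J.card + (relPairs (quot (cliqueAdj τs) (f l)) J).card := by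
    intro l J hJ
    obtain ⟨lr, hlr⟩ := exists_lr (cliqueAdj τs) p (fun i : Fin n => lev hN l (γ i)) (hmono l) J
    rw [← hfcomp l] at hlr
    have h := hD l J lr hJ
    rw [hlr] at h
    refine ⟨h.1, ?_⟩
    have heq : (relPairs (fun i j => quot (cliqueAdj τs) (f l) i j ∧ D l (i, j)) J)
        = (relPairs (quot (cliqueAdj τs) (f l)) J).filter (D l) := by
      ext q
      rw [Finset.mem_filter, mem_relPairs', mem_relPairs']
      tauto
    rw [heq]
    exact h.2
  have hκ : κ = 0 ∨ κ = 1 := by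
    rcases κ with ⟨x, hx⟩
    interval_cases x
    · left; rfl
    · right; rfl
  rcases hκ with rfl | rfl
  · -- red
    have hred0 : ∀ u v, cliqueAdj τs u v → p u < p v →
        ¬ ∃ l, f l u < f l v ∧ D l (f l u, f l v) := by
      intro u v huv hlt hex
      have h := hall (e u) (e v) ⟨u, v, huv, rfl, rfl⟩ hlt
      simp only at h
      rw [if_pos hex] at h
      exact absurd h (by decide)
    refine red_core (cliqueAdj τs) (cliqueAdj_symm τs) (T := fun l => (ρ ^ 12) ^ ((l : ℕ) + 1))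
      (M := M) (Λ := Λ) (s := s) hρ1 f hgood ?_ ?_ ?_ ?_ ?_ ?_ ?_ hM ?_
    · refine le_trans (Nat.pow_le_pow_left ?_ _) hΛ
      omega
    · rw [hcardV]; exact hV
    · rw [hcardV]; exact hV'
    · simp
    · intro l W
      exact card_image_div (by positivity) W (f l.succ) (f l.castSucc)
        (fun v => lev_succ hN l (γ (p v)))
    · intro i
      unfold fib
      calc (Finset.univ.filter fun v => f (Fin.last L) v = i).card
          ≤ (Finset.range (ρ ^ 12)).card := by
            refine Finset.card_le_card_of_injOn (fun v => ((γ (p v) : Fin N) : ℕ) % ρ ^ 12) ?_ ?_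
            · intro q _
              rw [Finset.mem_coe, Finset.mem_range]
              exact Nat.mod_lt _ (by positivity)
            · intro v hv w hw hvw
              rw [Finset.mem_coe, Finset.mem_filter] at hv hw
              apply hpinj
              apply γ.injective
              apply Fin.ext
              have h1 : ((γ (p v) : Fin N) : ℕ) / ρ ^ 12 = ((γ (p w) : Fin N) : ℕ) / ρ ^ 12 := by
                have h2 := congrArg (fun x : Fin _ => (x : ℕ)) (hv.2.trans hw.2.symm)
                simp only [hf, lev, Fin.val_last, Nat.add_sub_cancel_left, pow_one] at h2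
                exact h2
              rw [← Nat.div_add_mod ((γ (p v) : Fin N) : ℕ) (ρ ^ 12),
                ← Nat.div_add_mod ((γ (p w) : Fin N) : ℕ) (ρ ^ 12), h1]
              simp only at hvw
              rw [hvw]
        _ = ρ ^ 12 := Finset.card_range _
    · intro l J hJ
      by_contra hcon
      obtain ⟨q, hq, hDq⟩ := (hprop l J hJ).1 (not_lt.mp hcon)
      rw [mem_relPairs'] at hq
      obtain ⟨-, hlt, u, v, huv, hu, hv⟩ := hq
      rw [← hu, ← hv] at hlt
      refine hred0 u v huv (hflt l u v hlt) ⟨l, hlt, ?_⟩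
      rw [hu, hv]
      exact hDq
    · rw [hcardV]; exact hs
  · -- blue
    have hblue0 : ∀ u v, cliqueAdj τs u v → p u < p v →
        ∃ l, f l u < f l v ∧ D l (f l u, f l v) := by
      intro u v huv hlt
      by_contra hex
      have h := hall (e u) (e v) ⟨u, v, huv, rfl, rfl⟩ hlt
      simp only at h
      rw [if_neg hex] at h
      exact absurd h (by decide)
    refine blue_core (cliqueAdj τs) (cliqueAdj_symm τs) (T := fun l => (ρ ^ 12) ^ ((l : ℕ) + 1))
      (M := M) (Λ := Λ) (s := s) (ρ := ρ) (b := b) (d := k * g) hρ1 f D hgood hΛ ?_ ?_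
      (cliqueAdj_pairs τs) hdρ (fun l J hJ => (hprop l J hJ).2) ?_ ?_ ?_
    · rw [hcardV]; omega
    · rw [hcardV]; exact hV'
    · intro u v huv
      have hne : p u ≠ p v := by
        intro h
        have := hpinj h
        subst this
        exact not_cliqueAdj_self τs u huv
      rcases lt_or_gt_of_ne hne with h | h
      · obtain ⟨l, hl⟩ := hblue0 u v huv h
        exact ⟨l, Or.inl hl⟩
      · obtain ⟨l, hl⟩ := hblue0 v u (cliqueAdj_symm τs u v huv) h
        exact ⟨l, Or.inr hl⟩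
    · rw [hcardV]; exact hM'
    · rw [hcardV]; exact hs'

end Pool.Agent.OrdRam
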