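import Mathlib
import Pool.Agent.Lib.MP_5b01b8_co.UAssemble

/-!
# Choice of the parameters for the multi-level colouring
-/

namespace Pool.Agent.OrdRam

open Filter

theorem pow_self_le_three (μ : ℕ) : μ ^ μ ≤ 3 ^ μ * μ.factorial := by
  have h := Real.pow_div_factorial_le_exp (μ : ℝ) (Nat.cast_nonneg μ) μ
  rw [div_le_iff₀ (by exact_mod_cast μ.factorial_pos)] at h
  have h2 : Real.exp (μ : ℝ) ≤ 3 ^ μ := by
    have h3 : Real.exp (μ : ℝ) = Real.exp 1 ^ μ := by rw [← Real.exp_nat_mul, mul_one]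
    rw [h3]
    refine pow_le_pow_left₀ (Real.exp_pos _).le ?_ _
    have := Real.exp_one_lt_d9
    linarith
  have h4 : (μ : ℝ) ^ μ ≤ 3 ^ μ * (μ.factorial : ℝ) :=
    h.trans (mul_le_mul_of_nonneg_right h2 (Nat.cast_nonneg _))
  exact_mod_cast h4

theorem good_ineq {m g μ L' k s ρ B A M : ℕ} (hg : 0 < g) (hm : g ≤ m) (hμ : μ = m / g)
    (hs : s * ρ ≤ 3 * (m * g)) (hx : m * g ≤ ρ ^ 25) (hx2 : (m * g) ^ 2 + 1 ≤ ρ ^ 51)
    (hM : M = B * (m * g)) (hA : A = (25 + 51 * B) * g * L') (hk : k = 2 * g * (A + 2))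
    (hC : 2 ^ g * (2 * g ^ 2) ^ k * (18 * L' * g ^ 2) ^ k ≤ ρ) (hL' : 1 ≤ L') (hρ : 2 ≤ ρ) :
    2 ^ (m * g) * (((m * g) ^ (m * g)) ^ L' * (((m * g) ^ 2 + 1) ^ M) ^ L') *
      (2 ^ m * (g ^ m * g ^ m) * ((m * g).factorial * (L' * s) ^ μ)) ^ k
        < ((m * g).factorial) ^ k * (μ.factorial) ^ k := by
  have hρ0 : 0 < ρ := by omega
  have hm0 : 0 < m := by omega
  have hμ1 : 1 ≤ μ := by
    rw [hμ]
    exact (Nat.one_le_div_iff hg).mpr hm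
  have hm2 : m ≤ 2 * g * μ := by
    have h1 := Nat.lt_mul_div_succ m hg
    rw [← hμ] at h1
    have h2 : g * (μ + 1) ≤ 2 * g * μ := by
      calc g * (μ + 1) = g * μ + g * 1 := by ring
        _ ≤ g * μ + g * μ := Nat.add_le_add_left (Nat.mul_le_mul_left _ hμ1) _
        _ = _ := by ring
    omega
  have hμm : μ ≤ m := by rw [hμ]; exact Nat.div_le_self _ _
  have e1 : (L' * s) ^ μ * ρ ^ μ ≤ (18 * L' * g ^ 2) ^ μ * μ.factorial := by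
    rw [← mul_pow]
    calc (L' * s * ρ) ^ μ ≤ ((6 * L' * g ^ 2) * μ) ^ μ := by
          refine Nat.pow_le_pow_left ?_ μ
          calc L' * s * ρ = L' * (s * ρ) := by ring
            _ ≤ L' * (3 * (m * g)) := Nat.mul_le_mul_left _ hs
            _ ≤ L' * (3 * ((2 * g * μ) * g)) :=
                Nat.mul_le_mul_left _ (Nat.mul_le_mul_left _ (Nat.mul_le_mul_right _ hm2))
            _ = _ := by ring
      _ = (6 * L' * g ^ 2) ^ μ * μ ^ μ := mul_pow _ _ _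
      _ ≤ (6 * L' * g ^ 2) ^ μ * (3 ^ μ * μ.factorial) :=
          Nat.mul_le_mul_left _ (pow_self_le_three μ)
      _ = (18 * L' * g ^ 2) ^ μ * μ.factorial := by
          rw [← mul_assoc, ← mul_pow]
          congr 2
          ring
  have e2 : ((m * g) ^ (m * g)) ^ L' ≤ ρ ^ (25 * g * L' * m) := by
    calc ((m * g) ^ (m * g)) ^ L' ≤ ((ρ ^ 25) ^ (m * g)) ^ L' :=
          Nat.pow_le_pow_left (Nat.pow_le_pow_left hx _) _
      _ = ρ ^ (25 * g * L' * m) := by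
          rw [← pow_mul, ← pow_mul]; congr 1; ring
  have e3 : (((m * g) ^ 2 + 1) ^ M) ^ L' ≤ ρ ^ (51 * B * g * L' * m) := by
    calc (((m * g) ^ 2 + 1) ^ M) ^ L' ≤ ((ρ ^ 51) ^ M) ^ L' :=
          Nat.pow_le_pow_left (Nat.pow_le_pow_left hx2 _) _
      _ = ρ ^ (51 * B * g * L' * m) := by
          rw [← pow_mul, ← pow_mul, hM]; congr 1; ring
  have e4 : ((m * g) ^ (m * g)) ^ L' * (((m * g) ^ 2 + 1) ^ M) ^ L' ≤ ρ ^ (A * m) := by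
    calc _ ≤ ρ ^ (25 * g * L' * m) * ρ ^ (51 * B * g * L' * m) := Nat.mul_le_mul e2 e3
      _ = ρ ^ (A * m) := by rw [← pow_add, hA]; congr 1; ring
  have e5 : 2 ^ (m * g) * (2 ^ m * (g ^ m * g ^ m)) ^ k * ((18 * L' * g ^ 2) ^ μ) ^ k ≤ ρ ^ m := by
    calc 2 ^ (m * g) * (2 ^ m * (g ^ m * g ^ m)) ^ k * ((18 * L' * g ^ 2) ^ μ) ^ k
        ≤ 2 ^ (m * g) * (2 ^ m * (g ^ m * g ^ m)) ^ k * ((18 * L' * g ^ 2) ^ m) ^ k := by
          refine Nat.mul_le_mul_left _ (Nat.pow_le_pow_left (Nat.pow_le_pow_right ?_ hμm) _)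
          positivity
      _ = (2 ^ g * (2 * g ^ 2) ^ k * (18 * L' * g ^ 2) ^ k) ^ m := by
          have h1 : 2 ^ m * (g ^ m * g ^ m) = (2 * g ^ 2) ^ m := by
            rw [mul_pow, ← pow_add, ← pow_mul]
            congr 2
            ring
          rw [h1, mul_comm m g, pow_mul 2 g m, pow_right_comm (2 * g ^ 2) m k,
            pow_right_comm (18 * L' * g ^ 2) m k, ← mul_pow, ← mul_pow]
      _ ≤ ρ ^ m := Nat.pow_le_pow_left hC m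
  have e6 : ρ ^ (A * m + m) < (ρ ^ μ) ^ k := by
    rw [← pow_mul]
    refine Nat.pow_lt_pow_right (by omega) ?_
    calc A * m + m < (A + 2) * m := by
          have : (A + 2) * m = A * m + m + m := by ring
          omega
      _ ≤ (A + 2) * (2 * g * μ) := Nat.mul_le_mul_left _ hm2
      _ = μ * k := by rw [hk]; ring
  -- multiply by ρ ^ (μ k)
  have e7 : (2 ^ (m * g) * (((m * g) ^ (m * g)) ^ L' * (((m * g) ^ 2 + 1) ^ M) ^ L') *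
      (2 ^ m * (g ^ m * g ^ m) * ((m * g).factorial * (L' * s) ^ μ)) ^ k) * (ρ ^ μ) ^ k
      < (((m * g).factorial) ^ k * (μ.factorial) ^ k) * (ρ ^ μ) ^ k := by
    calc (2 ^ (m * g) * (((m * g) ^ (m * g)) ^ L' * (((m * g) ^ 2 + 1) ^ M) ^ L') *
        (2 ^ m * (g ^ m * g ^ m) * ((m * g).factorial * (L' * s) ^ μ)) ^ k) * (ρ ^ μ) ^ k
        = (((m * g) ^ (m * g)) ^ L' * (((m * g) ^ 2 + 1) ^ M) ^ L') *
          (2 ^ (m * g) * (2 ^ m * (g ^ m * g ^ m)) ^ k) * ((m * g).factorial) ^ k *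
          ((L' * s) ^ μ * ρ ^ μ) ^ k := by
          rw [mul_pow (2 ^ m * (g ^ m * g ^ m)), mul_pow ((m * g).factorial),
            mul_pow ((L' * s) ^ μ)]
          ring
      _ ≤ (ρ ^ (A * m)) *
          (2 ^ (m * g) * (2 ^ m * (g ^ m * g ^ m)) ^ k) * ((m * g).factorial) ^ k *
          ((18 * L' * g ^ 2) ^ μ * μ.factorial) ^ k := by
          refine Nat.mul_le_mul ?_ (Nat.pow_le_pow_left e1 k)
          exact Nat.mul_le_mul_right _ (Nat.mul_le_mul_right _ e4)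
      _ = ρ ^ (A * m) * (2 ^ (m * g) * (2 ^ m * (g ^ m * g ^ m)) ^ k *
          ((18 * L' * g ^ 2) ^ μ) ^ k) * (((m * g).factorial) ^ k * (μ.factorial) ^ k) := by
          rw [mul_pow ((18 * L' * g ^ 2) ^ μ)]
          ring
      _ ≤ ρ ^ (A * m) * ρ ^ m * (((m * g).factorial) ^ k * (μ.factorial) ^ k) :=
          Nat.mul_le_mul_right _ (Nat.mul_le_mul_left _ e5)
      _ = ρ ^ (A * m + m) * (((m * g).factorial) ^ k * (μ.factorial) ^ k) := by rw [pow_add]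
      _ < (ρ ^ μ) ^ k * (((m * g).factorial) ^ k * (μ.factorial) ^ k) :=
          Nat.mul_lt_mul_of_pos_right e6 (by positivity)
      _ = _ := by ring
  exact Nat.lt_of_mul_lt_mul_right e7

theorem exists_root (x : ℕ) : ∃ ρ : ℕ, ρ ^ 24 ≤ x ∧ x < (ρ + 1) ^ 24 := by
  have hex : ∃ r : ℕ, x < (r + 1) ^ 24 := ⟨x, by
    calc x < x + 1 := Nat.lt_succ_self x
      _ = (x + 1) ^ 1 := (pow_one _).symm
      _ ≤ (x + 1) ^ 24 := Nat.pow_le_pow_right (by omega) (by norm_num)⟩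
  classical
  refine ⟨Nat.find hex, ?_, Nat.find_spec hex⟩
  rcases Nat.eq_zero_or_pos (Nat.find hex) with h | h
  · rw [h]; simp
  · have := Nat.find_min hex (Nat.sub_lt h one_pos)
    have h3 : Nat.find hex - 1 + 1 = Nat.find hex := by omega
    rw [not_lt, h3] at this
    exact this

theorem lin1 (K : ℕ) (hK : 1 ≤ K) : 25 * (2 * ((24 * K + 65) + 2)) ≤ 4550 * K := by omega

theorem lin2 (K : ℕ) (hK : 1 ≤ K) : 25 + 51 * ((24 * K + 65) + 2) ≤ 4666 * K := by omega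

theorem lin3 (K : ℕ) (hK : 1 ≤ K) : 2 * K + 1 ≤ 3 * K := by omega

theorem lin4 (K : ℕ) : 0 < 25 * (2 * ((24 * K + 65) + 2)) := by omega

theorem level_num {K b ρ n T : ℕ} (hb : b = 24 * K + 65) (hρ8 : 8 ≤ ρ) (hn : n + 1 ≤ ρ ^ 26)
    (hT : T ≤ (ρ ^ 12) ^ (2 * K + 1))
    (h5 : (ρ : ℝ) ^ (b - 1) * Real.exp (-ρ) ≤ 1 / 8) :
    (T : ℝ) * (((n : ℝ) + 1) ^ 2 * (Real.exp (-ρ) + (1 / (ρ : ℝ) ^ b))) ≤ 1 / 4 := by
  have hρR : (0 : ℝ) < ρ := by exact_mod_cast (show 0 < ρ by omega)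
  have h1 : (T : ℝ) ≤ (ρ : ℝ) ^ (12 * (2 * K + 1)) := by
    have : T ≤ ρ ^ (12 * (2 * K + 1)) := by rw [pow_mul]; exact hT
    exact_mod_cast this
  have h2 : ((n : ℝ) + 1) ^ 2 ≤ (ρ : ℝ) ^ 52 := by
    have : (n : ℝ) + 1 ≤ (ρ : ℝ) ^ 26 := by exact_mod_cast hn
    calc ((n : ℝ) + 1) ^ 2 ≤ ((ρ : ℝ) ^ 26) ^ 2 := pow_le_pow_left₀ (by positivity) this 2
      _ = (ρ : ℝ) ^ 52 := by rw [← pow_mul]
  have h3 : (ρ : ℝ) ^ (12 * (2 * K + 1)) * (ρ : ℝ) ^ 52 = (ρ : ℝ) ^ (b - 1) := by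
    rw [← pow_add]
    have : 12 * (2 * K + 1) + 52 = b - 1 := by omega
    rw [this]
  have h4 : (ρ : ℝ) ^ b = (ρ : ℝ) ^ (b - 1) * ρ := by
    rw [← pow_succ]
    have : b - 1 + 1 = b := by omega
    rw [this]
  have h6 : (ρ : ℝ) ^ (b - 1) * (1 / (ρ : ℝ) ^ b) ≤ 1 / 8 := by
    rw [h4]
    have h7 : (ρ : ℝ) ^ (b - 1) * (1 / ((ρ : ℝ) ^ (b - 1) * ρ)) = 1 / ρ := by
      field_simp
    rw [h7]
    have h8 : (8 : ℝ) ≤ ρ := by exact_mod_cast hρ8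
    exact one_div_le_one_div_of_le (by norm_num) h8
  calc (T : ℝ) * (((n : ℝ) + 1) ^ 2 * (Real.exp (-ρ) + (1 / (ρ : ℝ) ^ b)))
      ≤ (ρ : ℝ) ^ (12 * (2 * K + 1)) * ((ρ : ℝ) ^ 52 *
        (Real.exp (-ρ) + (1 / (ρ : ℝ) ^ b))) := by
        refine mul_le_mul h1 ?_ (by positivity) (by positivity)
        exact mul_le_mul_of_nonneg_right h2 (by positivity)
    _ = (ρ : ℝ) ^ (b - 1) * Real.exp (-ρ) + (ρ : ℝ) ^ (b - 1) * (1 / (ρ : ℝ) ^ b) := by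
        rw [← mul_assoc, h3, mul_add]
    _ ≤ 1 / 8 + 1 / 8 := add_le_add h5 h6
    _ = 1 / 4 := by norm_num

/-- Bound on the degree. -/
theorem degree_bound (K : ℕ) (hK : 1 ≤ K) (Λ g A : ℕ)
    (hΛ : Λ = (25 * (2 * ((24 * K + 65) + 2))) ^ (2 * K + 1)) (hg : g = 2 * Λ)
    (hA : A = (25 + 51 * ((24 * K + 65) + 2)) * g * (2 * K + 1)) :
    (2 * g * (A + 2)) * g ≤ (5000 * K) ^ (11 * K) := by
  have h1 := lin1 K hK
  have h3 := lin2 K hK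
  have h4 := lin3 K hK
  have h0 := lin4 K
  have h2 : Λ ≤ (4550 * K) ^ (2 * K + 1) := by
    rw [hΛ]; exact Nat.pow_le_pow_left h1 _
  have hg2 : g ≤ 2 * (4550 * K) ^ (2 * K + 1) := by omega
  have hΛ0 : 0 < Λ := by rw [hΛ]; exact Nat.pow_pos h0
  have hg0 : 1 ≤ g := by rw [hg]; exact Nat.mul_pos (by norm_num) hΛ0
  have hA2 : A + 2 ≤ 14000 * K ^ 2 * g := by
    have h5 : A ≤ (4666 * K) * g * (3 * K) := by
      rw [hA]
      exact Nat.mul_le_mul (Nat.mul_le_mul_right _ h3) h4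
    have h6 : 1 ≤ K ^ 2 * g := Nat.mul_pos (by positivity) hg0
    calc A + 2 ≤ (4666 * K) * g * (3 * K) + 2 * (K ^ 2 * g) :=
          Nat.add_le_add h5 (Nat.mul_le_mul_left 2 h6)
      _ = 14000 * K ^ 2 * g := by ring
  calc (2 * g * (A + 2)) * g ≤ (2 * g * (14000 * K ^ 2 * g)) * g :=
        Nat.mul_le_mul_right _ (Nat.mul_le_mul_left _ hA2)
    _ = 28000 * K ^ 2 * g ^ 3 := by ring
    _ ≤ 28000 * K ^ 2 * (2 * (4550 * K) ^ (2 * K + 1)) ^ 3 :=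
        Nat.mul_le_mul_left _ (Nat.pow_le_pow_left hg2 3)
    _ = 224000 * K ^ 2 * ((4550 * K) ^ (2 * K + 1)) ^ 3 := by ring
    _ = 224000 * K ^ 2 * (4550 * K) ^ (6 * K + 3) := by
        rw [← pow_mul]; congr 2; ring
    _ ≤ (4550 * K) ^ 2 * (4550 * K) ^ (6 * K + 3) := by
        refine Nat.mul_le_mul_right _ ?_
        rw [mul_pow]
        exact Nat.mul_le_mul_right _ (by norm_num)
    _ = (4550 * K) ^ (6 * K + 5) := by rw [← pow_add]; congr 1; ring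
    _ ≤ (4550 * K) ^ (11 * K) := Nat.pow_le_pow_right (by omega) (by omega)
    _ ≤ (5000 * K) ^ (11 * K) := Nat.pow_le_pow_left (by omega) _

theorem unbounded_bound (K : ℕ) (hK : 1 ≤ K) : ∃ n₀ : ℕ, ∀ n : ℕ, n₀ ≤ n →
    ∃ G : SimpleGraph (Fin n), (∀ v, (G.neighborSet v).ncard ≤ (5000 * K) ^ (11 * K)) ∧
      ∀ (σ : Fin n ≃ Fin n) (N : ℕ), N ≤ n ^ K →
        ∃ c : Fin N → Fin N → Fin 2, ∀ (γ : Fin n ↪o Fin N) (κ : Fin 2),
          ¬ ∀ v w : Fin n, G.Adj v w → σ v < σ w → c (γ (σ v)) (γ (σ w)) = κ := by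
  obtain ⟨b, hb⟩ : ∃ b, b = 24 * K + 65 := ⟨_, rfl⟩
  obtain ⟨Λ, hΛ⟩ : ∃ Λ, Λ = (25 * (2 * (b + 2))) ^ (2 * K + 1) := ⟨_, rfl⟩
  obtain ⟨g, hg⟩ : ∃ g, g = 2 * Λ := ⟨_, rfl⟩
  obtain ⟨A, hA⟩ : ∃ A, A = (25 + 51 * (b + 2)) * g * (2 * K + 1) := ⟨_, rfl⟩
  obtain ⟨k, hk⟩ : ∃ k, k = 2 * g * (A + 2) := ⟨_, rfl⟩
  obtain ⟨C, hC⟩ : ∃ C, C = 2 ^ g * (2 * g ^ 2) ^ k * (18 * (2 * K + 1) * g ^ 2) ^ k := ⟨_, rfl⟩
  have hΛ0 : 0 < Λ := by rw [hΛ]; exact Nat.pow_pos (by omega)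
  have hg0 : 0 < g := by omega
  obtain ⟨c₁, hc₁⟩ : ∃ c₁ : ℕ, c₁ = 2 ^ (25 * K) := ⟨_, rfl⟩
  have hdegb : k * g ≤ (5000 * K) ^ (11 * K) := by
    rw [hk]
    exact degree_bound K hK Λ g A (by rw [hΛ, hb]) hg (by rw [hA, hb])
  -- exponential decay
  have hev : ∀ᶠ ρ : ℕ in atTop, (ρ : ℝ) ^ (b - 1) * Real.exp (-ρ) ≤ 1 / 8 := by
    have h := (Real.tendsto_pow_mul_exp_neg_atTop_nhds_zero (b - 1)).comp
      tendsto_natCast_atTop_atTop (α := ℕ)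
    have h2 := h.eventually (eventually_le_nhds (show (0 : ℝ) < 1 / 8 by norm_num))
    exact h2
  obtain ⟨ρ₀, hρ₀⟩ := eventually_atTop.mp hev
  obtain ⟨ρ₁, hρ₁⟩ : ∃ ρ₁, ρ₁ = ρ₀ + 2 ^ 24 + Λ + k * g + C + c₁ + 2 * b + 3 + g :=
    ⟨_, rfl⟩
  refine ⟨(ρ₁ + 1) ^ 24 + g, fun n hn => ?_⟩
  obtain ⟨m, hm⟩ : ∃ m, m = n / g := ⟨_, rfl⟩
  obtain ⟨ρ, hρa, hρb⟩ := exists_root (m * g)
  have hxn : m * g ≤ n := by rw [hm]; exact Nat.div_mul_le_self n g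
  have hnx : n < m * g + g := by
    rw [hm]
    have := Nat.lt_mul_div_succ n hg0
    calc n < g * (n / g + 1) := this
      _ = _ := by ring
  have hρ1 : ρ₁ ≤ ρ := by
    have h1 : (ρ₁ + 1) ^ 24 < (ρ + 1) ^ 24 := by omega
    have h2 := lt_of_pow_lt_pow_left₀ 24 (Nat.zero_le _) h1
    omega
  have hρ0' : ρ₀ ≤ ρ := by omega
  have hρ24 : 2 ^ 24 ≤ ρ := by omega
  have hρΛ : Λ < ρ := by omega
  have hρkg : k * g ≤ ρ := by omega
  have hρC : C ≤ ρ := by omega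
  have hρK : c₁ ≤ ρ := by omega
  have hρb' : 2 * b + 3 ≤ ρ := by omega
  have hρg : g ≤ ρ := by omega
  have hρ3 : 3 ≤ ρ := by omega
  have hρ8 : 8 ≤ ρ := by
    have : (8 : ℕ) ≤ 2 ^ 24 := by norm_num
    omega
  have hρpos : 0 < ρ := by omega
  have hρ2 : 2 ≤ ρ := by omega
  have hK1 : 1 ≤ 2 * K + 1 := by omega
  -- sizes
  have hx25 : m * g < ρ ^ 25 := by
    calc m * g < (ρ + 1) ^ 24 := hρb
      _ ≤ (2 * ρ) ^ 24 := Nat.pow_le_pow_left (by omega) 24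
      _ = 2 ^ 24 * ρ ^ 24 := mul_pow _ _ _
      _ ≤ ρ * ρ ^ 24 := Nat.mul_le_mul_right _ hρ24
      _ = ρ ^ 25 := by ring
  have hpow : ∀ i j : ℕ, i ≤ j → ρ ^ i ≤ ρ ^ j := fun i j hij =>
    Nat.pow_le_pow_right hρpos hij
  have hgx : g ≤ m * g := by
    calc g ≤ ρ := hρg
      _ = ρ ^ 1 := (pow_one _).symm
      _ ≤ ρ ^ 24 := hpow 1 24 (by norm_num)
      _ ≤ m * g := hρa
  have hgm : g ≤ m := by
    have h1 : g * g ≤ m * g := by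
      calc g * g ≤ ρ * ρ := Nat.mul_le_mul hρg hρg
        _ = ρ ^ 2 := by ring
        _ ≤ ρ ^ 24 := hpow 2 24 (by norm_num)
        _ ≤ m * g := hρa
    exact Nat.le_of_mul_le_mul_right h1 hg0
  have hn2 : n ≤ 2 * (m * g) := by omega
  have hn26 : n + 1 ≤ ρ ^ 26 := by
    calc n + 1 ≤ 2 * ρ ^ 25 + ρ ^ 25 := by
          have : 1 ≤ ρ ^ 25 := Nat.one_le_pow _ _ hρpos
          omega
      _ = 3 * ρ ^ 25 := by ring
      _ ≤ ρ * ρ ^ 25 := Nat.mul_le_mul_right _ hρ3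
      _ = ρ ^ 26 := by ring
  obtain ⟨s, hs⟩ : ∃ s, s = 3 * (m * g) / ρ := ⟨_, rfl⟩
  obtain ⟨M, hM⟩ : ∃ M, M = (b + 2) * (m * g) := ⟨_, rfl⟩
  have hx51 : (m * g) ^ 2 + 1 ≤ ρ ^ 51 := by
    have h1 : (m * g) ^ 2 ≤ ρ ^ 50 := by
      calc (m * g) ^ 2 ≤ (ρ ^ 25) ^ 2 := Nat.pow_le_pow_left hx25.le 2
        _ = ρ ^ 50 := by rw [← pow_mul]
    have h2 : 1 ≤ ρ ^ 50 := Nat.one_le_pow _ _ hρpos
    calc (m * g) ^ 2 + 1 ≤ ρ ^ 50 + ρ ^ 50 := Nat.add_le_add h1 h2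
      _ = 2 * ρ ^ 50 := by ring
      _ ≤ ρ * ρ ^ 50 := Nat.mul_le_mul_right _ hρ2
      _ = ρ ^ 51 := by ring
  have hsρ : s * ρ ≤ 3 * (m * g) := by rw [hs]; exact Nat.div_mul_le_self _ _
  rw [hC] at hρC
  have hgi := good_ineq (s := s) (M := M) (ρ := ρ) (B := b + 2) (A := A) (k := k)
    (L' := 2 * K + 1) hg0 hgm rfl hsρ hx25.le hx51 hM hA hk hρC hK1 hρ2
  -- the graph
  obtain ⟨τs, hgood⟩ := exists_goodU hΛ0 hg (Nat.div_mul_le_self m g) hgi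
  have hcard : Fintype.card (Fin m × Fin g) ≤ Fintype.card (Fin n) := by
    rw [Fintype.card_prod, Fintype.card_fin, Fintype.card_fin, Fintype.card_fin]
    exact hxn
  obtain ⟨e⟩ := Function.Embedding.nonempty_of_card_le hcard
  refine ⟨placedU τs e, fun v => (placedU_degree τs e v).trans hdegb, fun σ N hN => ?_⟩
  refine exists_multi_colouring (L := 2 * K) (b := b) (ρ := ρ) τs e hρ3 hgood ?_ (by rw [hΛ]) ?_
    hx25 ?_ ?_ ?_ ?_ ?_ ?_ σ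
  · -- the random colouring
    intro T hT
    exact level_num hb hρ8 hn26 hT (hρ₀ ρ hρ0')
  · calc Λ * ρ ^ 18 < ρ * ρ ^ 18 := Nat.mul_lt_mul_of_pos_right hρΛ (Nat.pow_pos hρpos)
      _ = ρ ^ 19 := by ring
      _ ≤ ρ ^ 24 := hpow 19 24 (by norm_num)
      _ ≤ m * g := hρa
  · calc k * g ≤ ρ := hρkg
      _ = ρ ^ 1 := (pow_one _).symm
      _ ≤ ρ ^ 3 := hpow 1 3 (by norm_num)
  · rw [hM]
    calc (ρ ^ 5 + 1) * ρ ^ 18 ≤ (ρ ^ 5 + ρ ^ 5) * ρ ^ 18 := by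
          refine Nat.mul_le_mul_right _ (Nat.add_le_add_left ?_ _)
          exact Nat.one_le_pow _ _ hρpos
      _ = 2 * ρ ^ 23 := by ring
      _ ≤ ρ * ρ ^ 23 := Nat.mul_le_mul_right _ (by omega)
      _ = ρ ^ 24 := by ring
      _ ≤ m * g := hρa
      _ = 1 * (m * g) := (one_mul _).symm
      _ ≤ (b + 2) * (m * g) := Nat.mul_le_mul_right _ (by omega)
  · rw [hM]
  · rw [hs, Nat.le_div_iff_mul_le hρpos]
    calc (2 * ρ ^ 5 + 1) * (m * g / ρ ^ 6) * ρ ≤ (2 * ρ ^ 5 + ρ ^ 5) * (m * g / ρ ^ 6) * ρ := by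
          refine Nat.mul_le_mul_right _ (Nat.mul_le_mul_right _ (Nat.add_le_add_left ?_ _))
          exact Nat.one_le_pow _ _ hρpos
      _ = 3 * (m * g / ρ ^ 6 * ρ ^ 6) := by ring
      _ ≤ 3 * (m * g) := Nat.mul_le_mul_left _ (Nat.div_mul_le_self _ _)
  · intro j hj
    rw [hs, Nat.le_div_iff_mul_le hρpos]
    have h1 : 2 * (b + ρ ^ (j - 2) + 1) + 1 ≤ 3 * ρ ^ (j - 2) := by
      have h2 : ρ ≤ ρ ^ (j - 2) := by
        calc ρ = ρ ^ 1 := (pow_one _).symm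
          _ ≤ ρ ^ (j - 2) := hpow 1 (j - 2) (by omega)
      omega
    calc (2 * (b + ρ ^ (j - 2) + 1) + 1) * (m * g / ρ ^ j) * ρ
        ≤ (3 * ρ ^ (j - 2)) * (m * g / ρ ^ j) * ρ :=
          Nat.mul_le_mul_right _ (Nat.mul_le_mul_right _ h1)
      _ = 3 * (m * g / ρ ^ j * (ρ ^ (j - 2) * ρ)) := by ring
      _ ≤ 3 * (m * g / ρ ^ j * ρ ^ j) := by
          refine Nat.mul_le_mul_left _ (Nat.mul_le_mul_left _ ?_)
          rw [← pow_succ]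
          exact hpow _ _ (by omega)
      _ ≤ 3 * (m * g) := Nat.mul_le_mul_left _ (Nat.div_mul_le_self _ _)
  · refine hN.trans ?_
    calc n ^ K ≤ (2 * (m * g)) ^ K := Nat.pow_le_pow_left hn2 K
      _ ≤ (2 * (2 ^ 24 * ρ ^ 24)) ^ K := by
          refine Nat.pow_le_pow_left (Nat.mul_le_mul_left _ ?_) K
          calc m * g ≤ (ρ + 1) ^ 24 := hρb.le
            _ ≤ (2 * ρ) ^ 24 := Nat.pow_le_pow_left (by omega) 24
            _ = 2 ^ 24 * ρ ^ 24 := mul_pow _ _ _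
      _ = c₁ * ρ ^ (24 * K) := by
          rw [hc₁, show 2 * (2 ^ 24 * ρ ^ 24) = 2 ^ 25 * ρ ^ 24 by ring, mul_pow, ← pow_mul, ← pow_mul]
      _ ≤ ρ ^ 24 * ρ ^ (24 * K) := by
          refine Nat.mul_le_mul_right _ (hρK.trans ?_)
          calc ρ = ρ ^ 1 := (pow_one _).symm
            _ ≤ ρ ^ 24 := hpow 1 24 (by norm_num)
      _ = (ρ ^ 12) ^ (2 * K + 2) := by
          rw [← pow_add, ← pow_mul]; congr 1; ring

end Pool.Agent.OrdRam
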